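import Pool.Agent.KS6_54.LPG.Stm

/-!
# Project LPG, tasks ADD and NRM
-/

set_option autoImplicit false

open MeasureTheory ProbabilityTheory Filter Topology

namespace Pool.Agent.KS6_54.LPG.N475.LPG

open Pool.Agent.KS6_54.LPG.H320R2.LD Pool.Agent.KS6_54.LPG.N573.LPG

/-- the law of `√k a + b` in one dimension -/
theorem one_dim (k : ℕ) :
    Measure.map (fun q : ℝ × ℝ => Real.sqrt k * q.1 + q.2)
      ((gaussianReal 0 1).prod (gaussianReal 0 1)) = gaussianReal 0 (k + 1) := by
  have h1 : (fun q : ℝ × ℝ => Real.sqrt k * q.1 + q.2) =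
      (fun q : ℝ × ℝ => q.1 + q.2) ∘ (Prod.map (fun x : ℝ => Real.sqrt k * x) (fun x : ℝ => x)) := by
    funext q; rfl
  rw [h1, ← Measure.map_map (by fun_prop) (by fun_prop),
    ← Measure.map_prod_map _ _ (by fun_prop) (by fun_prop)]
  have h2 : Measure.map (fun x : ℝ => x) (gaussianReal 0 1) = gaussianReal 0 1 := Measure.map_id
  rw [gaussianReal_map_const_mul, h2]
  have h3 := gaussianReal_conv_gaussianReal (m₁ := Real.sqrt k * 0) (m₂ := 0)
    (v₁ := (.mk (Real.sqrt k ^ 2) (sq_nonneg _) * 1 : NNReal)) (v₂ := 1)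
  unfold Measure.conv at h3
  rw [h3]
  congr 1
  · simp
  · apply NNReal.eq
    simp

theorem one_dim' (k : ℕ) :
    Measure.map (fun x : ℝ => Real.sqrt (k + 1 : ℕ) * x) (gaussianReal 0 1) =
      gaussianReal 0 (k + 1) := by
  rw [gaussianReal_map_const_mul]
  congr 1
  · simp
  · apply NNReal.eq
    push_cast
    rw [mul_one]
    exact Real.sq_sqrt (by positivity)

theorem t_ADD : T_ADD := by
  intro J _ k
  have hp := measurePreserving_arrowProdEquivProdArrow ℝ ℝ J (fun _ => gaussianReal 0 1)
    (fun _ => gaussianReal 0 1)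
  have hR : Measure.map (fun w : J → ℝ => fun j => Real.sqrt (k + 1 : ℕ) * w j) (gam J) =
      Measure.pi (fun _ : J => gaussianReal 0 ((k : NNReal) + 1)) := by
    have := Measure.pi_map_pi (μ := fun _ : J => gaussianReal 0 1)
      (f := fun (_ : J) (x : ℝ) => Real.sqrt (k + 1 : ℕ) * x)
      (hμ := fun i => by rw [one_dim']; infer_instance)
      (fun i => by fun_prop)
    unfold gam
    rw [this]
    congr 1
    funext j
    exact one_dim' k
  have hL : Measure.map (fun q : (J → ℝ) × (J → ℝ) => fun j => Real.sqrt k * q.1 j + q.2 j)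
      ((gam J).prod (gam J)) = Measure.pi (fun _ : J => gaussianReal 0 ((k : NNReal) + 1)) := by
    unfold gam
    rw [← hp.map_eq, Measure.map_map (by fun_prop) (MeasurableEquiv.measurable _)]
    have := Measure.pi_map_pi (μ := fun _ : J => (gaussianReal 0 1).prod (gaussianReal 0 1))
      (f := fun (_ : J) (q : ℝ × ℝ) => Real.sqrt k * q.1 + q.2)
      (hμ := fun i => by rw [one_dim]; infer_instance)
      (fun i => by fun_prop)
    have h4 : ((fun q : (J → ℝ) × (J → ℝ) => fun j => Real.sqrt k * q.1 j + q.2 j) ∘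
        (MeasurableEquiv.arrowProdEquivProdArrow ℝ ℝ J)) =
        (fun (x : J → ℝ × ℝ) (j : J) => Real.sqrt k * (x j).1 + (x j).2) := by
      funext x j; rfl
    rw [h4, this]
    congr 1
    funext j
    exact one_dim k
  rw [hL, hR]

theorem int_sq : Integrable (fun x : ℝ => x ^ 2) (gaussianReal 0 1) :=
  (memLp_id_gaussianReal (μ := 0) (v := 1) 2).integrable_sq

theorem mean_sq : ∫ x : ℝ, x ^ 2 ∂(gaussianReal 0 1) = 1 := by
  have h1 := variance_id_gaussianReal (μ := 0) (v := 1)
  rw [variance_eq_sub (memLp_id_gaussianReal (μ := 0) (v := 1) 2)] at h1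
  simp only [id_eq, NNReal.coe_one] at h1
  have h2 := integral_id_gaussianReal (μ := 0) (v := 1)
  have h3 : ∫ x : ℝ, (id ^ 2 : ℝ → ℝ) x ∂(gaussianReal 0 1) = ∫ x : ℝ, x ^ 2 ∂(gaussianReal 0 1) := by
    rfl
  rw [h3, h2] at h1
  linarith

theorem int_coord (J : Type) [Fintype J] (j : J) :
    Integrable (fun w : J → ℝ => w j ^ 2) (gam J) := by
  have h := measurePreserving_eval (fun _ : J => gaussianReal 0 1) j
  exact h.integrable_comp_of_integrable int_sq

theorem mean_coord (J : Type) [Fintype J] (j : J) :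
    ∫ w : J → ℝ, w j ^ 2 ∂(gam J) = 1 := by
  have h := measurePreserving_eval (fun _ : J => gaussianReal 0 1) j
  have h2 : ∫ x : ℝ, x ^ 2 ∂(Measure.map (Function.eval j)
      (Measure.pi fun _ : J => gaussianReal 0 1)) =
      ∫ w : J → ℝ, (Function.eval j w) ^ 2 ∂(Measure.pi fun _ : J => gaussianReal 0 1) :=
    integral_map h.measurable.aemeasurable
      (by fun_prop : Measurable (fun x : ℝ => x ^ 2)).aestronglyMeasurable
  rw [h.map_eq, mean_sq] at h2
  exact h2.symm

theorem int_nsq (J : Type) [Fintype J] : Integrable (fun w : J → ℝ => nsq w) (gam J) := by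
  unfold nsq
  exact integrable_finsetSum _ fun j _ => int_coord J j

theorem mean_nsq (J : Type) [Fintype J] : ∫ w : J → ℝ, nsq w ∂(gam J) = Fintype.card J := by
  unfold nsq
  rw [integral_finsetSum _ fun j _ => int_coord J j]
  simp [mean_coord]

theorem nsq_nonneg {J : Type} [Fintype J] (w : J → ℝ) : 0 ≤ nsq w :=
  Finset.sum_nonneg fun _ _ => sq_nonneg _

theorem t_NRM : T_NRM := by
  intro J _
  have hm : Measurable (fun w : J → ℝ => nrm w) := by
    unfold nrm nsq
    fun_prop
  have hi : Integrable (fun w : J → ℝ => nrm w) (gam J) := by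
    refine Integrable.mono' ((integrable_const (1 : ℝ)).add (int_nsq J)) hm.aestronglyMeasurable ?_
    refine Filter.Eventually.of_forall fun w => ?_
    have h0 : 0 ≤ nrm w := Real.sqrt_nonneg _
    have h1 : nrm w ^ 2 = nsq w := Real.sq_sqrt (nsq_nonneg w)
    rw [Real.norm_of_nonneg h0]
    show nrm w ≤ 1 + nsq w
    nlinarith
  refine ⟨hi, ?_⟩
  rcases Nat.eq_zero_or_pos (Fintype.card J) with h | h
  · have : IsEmpty J := Fintype.card_eq_zero_iff.mp h
    have h1 : ∀ w : J → ℝ, nrm w = 0 := by
      intro w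
      unfold nrm nsq
      simp
    simp [h1]
  · have hs : 0 < Real.sqrt (Fintype.card J) := Real.sqrt_pos.mpr (by exact_mod_cast h)
    have hss : Real.sqrt (Fintype.card J) * Real.sqrt (Fintype.card J) = Fintype.card J :=
      Real.mul_self_sqrt (by positivity)
    set s := Real.sqrt (Fintype.card J) with hsdef
    have hb : ∀ w : J → ℝ, nrm w ≤ (1 / (2 * s)) * nsq w + s / 2 := by
      intro w
      have h1 : nrm w ^ 2 = nsq w := Real.sq_sqrt (nsq_nonneg w)
      rw [← h1]
      have h2 : (1 / (2 * s)) * nrm w ^ 2 + s / 2 - nrm w = (nrm w - s) ^ 2 / (2 * s) := by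
        field_simp
        ring
      have h3 : 0 ≤ (nrm w - s) ^ 2 / (2 * s) := by positivity
      linarith
    calc ∫ w, nrm w ∂(gam J) ≤ ∫ w, ((1 / (2 * s)) * nsq w + s / 2) ∂(gam J) :=
          integral_mono hi (((int_nsq J).const_mul _).add (integrable_const _)) hb
      _ = (1 / (2 * s)) * (Fintype.card J) + s / 2 := by
          rw [integral_add ((int_nsq J).const_mul _) (integrable_const _), integral_const_mul,
            mean_nsq]
          simp
      _ = s := by
          rw [← hss]
          field_simp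
          ring

end Pool.Agent.KS6_54.LPG.N475.LPG
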