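import Pool.Agent.KS6_54.LPG.Stm2

set_option autoImplicit false

open MeasureTheory ProbabilityTheory Filter Topology

namespace Pool.Agent.KS6_54.LPG.N573.LPG

open Pool.Agent.KS6_54.LPG.H320R2.LD

noncomputable section

variable {n : ℕ} {p : ℝ}

theorem nsq_nn {V : Type} [Fintype V] (x : V → ℝ) : 0 ≤ nsq x :=
  Finset.sum_nonneg fun _ _ => sq_nonneg _

theorem nrm_nn {V : Type} [Fintype V] (x : V → ℝ) : 0 ≤ nrm x := Real.sqrt_nonneg _

theorem nrm_sq' {V : Type} [Fintype V] (x : V → ℝ) : nrm x ^ 2 = nsq x := Real.sq_sqrt (nsq_nn x)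

theorem pr_comm (i j : Fin n) : pr i j = pr j i := by
  unfold pr; congr 2
  · exact min_comm _ _
  · exact max_comm _ _

theorem Wm_comm (g : U n → ℝ) (i j : Fin n) : Wm g i j = Wm g j i := by
  unfold Wm; rw [pr_comm i j]
  by_cases h : i = j
  · simp [h]
  · rw [if_neg h, if_neg (Ne.symm h)]

theorem Hf_neg (g : U n → ℝ) (y : Fin n → ℝ) : Hf g (-y) = Hf g y := by
  unfold Hf; simp

theorem zero_mem (hp : 2 < p) (S : Finset (Fin n)) : (0 : Fin n → ℝ) ∈ Kp p S := by
  refine ⟨?_, fun j _ => rfl⟩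
  have : ∀ i : Fin n, |(0 : Fin n → ℝ) i| ^ p = 0 := by
    intro i
    simp only [Pi.zero_apply, abs_zero]
    exact Real.zero_rpow (by linarith)
  rw [Finset.sum_congr rfl fun i _ => this i]
  simp

theorem cont_Hf (g : U n → ℝ) : Continuous (fun y : Fin n → ℝ => Hf g y) := by
  unfold Hf; fun_prop

theorem cont_dt (v : Fin n → ℝ) : Continuous (fun y : Fin n → ℝ => dt v y) := by
  unfold dt; fun_prop

theorem compact_Kp (hp : 2 < p) (S : Finset (Fin n)) : IsCompact (Kp p S) := by
  rw [Metric.isCompact_iff_isClosed_bounded]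
  constructor
  · have h1 : IsClosed {y : Fin n → ℝ | ∑ i, |y i| ^ p ≤ n} := by
      apply isClosed_le _ continuous_const
      refine continuous_finsetSum _ fun i _ => ?_
      exact (continuous_abs.comp (continuous_apply i)).rpow_const (fun x => Or.inr (by linarith))
    have h2 : IsClosed {y : Fin n → ℝ | ∀ j ∈ S, y j = 0} := by
      simp only [Set.ofPred_forall]
      refine isClosed_iInter fun j => isClosed_iInter fun _ => ?_
      exact isClosed_eq (continuous_apply j) continuous_const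
    exact h1.inter h2
  · rw [isBounded_iff_forall_norm_le]
    refine ⟨max 1 n, fun y hy => ?_⟩
    rw [pi_norm_le_iff_of_nonneg (by positivity)]
    intro i
    rw [Real.norm_eq_abs]
    by_contra hcon
    push Not at hcon
    have h1 : (1 : ℝ) < |y i| := lt_of_le_of_lt (le_max_left _ _) hcon
    have h2 : (n : ℝ) < |y i| := lt_of_le_of_lt (le_max_right _ _) hcon
    have h3 : |y i| ≤ |y i| ^ p := by
      have := Real.rpow_le_rpow_of_exponent_le h1.le (show (1 : ℝ) ≤ p by linarith)
      rwa [Real.rpow_one] at this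
    have h4 : |y i| ^ p ≤ ∑ i, |y i| ^ p :=
      Finset.single_le_sum (f := fun i => |y i| ^ p)
        (fun j _ => Real.rpow_nonneg (abs_nonneg _) _) (Finset.mem_univ i)
    linarith [hy.1]

theorem t_ATT : T_ATT := by
  intro p hp n S g v
  have hc : Continuous (fun y : Fin n → ℝ => Hf g y + 2 * dt v y) :=
    (cont_Hf g).add (continuous_const.mul (cont_dt v))
  obtain ⟨y, hy, hmax⟩ := (compact_Kp hp S).exists_isMaxOn ⟨0, zero_mem hp S⟩ hc.continuousOn
  have hub : Hf g y + 2 * dt v y ∈ upperBounds ((fun y => Hf g y + 2 * dt v y) '' Kp p S) := by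
    rintro _ ⟨z, hz, rfl⟩; exact hmax hz
  have hmem : Hf g y + 2 * dt v y ∈ (fun y => Hf g y + 2 * dt v y) '' Kp p S := ⟨y, hy, rfl⟩
  have hM : M p S g v = Hf g y + 2 * dt v y := by
    apply le_antisymm
    · exact csSup_le ⟨_, hmem⟩ hub
    · exact le_csSup ⟨_, hub⟩ hmem
  refine ⟨y, hy, hM, fun y' hy' => ?_⟩
  rw [hM]
  exact hmax hy'

theorem le_M (hp : 2 < p) (S : Finset (Fin n)) (g : U n → ℝ) (v y : Fin n → ℝ) (hy : y ∈ Kp p S) :
    Hf g y + 2 * dt v y ≤ M p S g v := (t_ATT p hp n S g v).choose_spec.2.2 y hy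

theorem M_nonneg (hp : 2 < p) (S : Finset (Fin n)) (g : U n → ℝ) (v : Fin n → ℝ) :
    0 ≤ M p S g v := by
  have := le_M hp S g v 0 (zero_mem hp S)
  simpa [Hf, dt] using this

theorem t_SQ : T_SQ := by
  intro p hp n S y hy
  have h1 : ∀ i : Fin n, y i ^ 2 ≤ 1 - 2 / p + (2 / p) * |y i| ^ p := by
    intro i
    -- Young: a^2 = (a^p)^(2/p) * 1^(1-2/p)
    have h2 := Real.geom_mean_le_arith_mean2_weighted (w₁ := 2 / p) (w₂ := 1 - 2 / p)
      (p₁ := |y i| ^ p) (p₂ := 1) (by positivity)
      (by rw [sub_nonneg, div_le_one (by linarith)]; linarith)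
      (Real.rpow_nonneg (abs_nonneg _) _) zero_le_one (by ring)
    rw [Real.one_rpow, mul_one, mul_one, ← Real.rpow_mul (abs_nonneg _)] at h2
    have h3 : p * (2 / p) = 2 := by field_simp
    rw [h3] at h2
    have h4 : |y i| ^ (2 : ℝ) = y i ^ 2 := by
      rw [Real.rpow_two, sq_abs]
    rw [h4] at h2
    linarith
  calc ∑ i, y i ^ 2 ≤ ∑ i : Fin n, (1 - 2 / p + (2 / p) * |y i| ^ p) :=
        Finset.sum_le_sum fun i _ => h1 i
    _ = n * (1 - 2 / p) + (2 / p) * ∑ i, |y i| ^ p := by
        rw [Finset.sum_add_distrib, ← Finset.mul_sum]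
        simp
        ring
    _ ≤ n * (1 - 2 / p) + (2 / p) * n := by
        have : 0 ≤ 2 / p := by positivity
        have := mul_le_mul_of_nonneg_left hy.1 this
        linarith
    _ = n := by ring

theorem dt_le (v y : Fin n → ℝ) : |dt v y| ≤ nrm v * Real.sqrt (∑ i, y i ^ 2) := by
  have h := Finset.sum_mul_sq_le_sq_mul_sq Finset.univ v y
  unfold dt nrm nsq
  rw [← Real.sqrt_mul (Finset.sum_nonneg fun i _ => sq_nonneg _)]
  exact Real.abs_le_sqrt h

theorem dt_le' (hp : 2 < p) {S : Finset (Fin n)} (v y : Fin n → ℝ) (hy : y ∈ Kp p S) :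
    |dt v y| ≤ Real.sqrt n * nrm v := by
  refine (dt_le v y).trans ?_
  rw [mul_comm]
  exact mul_le_mul_of_nonneg_right (Real.sqrt_le_sqrt (t_SQ p hp n S y hy)) (nrm_nn v)

/-- coefficient form of `Hf` -/
theorem Hf_eq (g : U n → ℝ) (y : Fin n → ℝ) : Hf g y = ∑ z : U n,
    (if z.1.1 = z.1.2 then Real.sqrt 2 * (y z.1.1 ^ 2) else 2 * (y z.1.1 * y z.1.2)) * g z := by
  classical
  unfold Hf
  rw [← Finset.sum_product']
  have key : ∀ z : U n, ∑ q ∈ (Finset.univ ×ˢ Finset.univ : Finset (Fin n × Fin n)).filter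
      (fun q => pr q.1 q.2 = z), Wm g q.1 q.2 * y q.1 * y q.2 =
      (if z.1.1 = z.1.2 then Real.sqrt 2 * (y z.1.1 ^ 2) else 2 * (y z.1.1 * y z.1.2)) * g z := by
    intro z
    obtain ⟨⟨a, b⟩, hab⟩ := z
    simp only at hab
    by_cases h : a = b
    · subst h
      have e : (Finset.univ ×ˢ Finset.univ : Finset (Fin n × Fin n)).filter
          (fun q => pr q.1 q.2 = (⟨(a, a), hab⟩ : U n)) = {(a, a)} := by
        ext ⟨i, j⟩
        simp only [Finset.mem_filter, Finset.mem_product, Finset.mem_univ, true_and,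
          Finset.mem_singleton, pr, Subtype.mk.injEq, Prod.mk.injEq]
        constructor
        · rintro ⟨h1, h2⟩
          have h3 : i ≤ a := by rw [← h2]; exact le_max_left _ _
          have h4 : a ≤ i := by rw [← h1]; exact min_le_left _ _
          have h5 : j ≤ a := by rw [← h2]; exact le_max_right _ _
          have h6 : a ≤ j := by rw [← h1]; exact min_le_right _ _
          exact ⟨le_antisymm h3 h4, le_antisymm h5 h6⟩
        · rintro ⟨rfl, rfl⟩
          simp
      rw [e, Finset.sum_singleton]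
      simp only [if_true, Wm]
      have : (pr a a : U n) = ⟨(a, a), hab⟩ := by simp [pr]
      rw [this]
      ring
    · have hlt : a < b := lt_of_le_of_ne hab h
      have e : (Finset.univ ×ˢ Finset.univ : Finset (Fin n × Fin n)).filter
          (fun q => pr q.1 q.2 = (⟨(a, b), hab⟩ : U n)) = {(a, b), (b, a)} := by
        ext ⟨i, j⟩
        simp only [Finset.mem_filter, Finset.mem_product, Finset.mem_univ, true_and,
          Finset.mem_singleton, Finset.mem_insert, pr, Subtype.mk.injEq, Prod.mk.injEq]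
        constructor
        · rintro ⟨h1, h2⟩
          rcases le_total i j with hij | hij
          · rw [min_eq_left hij] at h1; rw [max_eq_right hij] at h2
            exact Or.inl ⟨h1, h2⟩
          · rw [min_eq_right hij] at h1; rw [max_eq_left hij] at h2
            exact Or.inr ⟨h2, h1⟩
        · rintro (⟨rfl, rfl⟩ | ⟨rfl, rfl⟩)
          · exact ⟨min_eq_left hab, max_eq_right hab⟩
          · exact ⟨min_eq_right hab, max_eq_left hab⟩
      have hne : (a, b) ≠ (b, a) := by
        intro hh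
        exact h (Prod.mk.inj hh).1
      rw [e, Finset.sum_pair hne]
      simp only [if_neg h, Wm, if_neg (Ne.symm h)]
      have e1 : (pr a b : U n) = ⟨(a, b), hab⟩ := by simp [pr, hab]
      have e2 : (pr b a : U n) = ⟨(a, b), hab⟩ := by rw [pr_comm, e1]
      rw [e1, e2]
      ring
  rw [← Finset.sum_congr rfl fun z _ => key z]
  rw [← Finset.sum_fiberwise_of_maps_to (g := fun q : Fin n × Fin n => pr q.1 q.2)
    (t := Finset.univ) (fun _ _ => Finset.mem_univ _)]

theorem Hf_lip (g g' : U n → ℝ) (y : Fin n → ℝ) :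
    |Hf g y - Hf g' y| ≤ Real.sqrt 2 * (∑ i, y i ^ 2) * nrm (g - g') := by
  classical
  set c : U n → ℝ := fun z =>
    (if z.1.1 = z.1.2 then Real.sqrt 2 * (y z.1.1 ^ 2) else 2 * (y z.1.1 * y z.1.2)) with hc
  have h1 : Hf g y - Hf g' y = ∑ z, c z * (g - g') z := by
    rw [Hf_eq, Hf_eq, ← Finset.sum_sub_distrib]
    refine Finset.sum_congr rfl fun z _ => ?_
    simp only [hc, Pi.sub_apply]
    ring
  have h2 : ∑ z, c z ^ 2 = 2 * (∑ i, y i ^ 2) ^ 2 := by
    have e := Hf_eq (fun z : U n => if z.1.1 = z.1.2 then Real.sqrt 2 * y z.1.1 ^ 2 else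
      2 * (y z.1.1 * y z.1.2)) y
    have e2 : ∑ z, c z ^ 2 = Hf (fun z : U n => if z.1.1 = z.1.2 then Real.sqrt 2 * y z.1.1 ^ 2 else
      2 * (y z.1.1 * y z.1.2)) y := by
      rw [e]
      refine Finset.sum_congr rfl fun z _ => ?_
      simp only [hc]; ring
    rw [e2]
    unfold Hf
    have h3 : ∀ i j : Fin n, Wm (fun z : U n => if z.1.1 = z.1.2 then Real.sqrt 2 * y z.1.1 ^ 2 else
      2 * (y z.1.1 * y z.1.2)) i j = 2 * (y i * y j) := by
      intro i j
      unfold Wm pr
      by_cases h : i = j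
      · subst h
        simp only [min_self, max_self, if_true]
        have := Real.mul_self_sqrt (show (0 : ℝ) ≤ 2 by norm_num)
        linear_combination (y i ^ 2) * this
      · have h' : min i j ≠ max i j := by
          intro hh
          exact h (inf_eq_sup.1 hh)
        simp only [if_neg h, if_neg h', one_mul]
        rcases le_total i j with hij | hij
        · rw [min_eq_left hij, max_eq_right hij]
        · rw [min_eq_right hij, max_eq_left hij]; ring
    simp only [h3]
    have h4 : ∀ i j : Fin n, 2 * (y i * y j) * y i * y j = 2 * (y i ^ 2 * y j ^ 2) := by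
      intro i j; ring
    simp only [h4]
    simp only [← Finset.mul_sum]
    rw [← Finset.sum_mul, sq]
  have h5 := Finset.sum_mul_sq_le_sq_mul_sq Finset.univ c (g - g')
  rw [h2, ← h1] at h5
  have h6 : |Hf g y - Hf g' y| ≤ Real.sqrt (2 * (∑ i, y i ^ 2) ^ 2 * ∑ z, (g - g') z ^ 2) :=
    Real.abs_le_sqrt h5
  refine h6.trans_eq ?_
  rw [Real.sqrt_mul (by positivity), Real.sqrt_mul (by norm_num),
    Real.sqrt_sq (Finset.sum_nonneg fun i _ => sq_nonneg _)]
  rfl

theorem t_LIP : T_LIP := by
  have one : ∀ (p : ℝ), 2 < p → ∀ (n : ℕ) (S : Finset (Fin n)) (g g' : U n → ℝ)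
      (v v' : Fin n → ℝ), M p S g v - M p S g' v' ≤ 2 * n * nrm (g - g') +
        2 * Real.sqrt n * nrm (v - v') := by
    intro p hp n S g g' v v'
    obtain ⟨y, hy, hM, -⟩ := t_ATT p hp n S g v
    have h1 := le_M hp S g' v' y hy
    have h2 := (abs_le.1 (Hf_lip g g' y)).2
    have h3 : dt v y - dt v' y = dt (v - v') y := by
      unfold dt
      rw [← Finset.sum_sub_distrib]
      exact Finset.sum_congr rfl fun i _ => by simp only [Pi.sub_apply]; ring
    have h4 := (abs_le.1 (dt_le' hp (v - v') y hy)).2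
    have h5 : Real.sqrt 2 * (∑ i, y i ^ 2) * nrm (g - g') ≤ 2 * n * nrm (g - g') := by
      apply mul_le_mul_of_nonneg_right _ (nrm_nn _)
      have h6 := t_SQ p hp n S y hy
      have h7 : Real.sqrt 2 ≤ 2 := by
        rw [Real.sqrt_le_left (by norm_num)]; norm_num
      exact mul_le_mul h7 h6 (Finset.sum_nonneg fun i _ => sq_nonneg _) (by norm_num)
    rw [hM]
    linarith
  intro p hp n S g g' v v'
  rw [abs_le]
  constructor
  · have := one p hp n S g' g v' v
    have e1 : nrm (g' - g) = nrm (g - g') := by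
      unfold nrm nsq; congr 1
      exact Finset.sum_congr rfl fun i _ => by simp only [Pi.sub_apply]; ring
    have e2 : nrm (v' - v) = nrm (v - v') := by
      unfold nrm nsq; congr 1
      exact Finset.sum_congr rfl fun i _ => by simp only [Pi.sub_apply]; ring
    rw [e1, e2] at this
    linarith
  · exact one p hp n S g g' v v'

end

end Pool.Agent.KS6_54.LPG.N573.LPG
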