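import Mathlib

set_option autoImplicit false

/-!
# Discrepancy of sparse matrices: definitions and statements of the tasks

Every task is a proposition `St_X`; other tasks enter as hypotheses.
-/

open MeasureTheory ProbabilityTheory

namespace Pool.Agent.KS6_54.LPG.H320R2.LD

noncomputable section

/-! ## Definitions -/

/-- squared Euclidean norm -/
def nsq {V : Type} [Fintype V] (x : V → ℝ) : ℝ := ∑ v, x v ^ 2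

/-- Euclidean norm -/
def nrm {V : Type} [Fintype V] (x : V → ℝ) : ℝ := Real.sqrt (nsq x)

/-- standard Gaussian measure on `V → ℝ` -/
def gam (V : Type) [Fintype V] : Measure (V → ℝ) := Measure.pi fun _ => gaussianReal 0 1

instance {V : Type} [Fintype V] : IsProbabilityMeasure (gam V) := by
  unfold gam; infer_instance

/-- `L`-Lipschitz for the Euclidean norm -/
def Lip {V : Type} [Fintype V] (L : ℝ) (f : (V → ℝ) → ℝ) : Prop :=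
  ∀ x y : V → ℝ, |f x - f y| ≤ L * nrm (x - y)

/-- `g` on `S`, `g'` off `S` -/
def mix {V : Type} [DecidableEq V] (S : Finset V) (g g' : V → ℝ) : V → ℝ :=
  fun v => if v ∈ S then g v else g' v

/-- distance to the barrier `K+1`, cut off at `w0` -/
def wf (K w0 x : ℝ) : ℝ := max (K + 1 - |x|) w0

/-- stiffness -/
def hf (K w0 x : ℝ) : ℝ := ((wf K w0 x)⁻¹) ^ 4

/-- force -/
def pf (K w0 x : ℝ) : ℝ := ∫ u in (0:ℝ)..x, hf K w0 u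

/-- `∫ sqrt (stiffness)` -/
def th (K w0 x : ℝ) : ℝ := ∫ u in (0:ℝ)..x, ((wf K w0 u)⁻¹) ^ 2

section
variable {V W : Type} [Fintype V] [Fintype W]

/-- row sums -/
def eta (b : W → V → ℝ) (z : V → ℝ) (R : W) : ℝ := ∑ v, b R v * z v

/-- `z` solves the variational inequality with input `y`: minimiser over the cube `[-1,1]^V` of
`|z-y|^2/2 + ∑_R P (eta_R z)` where `P' = p`. -/
def VI (b : W → V → ℝ) (p : ℝ → ℝ) (y z : V → ℝ) : Prop :=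
  (∀ v, |z v| ≤ 1) ∧
    ∀ v, ∀ c : ℝ, |c| ≤ 1 → 0 ≤ (z v - y v + ∑ R, b R v * p (eta b z R)) * (c - z v)

/-- row mass -/
def Phi (A : W → V → ℝ) (a : V → ℝ) (R : W) : ℝ := ∑ v, A R v ^ 2 * Real.sqrt (1 - |a v|)

open Classical in
/-- admissible matrices -/
def Adm (t : ℝ) (A : W → V → ℝ) : Prop :=
  (∀ R v, A R v ^ 2 * t ≤ 1) ∧ (∀ R, ∑ v, A R v ^ 2 ≤ 1) ∧ (∀ v, ∑ R, A R v ^ 2 ≤ 1) ∧
    (∀ R, ((Finset.univ.filter (fun v => A R v ≠ 0)).card : ℝ) ≤ t ^ (3/2 : ℝ)) ∧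
    (∀ v, ((Finset.univ.filter (fun R => A R v ≠ 0)).card : ℝ) ≤ t ^ (3/2 : ℝ))

/-- `l` is a list of rows leading from `v` to `u` -/
def chainTo (I : W → V → Prop) : V → List W → V → Prop
  | v, [], u => v = u
  | v, R :: l, u => I R v ∧ ∃ w, I R w ∧ chainTo I w l u

open Classical in
/-- lists of `n` rows starting at `v`, consecutive ones meet -/
def chains (I : W → V → Prop) : ℕ → V → Finset (List W)
  | 0, _ => {[]}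
  | n + 1, v => (Finset.univ.filter (fun R => I R v)).biUnion fun R =>
      (Finset.univ.filter (fun w => I R w)).biUnion fun w => (chains I n w).image (List.cons R)

open Classical in
/-- ball of radius `n` -/
def ball (I : W → V → Prop) (n : ℕ) (v : V) : Finset V :=
  Finset.univ.filter fun u => ∃ l : List W, l.length ≤ n ∧ chainTo I v l u

open Classical in
/-- neighbourhood of a row -/
def rball (I : W → V → Prop) (n : ℕ) (R : W) : Finset V :=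
  Finset.univ.filter fun u => ∃ v, I R v ∧ u ∈ ball I n v

end

/-- the majorant of `sqrt (1-x)` -/
def Gp (x : ℝ) : ℝ := min (Real.sqrt 2) (1/40 + 10 * (1 - x))

/-! ## Tasks -/

/-- MGF: Gaussian concentration, exponential moments (from Prékopa–Leindler). -/
def St_MGF : Prop := ∀ (V : Type) [Fintype V] (f : (V → ℝ) → ℝ) (L : ℝ), 0 < L → Lip L f →
  Integrable f (gam V) ∧ (∀ lam : ℝ, Integrable (fun x => Real.exp (lam * f x)) (gam V)) ∧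
    ∀ lam : ℝ, ∫ x, Real.exp (lam * (f x - ∫ y, f y ∂(gam V))) ∂(gam V)
      ≤ Real.exp (lam ^ 2 * L ^ 2)

/-- CONC: Chernoff bound. -/
def St_CONC : Prop := ∀ (V : Type) [Fintype V] (f : (V → ℝ) → ℝ) (L : ℝ), 0 < L → Lip L f →
  ∀ u : ℝ, 0 ≤ u → (gam V).real {x | (∫ y, f y ∂(gam V)) + u ≤ f x}
    ≤ Real.exp (-u ^ 2 / (4 * L ^ 2))

/-- MOM: moments of odd Lipschitz functions. -/
def St_MOM : Prop := ∃ C8 : ℝ, 0 < C8 ∧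
  ∀ (V : Type) [Fintype V] (f : (V → ℝ) → ℝ) (L : ℝ), 0 < L → Lip L f →
  (∀ x, f (-x) = - f x) →
    (∫ x, f x ∂(gam V) = 0) ∧ Integrable (fun x => f x ^ 8) (gam V) ∧
    (∫ x, f x ^ 8 ∂(gam V) ≤ C8 * L ^ 8) ∧ Integrable (fun x => f x ^ 2) (gam V) ∧
    (∫ x, f x ^ 2 ∂(gam V) ≤ 16 * L ^ 2)

/-- POT1: elementary properties of the potential. -/
def St_POT1 : Prop := ∀ K w0 : ℝ, 1 ≤ K → 0 < w0 → w0 ≤ 1 →
  Continuous (pf K w0) ∧ Continuous (th K w0) ∧ Monotone (pf K w0) ∧ Monotone (th K w0) ∧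
  (∀ x, pf K w0 (-x) = - pf K w0 x) ∧ (∀ x, th K w0 (-x) = - th K w0 x) ∧
  (∀ x y, x ≤ y → pf K w0 y - pf K w0 x ≤ max (hf K w0 x) (hf K w0 y) * (y - x)) ∧
  (∀ x y, (th K w0 y - th K w0 x) ^ 2 ≤ (y - x) * (pf K w0 y - pf K w0 x))

/-- POT2: quantitative properties of the potential. -/
def St_POT2 : Prop := ∀ K w0 : ℝ, 1 ≤ K → 0 < w0 → w0 ≤ 1 →
  (∀ x, K + 2 ≤ |x| → (w0⁻¹) ^ 2 ≤ |th K w0 x|) ∧
  (∀ x q, 1 ≤ q → w0 ≤ q⁻¹ → wf K w0 x ≤ q⁻¹ → q - 1 ≤ |th K w0 x|) ∧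
  (∀ x y, |x - y| ≤ w0 / 2 → hf K w0 x ≤ 16 * hf K w0 y) ∧
  (∀ x, hf K w0 x ≤ 16 * (K⁻¹) ^ 4 * (1 + x ^ 8 + (1 + |th K w0 x|) ^ 8))

/-- EX: existence for the variational inequality. -/
def St_EX : Prop := ∀ (V W : Type) [Fintype V] [Fintype W] (b : W → V → ℝ) (p : ℝ → ℝ),
  Continuous p → Monotone p → ∀ y : V → ℝ, ∃ z, VI b p y z

/-- TWO: two inputs. -/
def St_TWO : Prop := ∀ (V W : Type) [Fintype V] [Fintype W] (b : W → V → ℝ) (p : ℝ → ℝ),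
  Monotone p → ∀ y y' z z' : V → ℝ, VI b p y z → VI b p y' z' →
    (∀ v, (z' v - z v) * ((z' v - z v) - (y' v - y v)
      + ∑ R, b R v * (p (eta b z' R) - p (eta b z R))) ≤ 0) ∧
    (nsq (z' - z) + ∑ R, (p (eta b z' R) - p (eta b z R)) * (eta b z' R - eta b z R)
      ≤ ∑ v, (y' v - y v) * (z' v - z v)) ∧
    (nrm (z' - z) ≤ nrm (y' - y)) ∧
    (∑ R, (p (eta b z' R) - p (eta b z R)) * (eta b z' R - eta b z R) ≤ nsq (y' - y) / 4)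

/-- SOL: consequences for the solution map: it is odd, Lipschitz, and so are the row sums. -/
def St_SOL : Prop := ∀ (V W : Type) [Fintype V] [Fintype W] (b : W → V → ℝ) (K w0 : ℝ)
  (z : (V → ℝ) → (V → ℝ)), 1 ≤ K → 0 < w0 → w0 ≤ 1 → (∀ y, VI b (pf K w0) y (z y)) →
    (∀ y, z (-y) = - z y) ∧
    (∀ y y', nrm (z y' - z y) ≤ nrm (y' - y)) ∧
    (∀ v y y', |z y' v - z y v| ≤ nrm (y' - y)) ∧
    (∀ R, (∑ v, b R v ^ 2 ≤ 1) → ∀ y y', |eta b (z y') R - eta b (z y) R| ≤ nrm (y' - y)) ∧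
    (∀ N : Finset W, ∀ y y',
      |Real.sqrt (∑ R ∈ N, th K w0 (eta b (z y') R) ^ 2)
        - Real.sqrt (∑ R ∈ N, th K w0 (eta b (z y) R) ^ 2)| ≤ nrm (y' - y) / 2) ∧
    (∀ R y y', |th K w0 (eta b (z y') R) - th K w0 (eta b (z y) R)| ≤ nrm (y' - y) / 2)

open Classical in
/-- SHIFT: response to a shift of one coordinate. -/
def St_SHIFT : Prop := ∀ (V W : Type) [Fintype V] [Fintype W] (b : W → V → ℝ) (K w0 : ℝ),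
  1 ≤ K → 0 < w0 → w0 ≤ 1 → (∀ R, ∑ v, b R v ^ 2 ≤ 1) →
  ∀ (δ : ℝ), 0 < δ → δ ≤ w0 / 2 → ∀ (v : V) (y z z' : V → ℝ), VI b (pf K w0) y z →
    VI b (pf K w0) (fun u => y u + if u = v then δ else 0) z' →
    δ * (1 - |z v| - 16 * (∑ R, b R v ^ 2 * hf K w0 (eta b z R)) - δ) ≤ z' v - z v

/-- CT: weighted (Combes–Thomas) estimate. -/
def St_CT : Prop := ∀ (V W : Type) [Fintype V] [Fintype W] (b : W → V → ℝ) (K w0 : ℝ),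
  1 ≤ K → 0 < w0 → w0 ≤ 1 → ∀ (y y' z z' : V → ℝ), VI b (pf K w0) y z → VI b (pf K w0) y' z' →
  ∀ (I : W → V → Prop), (∀ R v, b R v ≠ 0 → I R v) →
  ∀ (hot : W → Prop) (d : V → ℕ) (α Q N1 : ℝ), 0 < α → α ≤ 1 → 0 ≤ Q → 0 ≤ N1 →
    (∀ x : V → ℝ, ∑ R, (∑ v, |b R v| * |x v|) ^ 2 ≤ N1 * nsq x) →
    8 * α ^ 2 * Q * N1 ≤ 1 →
    (∀ R, ¬ hot R → hf K w0 (eta b z R) ≤ Q ∧ hf K w0 (eta b z' R) ≤ Q) →
    (∀ R u w, I R u → I R w → d u ≤ d w + 1) →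
    (∀ R u w, hot R → I R u → I R w → d u = d w) →
    ∀ (v0 : V) (k : ℕ), d v0 = 0 → (∀ u, d u < k → y' u = y u) →
      |z' v0 - z v0| ≤ 2 * Real.exp (-(α * k)) * nrm (y' - y)

open Classical in
/-- OP: Schur test. -/
def St_OP : Prop := ∀ (V W : Type) [Fintype V] [Fintype W] (b : W → V → ℝ) (D c : ℝ),
  0 ≤ D → 0 ≤ c →
  (∀ R, ((Finset.univ.filter (fun v => b R v ≠ 0)).card : ℝ) ≤ D) →
  (∀ v, ((Finset.univ.filter (fun R => b R v ≠ 0)).card : ℝ) ≤ D) →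
  (∀ R, ∑ v, b R v ^ 2 ≤ 1) → (∀ v, ∑ R, b R v ^ 2 ≤ c) →
  ∀ x : V → ℝ, ∑ R, (∑ v, |b R v| * |x v|) ^ 2 ≤ (D * Real.sqrt c) * nsq x

/-- MIX: mixing two independent samples. -/
def St_MIX : Prop := ∀ (V : Type) [Fintype V] [DecidableEq V] (ν : V → Measure ℝ)
  [∀ v, IsProbabilityMeasure (ν v)] (S : Finset V),
  MeasurePreserving (fun p : (V → ℝ) × (V → ℝ) => mix S p.1 p.2)
    ((Measure.pi ν).prod (Measure.pi ν)) (Measure.pi ν)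

open Classical in
/-- LLL: symmetric local lemma on a product space. -/
def St_LLL : Prop := ∀ (V J : Type) [Fintype V] [Fintype J] (ν : V → Measure ℝ)
  [∀ v, IsProbabilityMeasure (ν v)] (E : J → Set (V → ℝ)) (S : J → Finset V),
  (∀ i, MeasurableSet (E i)) →
  (∀ i, ∀ x y : V → ℝ, (∀ v ∈ S i, x v = y v) → (x ∈ E i → y ∈ E i)) →
  ∀ (p : ℝ) (N : ℕ), 0 ≤ p → 1 ≤ N → (∀ i, (Measure.pi ν).real (E i) ≤ p) →
    (∀ i, (Finset.univ.filter (fun j => ¬ Disjoint (S i) (S j))).card ≤ N) →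
    4 * p * N ≤ 1 → ∃ x, ∀ i, x ∉ E i

/-- COND: local approximation by conditional averages. -/
def St_COND : Prop := ∀ (V : Type) [Fintype V] [DecidableEq V] (f : (V → ℝ) → ℝ)
  (G : Set (V → ℝ)) (S : Finset V) (L ε q : ℝ), Continuous f → (∀ x, |f x| ≤ 1) →
  MeasurableSet G → 0 < L → 0 < ε → 0 < q → q ≤ 1 → (gam V).real Gᶜ ≤ q ^ 2 →
  (∀ x ∈ G, ∀ y ∈ G, (∀ v ∈ S, x v = y v) → |f x - f y| ≤ L * nrm (x - y)) →
  (gam V).real {x | ε + 2 * q < |(∫ y, f (mix S x y) ∂(gam V)) - f x|}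
    ≤ 2 * q + 2 * Real.exp (-ε ^ 2 / (4 * L ^ 2))

open Classical in
/-- CH: number of chains. -/
def St_CH : Prop := ∀ (V W : Type) [Fintype V] [Fintype W] (I : W → V → Prop) (D : ℕ),
  (∀ R, (Finset.univ.filter (fun v => I R v)).card ≤ D) →
  (∀ v, (Finset.univ.filter (fun R => I R v)).card ≤ D) →
  ∀ (n : ℕ) (v : V), (chains I n v).card ≤ (D ^ 2) ^ n

open Classical in
/-- DEP: number of dependent rows. -/
def St_DEP : Prop := ∀ (V W : Type) [Fintype V] [Fintype W] (I : W → V → Prop) (D : ℕ),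
  (∀ R, (Finset.univ.filter (fun v => I R v)).card ≤ D) →
  (∀ v, (Finset.univ.filter (fun R => I R v)).card ≤ D) →
  ∀ (n : ℕ) (R : W), (Finset.univ.filter (fun R' => ¬ Disjoint (rball I n R) (rball I n R'))).card
    ≤ (D ^ 2 + 1) ^ (2 * n + 1)

open Classical in
/-- PATH: a distance function for which hot rows have length zero. -/
def St_PATH : Prop := ∀ (V W : Type) [Fintype V] [Fintype W] (I : W → V → Prop)
  (hot : W → Prop) (v0 : V) (m : ℕ),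
  (∀ l ∈ chains I (4 * m) v0, l.Nodup → l.countP (fun R => decide (hot R)) ≤ 2 * m) →
  ∃ d : V → ℕ, d v0 = 0 ∧ (∀ R u w, I R u → I R w → d u ≤ d w + 1) ∧
    (∀ R u w, hot R → I R u → I R w → d u = d w) ∧
    (∀ u, u ∉ ball I (4 * m) v0 → 2 * m ≤ d u)

/-- HOTP: many given rows are rarely hot together. -/
def St_HOTP : Prop := ∀ (V W : Type) [Fintype V] [Fintype W] (b : W → V → ℝ) (K w0 M q : ℝ)
  (z : (V → ℝ) → (V → ℝ)), 1 ≤ K → 0 < w0 → w0 ≤ 1 → (∀ y, VI b (pf K w0) y (z y)) →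
  0 < M → 2 * (1 + 2 * M) ≤ q → w0 ≤ q⁻¹ → ∀ N : Finset W,
    (gam V).real {g | ∀ R ∈ N, wf K w0 (eta b (z (M • g)) R) ≤ q⁻¹}
      ≤ Real.exp (-(N.card : ℝ) * q ^ 2 / (4 * M ^ 2))

/-- FAR: a row is very rarely beyond the barrier. -/
def St_FAR : Prop := ∀ (V W : Type) [Fintype V] [Fintype W] (b : W → V → ℝ) (K w0 M : ℝ)
  (z : (V → ℝ) → (V → ℝ)), 1 ≤ K → 0 < w0 → w0 ≤ 1 → (∀ y, VI b (pf K w0) y (z y)) →
  0 < M → ∀ R, (gam V).real {g | K + 2 ≤ |eta b (z (M • g)) R|}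
      ≤ 2 * Real.exp (-((w0⁻¹) ^ 4 / M ^ 2))

/-- EH: the mean stiffness is small. -/
def St_EH : Prop := ∀ M : ℝ, 0 < M → ∃ C : ℝ, 0 < C ∧
  ∀ (V W : Type) [Fintype V] [Fintype W] (b : W → V → ℝ) (K w0 : ℝ)
  (z : (V → ℝ) → (V → ℝ)), 1 ≤ K → 0 < w0 → w0 ≤ 1 → (∀ y, VI b (pf K w0) y (z y)) →
  ∀ R, (∑ v, b R v ^ 2 ≤ 1) →
    Integrable (fun g => hf K w0 (eta b (z (M • g)) R)) (gam V) ∧
    ∫ g, hf K w0 (eta b (z (M • g)) R) ∂(gam V) ≤ C * (K⁻¹) ^ 4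

open Classical in
/-- SH: shift of one Gaussian coordinate. -/
def St_SH : Prop := ∀ (V : Type) [Fintype V] (f : (V → ℝ) → ℝ) (v : V) (c : ℝ), 0 ≤ c →
  Continuous f → (∀ x, |f x| ≤ 1) →
  (∀ x : V → ℝ, ∀ a : ℝ, 0 ≤ a → f x ≤ f (fun u => x u + if u = v then a else 0)) →
  (∫ x, (f (fun u => x u + if u = v then c else 0) - f x) ∂(gam V)) ≤ c

/-- MEAN: the expected free mass. -/
def St_MEAN : Prop := ∀ (V W : Type) [Fintype V] [Fintype W] (b : W → V → ℝ) (K w0 M δ : ℝ)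
  (z : (V → ℝ) → (V → ℝ)), 1 ≤ K → 0 < w0 → w0 ≤ 1 → (∀ R, ∑ v, b R v ^ 2 ≤ 1) →
  (∀ y, VI b (pf K w0) y (z y)) → 0 < M → 0 < δ → δ ≤ w0 / 2 →
  (∀ R, Integrable (fun g => hf K w0 (eta b (z (M • g)) R)) (gam V)) →
  ∀ v, ∫ g, (1 - |z (M • g) v|) ∂(gam V)
    ≤ 1 / M + 16 * (∑ R, b R v ^ 2 * ∫ g, hf K w0 (eta b (z (M • g)) R) ∂(gam V)) + δ

/-- GEX: progress at one vertex; `σ = ± 1`. -/
def St_GEX : Prop := ∀ (V : Type) [Fintype V] (f : (V → ℝ) → ℝ), Continuous f →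
  (∀ x, |f x| ≤ 1) → (∀ x, f (-x) = - f x) → (∫ x, (1 - |f x|) ∂(gam V) ≤ 6/1000) →
  ∀ σ : ℝ, (σ = 1 ∨ σ = -1) → ∫ x, Gp (σ * f x) ∂(gam V) ≤ 3/4

/-- LOC: the solution is well approximated by local functions. -/
def St_LOC : Prop := ∀ (V W : Type) [Fintype V] [Fintype W] [DecidableEq V]
  (b : W → V → ℝ) (K w0 M α q qb ε N1 : ℝ) (D m : ℕ)
  (z : (V → ℝ) → (V → ℝ)) (I : W → V → Prop), 1 ≤ K → 0 < w0 → w0 ≤ 1 →
  (∀ y, VI b (pf K w0) y (z y)) → (∀ R v, b R v ≠ 0 → I R v) →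
  (∀ R, {v | I R v}.ncard ≤ D) → (∀ v, {R | I R v}.ncard ≤ D) →
  0 < M → 0 < α → α ≤ 1 → 2 * (1 + 2 * M) ≤ q → w0 ≤ q⁻¹ → 0 ≤ N1 →
  (∀ x : V → ℝ, ∑ R, (∑ v, |b R v| * |x v|) ^ 2 ≤ N1 * nsq x) →
  8 * α ^ 2 * q ^ 4 * N1 ≤ 1 → 0 < qb → qb ≤ 1 → 0 < ε → 1 ≤ m → 
  (2 * (D : ℝ) ^ 2) ^ (4 * m) * Real.exp (-(m : ℝ) * q ^ 2 / (4 * M ^ 2)) ≤ qb ^ 2 →
  ∀ v0, (gam V).real {g | ε + 2 * qb <
      |(∫ g', z (M • mix (ball I (4 * m) v0) g g') v0 ∂(gam V)) - z (M • g) v0|}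
    ≤ 2 * qb + 2 * Real.exp (-(ε ^ 2 * Real.exp (4 * α * m) / (16 * M ^ 2)))

/-- PHASE: one phase. -/
def St_PHASE : Prop := ∃ C t0 : ℝ, 0 < C ∧ 2 ≤ t0 ∧ ∀ (t s : ℝ), t0 ≤ t →
  t ^ (-(1/100) : ℝ) ≤ s → s ≤ 1 → ∀ (V W : Type) [Fintype V] [Fintype W]
  (A : W → V → ℝ) (a : V → ℝ), Adm t A → (∀ v, |a v| ≤ 1) → (∀ R, Phi A a R ≤ s) →
  ∃ a' : V → ℝ, (∀ v, |a' v| ≤ 1) ∧ (∀ R, Phi A a' R ≤ 4/5 * s) ∧
    ∀ R, |∑ v, A R v * (a' v - a v)| ≤ C * s ^ (1/4 : ℝ)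

/-- ITER: iteration of the phases. -/
def St_ITER : Prop := ∃ C t0 : ℝ, 0 < C ∧ 2 ≤ t0 ∧ ∀ (t : ℝ), t0 ≤ t →
  ∀ (V W : Type) [Fintype V] [Fintype W] (A : W → V → ℝ), Adm t A →
  ∃ a : V → ℝ, (∀ v, |a v| ≤ 1) ∧ (∀ R, Phi A a R ≤ 1 / Real.log t) ∧
    ∀ R, |∑ v, A R v * a v| ≤ C

/-- ROUND: the final rounding. -/
def St_ROUND : Prop := ∃ t0 : ℝ, 2 ≤ t0 ∧ ∀ (t : ℝ), t0 ≤ t →
  ∀ (V W : Type) [Fintype V] [Fintype W] (A : W → V → ℝ) (a : V → ℝ), Adm t A →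
  (∀ v, |a v| ≤ 1) → (∀ R, ∑ v, A R v ^ 2 * (1 - |a v|) ≤ 1 / Real.log t) →
  ∃ x : V → ℝ, (∀ v, x v = 1 ∨ x v = -1) ∧ ∀ R, |∑ v, A R v * (x v - a v)| ≤ 10

/-- MAIN: discrepancy of admissible matrices. -/
def St_MAIN : Prop := ∃ C : ℝ, 0 < C ∧ ∀ (t : ℝ), 1 ≤ t →
  ∀ (V W : Type) [Fintype V] [Fintype W] (A : W → V → ℝ), Adm t A →
  ∃ x : V → ℝ, (∀ v, x v = 1 ∨ x v = -1) ∧ ∀ R, |∑ v, A R v * x v| ≤ C

/-- PARAM: the numerical inequalities needed in PHASE hold for all large `t`. -/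
def St_PARAM : Prop := ∀ (M c : ℝ), 0 < M → 0 < c → ∃ t0 : ℝ, 2 ≤ t0 ∧ ∀ t : ℝ, t0 ≤ t →
  ∀ s : ℝ, t ^ (-(1/100) : ℝ) ≤ s → s ≤ 1 →
  ∀ (D m : ℕ), D = ⌊t ^ (3/2 : ℝ)⌋₊ → m = ⌈5 * t ^ (9/10 : ℝ) * Real.log t⌉₊ →
    1000 ≤ t ∧ 1 ≤ m ∧ t ^ (-(1/4) : ℝ) ≤ 1/1000 ∧
    2 * (1 + 2 * M) ≤ t ^ (1/16 : ℝ) ∧ t ^ (-(1/4) : ℝ) ≤ (t ^ (1/16 : ℝ))⁻¹ ∧
    t ^ (-(9/10) : ℝ) ≤ 1 ∧
    8 * (t ^ (-(9/10) : ℝ)) ^ 2 * (t ^ (1/16 : ℝ)) ^ 4 * ((D : ℝ) * Real.sqrt (1 / s)) ≤ 1 ∧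
    (2 * (D : ℝ) ^ 2) ^ (4 * m) * Real.exp (-(m : ℝ) * (t ^ (1/16 : ℝ)) ^ 2 / (4 * M ^ 2))
      ≤ (Real.exp (-t)) ^ 2 ∧
    1 / (2 * t) + 2 * Real.exp (-t) ≤ 1 / t ∧
    Real.sqrt D / t ≤ 1 ∧
    4 * (Real.exp (-(c * (s * t))) + 2 * Real.exp (-(((t ^ (-(1/4) : ℝ))⁻¹) ^ 4 / M ^ 2))
      + D * (2 * Real.exp (-t) + 2 * Real.exp (-((1 / (2 * t)) ^ 2 *
          Real.exp (4 * t ^ (-(9/10) : ℝ) * m) / (16 * M ^ 2)))))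
      * (((D ^ 2 + 1) ^ (2 * (4 * m) + 1) : ℕ) : ℝ) ≤ 1

end

end Pool.Agent.KS6_54.LPG.H320R2.LD
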