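import Pool.Agent.KS6_54.LPG.Stm

/-!
# Project LPG (helper573): lower bound for the maximum over the sign vectors (helper711)
-/

set_option autoImplicit false

open MeasureTheory ProbabilityTheory Filter Topology

namespace Pool.Agent.KS6_54.LPG.N711.LPG.ELO

open Pool.Agent.KS6_54.LPG.H320R2.LD Pool.Agent.KS6_54.LPG.N573.LPG

theorem law_sum {Ω : Type} [MeasurableSpace Ω] (P : Measure Ω) [IsProbabilityMeasure P]
    {ι : Type} [DecidableEq ι] (X : ι → Ω → ℝ) (hX : iIndepFun X P) (hm : ∀ i, Measurable (X i))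
    (hl : ∀ i, P.map (X i) = gaussianReal 0 1) (s : Finset ι) :
    P.map (∑ i ∈ s, X i) = gaussianReal 0 s.card := by
  induction s using Finset.induction_on with
  | empty =>
    rw [Finset.sum_empty, Finset.card_empty, Nat.cast_zero, gaussianReal_zero_var]
    have : (0 : Ω → ℝ) = fun _ => (0 : ℝ) := rfl
    rw [this, Measure.map_const, measure_univ, one_smul]
  | insert a s ha ih =>
    have h := gaussianReal_add_gaussianReal_of_indepFun
      (hX.indepFun_finsetSum_of_notMem hm ha).symm (hl a) ih
    rw [Finset.sum_insert ha, Finset.card_insert_of_notMem ha, h]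
    congr 1
    · ring
    · push_cast; ring

/-- the first absolute moment of the standard Gaussian -/
noncomputable def c0 : ℝ := ∫ x, |x| ∂(gaussianReal 0 1)

theorem int_abs (m : NNReal) : Integrable (fun x : ℝ => |x|) (gaussianReal 0 m) := by
  have h := (memLp_id_gaussianReal' (μ := 0) (v := m) 1 (by norm_num)).integrable (le_refl _)
  exact h.norm

theorem c0_pos : 0 < c0 := by
  unfold c0
  rw [integral_pos_iff_support_of_nonneg (fun x => abs_nonneg x) (int_abs 1)]
  have h : Function.support (fun x : ℝ => |x|) = {0}ᶜ := by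
    ext x
    simp
  have : NullSingletonClass (gaussianReal 0 1) := nullSingletonClass_gaussianReal (by norm_num)
  rw [h, measure_compl (measurableSet_singleton _) (measure_ne_top _ _), measure_singleton,
    measure_univ, tsub_zero]
  exact one_pos

theorem abs_mom (m : ℕ) : ∫ x, |x| ∂(gaussianReal 0 m) = Real.sqrt m * c0 := by
  have h := gaussianReal_map_const_mul (μ := 0) (v := 1) (Real.sqrt m)
  have h1 : gaussianReal (Real.sqrt m * 0) (NNReal.mk (Real.sqrt m ^ 2) (sq_nonneg _) * 1) =
      gaussianReal 0 m := by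
    congr 1
    · ring
    · rw [mul_one]
      ext
      simp
  rw [h1] at h
  rw [← h, integral_map (by fun_prop) (by fun_prop)]
  unfold c0
  rw [← integral_const_mul]
  refine integral_congr_ae (Eventually.of_forall fun x => ?_)
  simp only [abs_mul, abs_of_nonneg (Real.sqrt_nonneg (m : ℝ))]

section

variable {n : ℕ}

/-- the first half -/
def J (n : ℕ) : Finset (Fin n) := Finset.univ.filter fun i => i.val < n / 2

theorem mem_J {i : Fin n} : i ∈ J n ↔ i.val < n / 2 := by simp [J]

theorem card_J : (J n).card = n / 2 := by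
  unfold J
  rw [Fin.card_filter_val_lt]
  omega

/-- the cross sums -/
def X (j : Fin n) (g : U n → ℝ) : ℝ := ∑ i ∈ J n, g (pr i j)

theorem pr_inj (j : Fin n) : Function.Injective fun i : Fin n => pr i j := by
  intro a b h
  have h1 := congrArg (fun z : U n => z.1.1.val) h
  have h2 := congrArg (fun z : U n => z.1.2.val) h
  simp only [pr] at h1 h2
  ext
  rcases le_total a j with ha | ha <;> rcases le_total b j with hb | hb
  · rw [min_eq_left ha, min_eq_left hb] at h1
    exact h1
  · rw [min_eq_left ha, min_eq_right hb] at h1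
    rw [max_eq_right ha, max_eq_left hb] at h2
    omega
  · rw [min_eq_right ha, min_eq_left hb] at h1
    rw [max_eq_left ha, max_eq_right hb] at h2
    omega
  · rw [max_eq_left ha, max_eq_left hb] at h2
    exact h2

theorem pr_comm (i j : Fin n) : pr i j = pr j i := by
  unfold pr
  simp only [min_comm i j, max_comm i j]

theorem law_X (j : Fin n) : (gam (U n)).map (X j) = gaussianReal 0 (n / 2 : ℕ) := by
  have h1 : iIndepFun (fun (z : U n) (g : U n → ℝ) => g z) (gam (U n)) := by
    unfold gam
    exact iIndepFun_pi (X := fun _ x => x) fun _ => aemeasurable_id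
  have h2 := h1.precomp (pr_inj j)
  have h3 := law_sum (gam (U n)) (fun (i : Fin n) (g : U n → ℝ) => g (pr i j)) h2
    (fun i => measurable_pi_apply _) (fun i => by
      unfold gam
      exact (measurePreserving_eval _ _).map_eq) (J n)
  rw [card_J] at h3
  have h4 : X j = ∑ i ∈ J n, fun g : U n → ℝ => g (pr i j) := by
    ext g
    simp [X]
  rw [h4]
  exact h3

theorem meas_X (j : Fin n) : Measurable (X j) := by
  unfold X
  fun_prop

theorem int_X (j : Fin n) : Integrable (fun g => |X j g|) (gam (U n)) := by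
  have h := int_abs ((n / 2 : ℕ) : NNReal)
  rw [← law_X j] at h
  exact (integrable_map_measure (by fun_prop) (meas_X j).aemeasurable).1 h

theorem mom_X (j : Fin n) : ∫ g, |X j g| ∂(gam (U n)) = Real.sqrt (n / 2 : ℕ) * c0 := by
  rw [← abs_mom, ← law_X j, integral_map (meas_X j).aemeasurable (by fun_prop)]

/-- the change of sign inside the halves -/
def ep (z : U n) : ℝ := if (z.1.1 ∈ J n ↔ z.1.2 ∈ J n) then -1 else 1

theorem ep_pr (i j : Fin n) : ep (pr i j) = if (i ∈ J n ↔ j ∈ J n) then -1 else 1 := by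
  unfold ep pr
  rcases le_total i j with h | h
  · simp only [min_eq_left h, max_eq_right h]
  · simp only [min_eq_right h, max_eq_left h]
    congr 1
    exact propext ⟨Iff.symm, Iff.symm⟩

theorem mp_ep : MeasurePreserving (fun (g : U n → ℝ) z => ep z * g z) (gam (U n)) (gam (U n)) := by
  unfold gam
  refine measurePreserving_pi (f := fun (z : U n) x => ep z * x) _ _ fun z => ?_
  refine ⟨by fun_prop, ?_⟩
  have h := gaussianReal_map_const_mul (μ := 0) (v := 1) (ep z)
  refine h.trans ?_
  congr 1
  · ring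
  · rw [mul_one]
    ext
    unfold ep
    split_ifs <;> simp

/-- the sign vector -/
noncomputable def yy (g : U n → ℝ) (i : Fin n) : ℝ := if i ∈ J n then 1 else if 0 ≤ X i g then 1 else -1

theorem yy_abs (g : U n → ℝ) (i : Fin n) : |yy g i| = 1 := by
  unfold yy
  split_ifs <;> simp

theorem key (g : U n → ℝ) :
    Hf g (yy g) + Hf (fun z => ep z * g z) (yy g) = 4 * ∑ j ∈ (J n)ᶜ, |X j g| := by
  have e1 : ∀ i j : Fin n, Wm g i j * yy g i * yy g j +
      Wm (fun z => ep z * g z) i j * yy g i * yy g j =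
      (if i ∈ J n then (if j ∈ J n then 0 else 2 * (g (pr i j) * yy g j)) else 0) +
      (if j ∈ J n then (if i ∈ J n then 0 else 2 * (g (pr j i) * yy g i)) else 0) := by
    intro i j
    by_cases hi : i ∈ J n <;> by_cases hj : j ∈ J n
    · simp only [Wm, ep_pr, hi, hj, if_true, iff_self]
      ring
    · have hij : i ≠ j := by
        rintro rfl
        exact hj hi
      have y1 : yy g i = 1 := by simp [yy, hi]
      simp only [Wm, ep_pr, hi, hj, if_true, if_false, iff_false, not_true, hij, y1]
      ring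
    · have hij : i ≠ j := by
        rintro rfl
        exact hi hj
      have y1 : yy g j = 1 := by simp [yy, hj]
      have e : (i ∈ J n ↔ j ∈ J n) = False := by simp [hi, hj]
      simp only [Wm, ep_pr, e, if_false]
      simp only [hi, hj, if_true, if_false, hij, y1, pr_comm i j]
      ring
    · simp only [Wm, ep_pr, hi, hj, if_false, iff_self, if_true]
      ring
  have e2 : ∀ j ∈ (J n)ᶜ, ∑ i ∈ J n, 2 * (g (pr i j) * yy g j) = 2 * |X j g| := by
    intro j hj
    rw [Finset.mem_compl] at hj
    rw [← Finset.mul_sum, ← Finset.sum_mul]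
    have : (∑ i ∈ J n, g (pr i j)) = X j g := rfl
    rw [this]
    unfold yy
    rw [if_neg hj]
    split_ifs with h
    · rw [abs_of_nonneg h, mul_one]
    · rw [abs_of_neg (not_le.1 h)]
      ring
  have e3 : ∑ j ∈ (J n)ᶜ, ∑ i ∈ J n, 2 * (g (pr i j) * yy g j) = 2 * ∑ j ∈ (J n)ᶜ, |X j g| := by
    rw [Finset.sum_congr rfl e2, Finset.mul_sum]
  have e4 : ∑ j : Fin n, ∑ i : Fin n,
      (if i ∈ J n then (if j ∈ J n then 0 else 2 * (g (pr i j) * yy g j)) else 0) =
      ∑ j ∈ (J n)ᶜ, ∑ i ∈ J n, 2 * (g (pr i j) * yy g j) := by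
    rw [← Finset.sum_subset (Finset.subset_univ ((J n)ᶜ))]
    · refine Finset.sum_congr rfl fun j hj => ?_
      rw [Finset.mem_compl] at hj
      simp only [hj, if_false]
      rw [Finset.sum_ite_mem, Finset.univ_inter]
    · intro j _ hj
      rw [Finset.mem_compl, not_not] at hj
      simp [hj]
  unfold Hf
  rw [← Finset.sum_add_distrib]
  simp_rw [← Finset.sum_add_distrib, e1]
  simp_rw [Finset.sum_add_distrib]
  rw [Finset.sum_comm, e4, e3]
  ring

end

/-- the maximum over the sign vectors is of order `n^(3/2)` -/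
theorem t_ELO : T_ELO := by
  refine ⟨c0 / 2, half_pos c0_pos, 2, fun n hn F hF h => ?_⟩
  have h1 : ∫ g, F (fun z => ep z * g z) ∂(gam (U n)) = ∫ g, F g ∂(gam (U n)) := by
    have h2 := mp_ep (n := n)
    rw [← h2.map_eq] at hF
    conv_rhs => rw [← h2.map_eq]
    rw [integral_map h2.measurable.aemeasurable hF.aestronglyMeasurable]
  have h3 : Integrable (fun g => F (fun z => ep z * g z)) (gam (U n)) :=
    (mp_ep (n := n)).integrable_comp_of_integrable hF
  have h4 : ∫ g, 4 * ∑ j ∈ (J n)ᶜ, |X j g| ∂(gam (U n)) ≤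
      ∫ g, (F g + F (fun z => ep z * g z)) ∂(gam (U n)) := by
    refine integral_mono ((integrable_finsetSum _ fun j _ => int_X j).const_mul 4) (hF.add h3)
      fun g => ?_
    simp only
    rw [← key g]
    exact add_le_add (h g _ (yy_abs g)) (h _ _ (yy_abs g))
  rw [integral_add hF h3, h1, integral_const_mul, integral_finsetSum _ fun j _ => int_X j] at h4
  simp_rw [mom_X] at h4
  rw [Finset.sum_const, nsmul_eq_mul, Finset.card_compl, Fintype.card_fin, card_J] at h4
  have h5 : (n : ℝ) / 2 ≤ ((n - n / 2 : ℕ) : ℝ) := by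
    have : (n : ℝ) ≤ 2 * ((n - n / 2 : ℕ) : ℝ) := by
      exact_mod_cast (by omega : n ≤ 2 * (n - n / 2))
    linarith
  have h6 : Real.sqrt n / 2 ≤ Real.sqrt ((n / 2 : ℕ) : ℝ) := by
    have h7 : (n : ℝ) ≤ 4 * ((n / 2 : ℕ) : ℝ) := by
      exact_mod_cast (by omega : n ≤ 4 * (n / 2))
    have h8 : Real.sqrt n ≤ 2 * Real.sqrt ((n / 2 : ℕ) : ℝ) := by
      have h9 : Real.sqrt (2 ^ 2 * ((n / 2 : ℕ) : ℝ)) = 2 * Real.sqrt ((n / 2 : ℕ) : ℝ) := by
        rw [Real.sqrt_mul (by norm_num), Real.sqrt_sq (by norm_num)]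
      rw [← h9]
      exact Real.sqrt_le_sqrt (by linarith)
    linarith
  have h10 : (n : ℝ) / 2 * (Real.sqrt n / 2 * c0) ≤
      ((n - n / 2 : ℕ) : ℝ) * (Real.sqrt ((n / 2 : ℕ) : ℝ) * c0) :=
    mul_le_mul h5 (mul_le_mul_of_nonneg_right h6 c0_pos.le)
      (mul_nonneg (by positivity) c0_pos.le) (by positivity)
  have h11 : c0 / 2 * (n * Real.sqrt n) = 2 * ((n : ℝ) / 2 * (Real.sqrt n / 2 * c0)) := by ring
  linarith

end Pool.Agent.KS6_54.LPG.N711.LPG.ELO
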