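import Pool.Agent.KS6_54.LPG.Sec

/-! The expected operator norm of a Gaussian matrix is at most `25 √n`. -/

set_option autoImplicit false
open MeasureTheory Measure Set ProbabilityTheory
open scoped ENNReal NNReal

namespace Pool.Agent.KS6_54.LPG.H992R2

theorem exists_net (m : ℕ) : ∃ s : Finset (EuclideanSpace ℝ (Fin m)), s.card ≤ 5 ^ m ∧
    (∀ c ∈ s, ‖c‖ ≤ 1) ∧
    ∀ x : EuclideanSpace ℝ (Fin m), ‖x‖ ≤ 1 → ∃ c ∈ s, ‖x - c‖ ≤ 1 / 2 := by
  classical
  set Pr : ℕ → Prop := fun k => ∃ s : Finset (EuclideanSpace ℝ (Fin m)), s.card = k ∧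
    (∀ c ∈ s, ‖c‖ ≤ 2) ∧ ∀ c ∈ s, ∀ d ∈ s, c ≠ d → 1 ≤ ‖c - d‖ with hPr
  have hb : ∀ k, Pr k → k ≤ 5 ^ m := by
    rintro k ⟨s, hk, h1, h2⟩
    have h3 := Besicovitch.card_le_of_separated s h1 h2
    rw [finrank_euclideanSpace_fin] at h3
    omega
  have h0 : Pr 0 := ⟨∅, by simp, by simp, by simp⟩
  obtain ⟨S, hS, hS2, hSs⟩ : Pr (Nat.findGreatest Pr (5 ^ m)) :=
    Nat.findGreatest_spec (Nat.zero_le _) h0
  have hmax : ∀ k, Pr k → k ≤ Nat.findGreatest Pr (5 ^ m) := fun k hk =>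
    Nat.le_findGreatest (hb k hk) hk
  refine ⟨S.image fun c => (1 / 2 : ℝ) • c, ?_, ?_, ?_⟩
  · refine Finset.card_image_le.trans ?_
    have := hb S.card ⟨S, rfl, hS2, hSs⟩
    exact this
  · intro c hc
    obtain ⟨d, hd, rfl⟩ := Finset.mem_image.1 hc
    rw [norm_smul]
    have := hS2 d hd
    norm_num
    linarith
  · intro x hx
    by_contra hcon
    push Not at hcon
    have hfar : ∀ c ∈ S, 1 ≤ ‖(2 : ℝ) • x - c‖ := by
      intro c hc
      have h1 := hcon ((1 / 2 : ℝ) • c) (Finset.mem_image_of_mem _ hc)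
      have h2 : (2 : ℝ) • x - c = (2 : ℝ) • (x - (1 / 2 : ℝ) • c) := by
        rw [smul_sub, smul_smul]; norm_num
      rw [h2, norm_smul]
      norm_num
      linarith
    have hnot : (2 : ℝ) • x ∉ S := by
      intro h
      have := hfar _ h
      rw [sub_self, norm_zero] at this
      linarith
    have hP : Pr (S.card + 1) := by
      refine ⟨insert ((2 : ℝ) • x) S, Finset.card_insert_of_notMem hnot, ?_, ?_⟩
      · intro c hc
        rcases Finset.mem_insert.1 hc with rfl | hc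
        · rw [norm_smul]; norm_num; linarith
        · exact hS2 c hc
      · intro c hc d hd hcd
        rcases Finset.mem_insert.1 hc with rfl | hc
        · rcases Finset.mem_insert.1 hd with rfl | hd
          · exact absurd rfl hcd
          · exact hfar d hd
        · rcases Finset.mem_insert.1 hd with rfl | hd
          · rw [norm_sub_rev]; exact hfar c hc
          · exact hSs c hc d hd hcd
    have := hmax _ hP
    omega

/-- A net controls the norm. -/
theorem norm_le_net {m : ℕ} {s : Finset (EuclideanSpace ℝ (Fin m))}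
    (hs : ∀ x : EuclideanSpace ℝ (Fin m), ‖x‖ ≤ 1 → ∃ c ∈ s, ‖x - c‖ ≤ 1 / 2)
    (L : EuclideanSpace ℝ (Fin m) →L[ℝ] EuclideanSpace ℝ (Fin m)) :
    ∃ c ∈ s, ‖L‖ ≤ 2 * ‖L c‖ := by
  have hne : s.Nonempty := by
    obtain ⟨c, hc, _⟩ := hs 0 (by simp)
    exact ⟨c, hc⟩
  obtain ⟨c, hc, hmax⟩ := s.exists_max_image (fun c => ‖L c‖) hne
  refine ⟨c, hc, ?_⟩
  have h1 : ‖L‖ ≤ ‖L c‖ + ‖L‖ / 2 := by
    refine ContinuousLinearMap.opNorm_le_of_unit_norm (by positivity) fun z hz => ?_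
    obtain ⟨d, hd, hzd⟩ := hs z hz.le
    have h2 : L z = L d + L (z - d) := by rw [← map_add]; congr 1; abel
    rw [h2]
    refine (norm_add_le _ _).trans ?_
    have h3 := hmax d hd
    have h4 : ‖L (z - d)‖ ≤ ‖L‖ * (1 / 2) := (L.le_opNorm _).trans (by gcongr)
    linarith
  linarith

theorem lintegral_fin_prod_gen {n : ℕ} {α : Type*} [MeasurableSpace α] (μ : Fin n → Measure α)
    [∀ i, SigmaFinite (μ i)] (f : Fin n → α → ℝ≥0∞) (hf : ∀ i, Measurable (f i)) :
    ∫⁻ x : Fin n → α, ∏ i, f i (x i) ∂(Measure.pi μ) = ∏ i, ∫⁻ x, f i x ∂(μ i) := by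
  induction n with
  | zero => simp
  | succ n n_ih =>
      calc
        _ = ∫⁻ x : α × (Fin n → α),
            f 0 x.1 * ∏ i : Fin n, f (Fin.succ i) (x.2 i)
            ∂((μ 0).prod (Measure.pi (fun i ↦ μ i.succ))) := by
          rw [← ((measurePreserving_piFinSuccAbove μ 0).symm).lintegral_comp_emb
            (MeasurableEquiv.measurableEmbedding _)]
          simp_rw [MeasurableEquiv.piFinSuccAbove_symm_apply, Fin.insertNthEquiv,
            Fin.prod_univ_succ, Fin.insertNth_zero, Equiv.coe_fn_mk, Fin.cons_succ,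
            Fin.zero_succAbove, cast_eq, Fin.cons_zero]
        _ = (∫⁻ x, f 0 x ∂μ 0)
            * ∏ i : Fin n, ∫⁻ x, f (Fin.succ i) x ∂(μ i.succ) := by
          rw [← n_ih (fun i => μ i.succ) (fun i => f i.succ) (fun i => hf _)]
          exact lintegral_prod_mul (hf 0).aemeasurable (Finset.measurable_prod _ (fun i _ =>
            (hf _).comp (measurable_pi_apply i))).aemeasurable
        _ = ∏ i, ∫⁻ x, f i x ∂(μ i) := by rw [Fin.prod_univ_succ]

theorem lintegral_exp_gauss :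
    ∫⁻ t, ENNReal.ofReal (Real.exp (t ^ 2 / 4)) ∂(gaussianReal 0 1) = ENNReal.ofReal (Real.sqrt 2) := by
  rw [gaussianReal_of_var_ne_zero 0 one_ne_zero,
    lintegral_withDensity_eq_lintegral_mul _ (measurable_gaussianPDF 0 1) (by fun_prop)]
  have h1 : ∀ t : ℝ, (gaussianPDF 0 1 * fun t => ENNReal.ofReal (Real.exp (t ^ 2 / 4))) t =
      ENNReal.ofReal ((Real.sqrt (2 * Real.pi))⁻¹ * Real.exp (-(1 / 4) * t ^ 2)) := by
    intro t
    rw [Pi.mul_apply, gaussianPDF_def, gaussianPDFReal_def, ← ENNReal.ofReal_mul (by positivity)]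
    congr 1
    simp only [NNReal.coe_one, mul_one, sub_zero]
    rw [mul_assoc, ← Real.exp_add]
    congr 2
    ring
  simp_rw [h1]
  rw [← ofReal_integral_eq_lintegral_ofReal]
  · congr 1
    rw [integral_const_mul, integral_gaussian]
    rw [← Real.sqrt_inv, ← Real.sqrt_mul (by positivity)]
    congr 1
    field_simp
    norm_num
  · exact (integrable_exp_neg_mul_sq (by norm_num)).const_mul _
  · exact Filter.Eventually.of_forall fun t => by positivity

theorem row_exp {N : ℕ} (c : Fin (N + 1) → ℝ) (hc : dotProduct c c ≤ 1) :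
    ∫⁻ r, ENNReal.ofReal (Real.exp ((dotProduct c r) ^ 2 / 4)) ∂(gam (Fin (N + 1))) ≤
      ENNReal.ofReal (Real.sqrt 2) := by
  by_cases h0 : c = 0
  · subst h0
    simp only [zero_dotProduct]
    norm_num
  · have hcc : 0 < dotProduct c c := by
      rw [← en_sq]
      have : en c ≠ 0 := by
        intro h
        exact h0 (congrArg WithLp.ofLp (norm_eq_zero.mp h))
      positivity
    set u := (Real.sqrt (dotProduct c c))⁻¹ • c with hu
    have huu : dotProduct u u = 1 := by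
      rw [hu, smul_dotProduct, dotProduct_smul, smul_eq_mul, smul_eq_mul]
      have h1 := Real.mul_self_sqrt hcc.le
      have h2 : Real.sqrt (dotProduct c c) ≠ 0 := (Real.sqrt_pos.mpr hcc).ne'
      field_simp
      linarith
    have hle : ∀ r, (dotProduct c r) ^ 2 ≤ (dotProduct u r) ^ 2 := by
      intro r
      rw [hu, smul_dotProduct, smul_eq_mul, mul_pow, inv_pow, Real.sq_sqrt hcc.le]
      have : 1 ≤ (dotProduct c c)⁻¹ := (one_le_inv₀ hcc).mpr hc
      nlinarith [sq_nonneg (dotProduct c r)]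
    set Q := hh (ez N) u with hQ
    have hez : dotProduct (ez N) (ez N) = 1 := by simp [ez]
    have hQt : Q.transpose = Q := hh_transpose _ _
    have hQQ : Q * Q = 1 := hh_mul_self _ _
    have hQe : Q.mulVec (ez N) = u := hh_mulVec _ _ (by rw [hez, huu])
    have hQu : Q.mulVec u = ez N := by rw [← hQe, Matrix.mulVec_mulVec, hQQ, Matrix.one_mulVec]
    have hmp := mp_mulVec Q (by rw [hQt, hQQ])
    have hdotm : Measurable fun r : Fin (N + 1) → ℝ => dotProduct u r := by
      simp only [dotProduct]; fun_prop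
    calc ∫⁻ r, ENNReal.ofReal (Real.exp ((dotProduct c r) ^ 2 / 4)) ∂(gam (Fin (N + 1)))
        ≤ ∫⁻ r, ENNReal.ofReal (Real.exp ((dotProduct u r) ^ 2 / 4)) ∂(gam (Fin (N + 1))) := by
          refine lintegral_mono fun r => ENNReal.ofReal_le_ofReal (Real.exp_le_exp.mpr ?_)
          have := hle r
          linarith
      _ = ∫⁻ r, ENNReal.ofReal (Real.exp ((dotProduct u (Q.mulVec r)) ^ 2 / 4))
            ∂(gam (Fin (N + 1))) := by
          have hm : Measurable fun r : Fin (N + 1) → ℝ =>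
            ENNReal.ofReal (Real.exp ((dotProduct u r) ^ 2 / 4)) := by fun_prop
          rw [hmp.lintegral_comp hm]
      _ = ∫⁻ r : Fin (N + 1) → ℝ, ENNReal.ofReal (Real.exp ((r 0) ^ 2 / 4))
            ∂(gam (Fin (N + 1))) := by
          refine lintegral_congr fun r => ?_
          rw [Matrix.dotProduct_mulVec, ← Matrix.mulVec_transpose, hQt, hQu]
          simp [ez]
      _ = ENNReal.ofReal (Real.sqrt 2) := by
          rw [← lintegral_exp_gauss]
          exact (measurePreserving_eval (fun _ : Fin (N + 1) => gaussianReal 0 1) 0).lintegral_comp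
            (f := fun t => ENNReal.ofReal (Real.exp (t ^ 2 / 4))) (by fun_prop)
      _ ≤ _ := le_rfl

theorem mat_exp {N k : ℕ} (c : Fin (N + 1) → ℝ) (hc : dotProduct c c ≤ 1) :
    ∫⁻ G : Fin k → Fin (N + 1) → ℝ, ENNReal.ofReal (Real.exp ((∑ i, (dotProduct c (G i)) ^ 2) / 4))
      ∂(muM k (N + 1)) ≤ ENNReal.ofReal (Real.sqrt 2) ^ k := by
  have h1 : ∀ G : Fin k → Fin (N + 1) → ℝ,
      ENNReal.ofReal (Real.exp ((∑ i, (dotProduct c (G i)) ^ 2) / 4)) =
      ∏ i, ENNReal.ofReal (Real.exp ((dotProduct c (G i)) ^ 2 / 4)) := by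
    intro G
    rw [← ENNReal.ofReal_prod_of_nonneg (fun i _ => (Real.exp_pos _).le), ← Real.exp_sum,
      Finset.sum_div]
  simp_rw [h1]
  have hm : Measurable fun r : Fin (N + 1) → ℝ =>
      ENNReal.ofReal (Real.exp ((dotProduct c r) ^ 2 / 4)) := by
    have : Measurable fun r : Fin (N + 1) → ℝ => dotProduct c r := by
      simp only [dotProduct]; fun_prop
    fun_prop
  rw [lintegral_fin_prod_gen (fun _ : Fin k => gam (Fin (N + 1)))
    (fun _ r => ENNReal.ofReal (Real.exp ((dotProduct c r) ^ 2 / 4))) (fun _ => hm)]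
  rw [Finset.prod_const, Finset.card_univ, Fintype.card_fin]
  gcongr
  exact row_exp c hc

theorem expected_norm (N : ℕ) :
    ∫⁻ G, ENNReal.ofReal ‖Ph (Matrix.of G : Matrix (Fin (N + 1)) (Fin (N + 1)) ℝ)‖
      ∂(muM (N + 1) (N + 1)) ≤ ENNReal.ofReal (25 * Real.sqrt ((N + 1 : ℕ) : ℝ)) := by
  set n : ℕ := N + 1 with hn
  obtain ⟨s, hcard, hs1, hs⟩ := exists_net n
  set a := Real.sqrt ((n : ℕ) : ℝ) with ha
  have hn1 : (1 : ℝ) ≤ n := by rw [hn]; push_cast; linarith [Nat.cast_nonneg (α := ℝ) N]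
  have ha1 : 1 ≤ a := Real.one_le_sqrt.mpr hn1
  have haa : a * a = n := Real.mul_self_sqrt (by linarith)
  have hpt : ∀ G : Fin n → Fin n → ℝ, ‖Ph (Matrix.of G)‖ ≤ (33 / 2) * a + 8 * Real.exp (-(2 * n)) *
      ∑ c ∈ s, Real.exp ((∑ i, (dotProduct (WithLp.ofLp c) (G i)) ^ 2) / 4) := by
    intro G
    set L := Ph (Matrix.of G) with hL
    obtain ⟨c, hc, hLc⟩ := norm_le_net hs L
    have h1 : ‖L c‖ ^ 2 = ∑ i, (dotProduct (WithLp.ofLp c) (G i)) ^ 2 := by
      rw [EuclideanSpace.norm_sq_eq]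
      refine Finset.sum_congr rfl fun i _ => ?_
      have : (L c) i = dotProduct (WithLp.ofLp c) (G i) := by
        rw [hL, dotProduct_comm]
        rfl
      rw [this, Real.norm_eq_abs, sq_abs]
    have h2 : ‖L‖ ^ 2 / 16 ≤ ‖L c‖ ^ 2 / 4 := by
      have := norm_nonneg (L c)
      have := norm_nonneg L
      nlinarith
    have h3 : Real.exp (‖L‖ ^ 2 / 16) ≤
        ∑ c ∈ s, Real.exp ((∑ i, (dotProduct (WithLp.ofLp c) (G i)) ^ 2) / 4) := by
      refine (Real.exp_le_exp.mpr h2).trans ?_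
      rw [h1]
      exact Finset.single_le_sum
        (f := fun c : EuclideanSpace ℝ (Fin n) =>
          Real.exp ((∑ i, (dotProduct (WithLp.ofLp c) (G i)) ^ 2) / 4))
        (fun _ _ => (Real.exp_pos _).le) hc
    have h4 : ‖L‖ ^ 2 / 16 - 2 * n + 1 ≤ Real.exp (‖L‖ ^ 2 / 16 - 2 * n) := Real.add_one_le_exp _
    rw [sub_eq_add_neg (‖L‖ ^ 2 / 16) (2 * (n : ℝ)), Real.exp_add] at h4
    have h5 : ‖L‖ * a ≤ (a * a + ‖L‖ ^ 2) / 2 := by nlinarith [sq_nonneg (‖L‖ - a)]
    have h6 : Real.exp (‖L‖ ^ 2 / 16) * Real.exp (-(2 * (n : ℝ))) ≤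
        Real.exp (-(2 * (n : ℝ))) *
        ∑ c ∈ s, Real.exp ((∑ i, (dotProduct (WithLp.ofLp c) (G i)) ^ 2) / 4) := by
      rw [mul_comm]; gcongr
    set X := Real.exp (-(2 * (n : ℝ))) *
        ∑ c ∈ s, Real.exp ((∑ i, (dotProduct (WithLp.ofLp c) (G i)) ^ 2) / 4) with hX
    have hX0 : 0 ≤ X := by rw [hX]; positivity
    have h7 : ‖L‖ ^ 2 ≤ 32 * (a * a) + 16 * X := by
      rw [haa]; linarith
    have h8 : ‖L‖ * a ≤ (33 / 2 * a + 8 * X) * a := by nlinarith
    have h9 := le_of_mul_le_mul_right h8 (by linarith)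
    calc ‖L‖ ≤ 33 / 2 * a + 8 * X := h9
      _ = _ := by rw [hX]; ring
  have hmeas : ∀ c : EuclideanSpace ℝ (Fin n), Measurable fun G : Fin n → Fin n → ℝ =>
      ENNReal.ofReal (Real.exp ((∑ i, (dotProduct (WithLp.ofLp c) (G i)) ^ 2) / 4)) := by
    intro c
    have : ∀ i, Measurable fun G : Fin n → Fin n → ℝ => dotProduct (WithLp.ofLp c) (G i) := by
      intro i
      simp only [dotProduct]
      fun_prop
    fun_prop
  calc ∫⁻ G, ENNReal.ofReal ‖Ph (Matrix.of G : Matrix (Fin n) (Fin n) ℝ)‖ ∂(muM n n)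
      ≤ ∫⁻ G, (ENNReal.ofReal ((33 / 2) * a) + ENNReal.ofReal (8 * Real.exp (-(2 * n))) *
        ∑ c ∈ s, ENNReal.ofReal
          (Real.exp ((∑ i, (dotProduct (WithLp.ofLp c) (G i)) ^ 2) / 4))) ∂(muM n n) := by
        refine lintegral_mono fun G => ?_
        rw [← ENNReal.ofReal_sum_of_nonneg (fun _ _ => (Real.exp_pos _).le),
          ← ENNReal.ofReal_mul (by positivity), ← ENNReal.ofReal_add (by positivity) (by positivity)]
        exact ENNReal.ofReal_le_ofReal (hpt G)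
    _ = ENNReal.ofReal ((33 / 2) * a) + ENNReal.ofReal (8 * Real.exp (-(2 * n))) *
        ∑ c ∈ s, ∫⁻ G, ENNReal.ofReal
          (Real.exp ((∑ i, (dotProduct (WithLp.ofLp c) (G i)) ^ 2) / 4)) ∂(muM n n) := by
        rw [lintegral_add_left measurable_const,
          lintegral_const_mul _ (Finset.measurable_fun_sum _ fun c _ => hmeas c),
          lintegral_finsetSum _ fun c _ => hmeas c]
        simp
    _ ≤ ENNReal.ofReal ((33 / 2) * a) + ENNReal.ofReal (8 * Real.exp (-(2 * n))) *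
        ∑ c ∈ s, ENNReal.ofReal (Real.sqrt 2) ^ n := by
        gcongr with c hc
        apply mat_exp
        rw [← en_sq]
        have := hs1 c hc
        have h2 : en (WithLp.ofLp c) = ‖c‖ := rfl
        rw [h2]
        nlinarith [norm_nonneg c]
    _ ≤ ENNReal.ofReal (25 * a) := by
        rw [Finset.sum_const, nsmul_eq_mul, ← ENNReal.ofReal_pow (by positivity),
          ← ENNReal.ofReal_natCast, ← ENNReal.ofReal_mul (by positivity),
          ← ENNReal.ofReal_mul (by positivity), ← ENNReal.ofReal_add (by positivity) (by positivity)]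
        apply ENNReal.ofReal_le_ofReal
        have h1 : (s.card : ℝ) ≤ 5 ^ n := by exact_mod_cast hcard
        have h2 : Real.sqrt 2 ≤ 1.42 := by
          rw [Real.sqrt_le_left (by norm_num)]; norm_num
        have h3 : (7.1 : ℝ) ≤ Real.exp 2 := by
          have h4 := Real.exp_one_gt_d9
          have h5 : Real.exp 2 = Real.exp 1 * Real.exp 1 := by rw [← Real.exp_add]; norm_num
          rw [h5]; nlinarith
        have h4 : (s.card : ℝ) * Real.sqrt 2 ^ n ≤ Real.exp (2 * n) := by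
          calc (s.card : ℝ) * Real.sqrt 2 ^ n ≤ 5 ^ n * 1.42 ^ n := by gcongr
            _ = 7.1 ^ n := by rw [← mul_pow]; norm_num
            _ ≤ Real.exp 2 ^ n := by gcongr
            _ = Real.exp (2 * n) := by rw [← Real.exp_nat_mul]; ring_nf
        have h5 : Real.exp (-(2 * (n : ℝ))) * ((s.card : ℝ) * Real.sqrt 2 ^ n) ≤ 1 := by
          calc Real.exp (-(2 * (n : ℝ))) * ((s.card : ℝ) * Real.sqrt 2 ^ n)
              ≤ Real.exp (-(2 * (n : ℝ))) * Real.exp (2 * n) := by gcongr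
            _ = 1 := by rw [← Real.exp_add]; simp
        nlinarith

end Pool.Agent.KS6_54.LPG.H992R2
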