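import Pool.Agent.KS6_54.LPG.Stm

/-!
# MP_98bed0_pr: passage to the normalisation of the problem
-/

set_option autoImplicit false

open MeasureTheory ProbabilityTheory Filter Topology

namespace Pool.Agent.KS6_54.LPG.N591.LPG.GOE

open Pool.Agent.KS6_54.LPG.H320R2.LD Pool.Agent.KS6_54.LPG.N573.LPG

/-- the constants -/
noncomputable def cz {n : ℕ} (z : U n) : ℝ :=
  if z.1.1 = z.1.2 then Real.sqrt n / Real.sqrt 2 else Real.sqrt n

/-- the standard Gaussian array -/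
noncomputable def gz {Ω : Type} {n : ℕ} (G : Ω → Matrix (Fin n) (Fin n) ℝ) (ω : Ω) (z : U n) : ℝ :=
  cz z * G ω z.1.1 z.1.2

theorem law_one {Ω : Type} [MeasurableSpace Ω] {P : Measure Ω} {n : ℕ} (hn : 1 ≤ n)
    {G : Ω → Matrix (Fin n) (Fin n) ℝ} (hG : IsGOE P G) (z : U n) :
    HasLaw (fun ω => gz G ω z) (gaussianReal 0 1) P := by
  have h1 := gaussianReal_const_mul (hG.law z.1.1 z.1.2 z.2) (cz z)
  rw [mul_zero] at h1
  have hn' : (n : ℝ) ≠ 0 := by
    have : (0 : ℝ) < n := by exact_mod_cast hn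
    exact this.ne'
  have e : (NNReal.mk (cz z ^ 2) (sq_nonneg _) *
      (if z.1.1 = z.1.2 then 2 / (n : NNReal) else 1 / (n : NNReal))) = 1 := by
    apply NNReal.eq
    rw [NNReal.coe_mul, NNReal.coe_mk, NNReal.coe_one]
    unfold cz
    split_ifs with h
    · rw [div_pow, Real.sq_sqrt (Nat.cast_nonneg n), Real.sq_sqrt (by norm_num), NNReal.coe_div]
      push_cast
      field_simp
    · rw [Real.sq_sqrt (Nat.cast_nonneg n), NNReal.coe_div]
      push_cast
      field_simp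
  rw [e] at h1
  exact h1

theorem law_all {Ω : Type} [MeasurableSpace Ω] {P : Measure Ω} [IsProbabilityMeasure P] {n : ℕ}
    (hn : 1 ≤ n) {G : Ω → Matrix (Fin n) (Fin n) ℝ} (hG : IsGOE P G) :
    AEMeasurable (fun ω => gz G ω) P ∧ P.map (fun ω => gz G ω) = gam (U n) := by
  have hm : ∀ z : U n, AEMeasurable (fun ω => gz G ω z) P := fun z => (law_one hn hG z).aemeasurable
  refine ⟨aemeasurable_pi_lambda _ hm, ?_⟩
  have h1 := hG.indep.comp (fun (z : U n) (x : ℝ) => cz z * x) (fun z => by fun_prop)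
  have h2 : iIndepFun (fun (z : U n) ω => gz G ω z) P := h1
  rw [iIndepFun_iff_map_fun_eq_pi_map hm] at h2
  rw [h2]
  unfold gam
  congr 1
  funext z
  exact (law_one hn hG z).map_eq

theorem Wm_gz {Ω : Type} {n : ℕ} {G : Ω → Matrix (Fin n) (Fin n) ℝ}
    (hs : ∀ ω i j, G ω i j = G ω j i) (ω : Ω) (i j : Fin n) :
    Wm (gz G ω) i j = Real.sqrt n * G ω i j := by
  have h2 : Real.sqrt 2 ≠ 0 := by positivity
  unfold Wm gz cz pr
  by_cases hij : i = j
  · subst hij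
    simp only [min_self, max_self, if_true]
    field_simp
  · have h3 : ¬ (min i j = max i j) := by
      intro h
      rcases le_total i j with h4 | h4
      · rw [min_eq_left h4, max_eq_right h4] at h
        exact hij h
      · rw [min_eq_right h4, max_eq_left h4] at h
        exact hij h.symm
    simp only [if_neg hij, if_neg h3, one_mul]
    rcases le_total i j with h4 | h4
    · rw [min_eq_left h4, max_eq_right h4]
    · rw [min_eq_right h4, max_eq_left h4, hs]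

theorem Hf_gz {Ω : Type} {n : ℕ} {G : Ω → Matrix (Fin n) (Fin n) ℝ}
    (hs : ∀ ω i j, G ω i j = G ω j i) (ω : Ω) (y : Fin n → ℝ) :
    Hf (gz G ω) y = Real.sqrt n * dotProduct ((G ω).mulVec y) y := by
  unfold Hf dotProduct Matrix.mulVec dotProduct
  rw [Finset.mul_sum]
  refine Finset.sum_congr rfl fun i _ => ?_
  rw [Finset.sum_mul, Finset.mul_sum]
  refine Finset.sum_congr rfl fun j _ => ?_
  rw [Wm_gz hs]
  ring

theorem dot_smul {n : ℕ} (G : Matrix (Fin n) (Fin n) ℝ) (c : ℝ) (x : Fin n → ℝ) :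
    dotProduct (G.mulVec (fun i => c * x i)) (fun i => c * x i) =
      c ^ 2 * dotProduct (G.mulVec x) x := by
  unfold dotProduct Matrix.mulVec dotProduct
  rw [Finset.mul_sum]
  refine Finset.sum_congr rfl fun i _ => ?_
  have : ∑ j, G i j * (c * x j) = c * ∑ j, G i j * x j := by
    rw [Finset.mul_sum]
    exact Finset.sum_congr rfl fun j _ => by ring
  rw [this]
  ring

theorem rpow_le {a r : ℝ} (ha : 0 ≤ a) (hr : 0 < r) : a ^ r ≤ 1 ↔ a ≤ 1 := by
  constructor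
  · intro h
    by_contra hc
    exact absurd h (not_le.2 (Real.one_lt_rpow (not_le.1 hc) hr))
  · intro h
    exact Real.rpow_le_one ha h hr.le

theorem sum_smul {n : ℕ} {p c : ℝ} (hc : 0 ≤ c) (x : Fin n → ℝ) :
    ∑ i, |c * x i| ^ p = c ^ p * ∑ i, |x i| ^ p := by
  rw [Finset.mul_sum]
  refine Finset.sum_congr rfl fun i _ => ?_
  rw [abs_mul, abs_of_nonneg hc, Real.mul_rpow hc (abs_nonneg _)]

theorem event {p C K : ℝ} (hp : 2 < p) {n : ℕ} (hn : 1 ≤ n) {Ω : Type}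
    {G : Ω → Matrix (Fin n) (Fin n) ℝ} (hs : ∀ ω i j, G ω i j = G ω j i) (ω : Ω) (x : Fin n → ℝ)
    (hx : IsOptimizer p (G ω) x) (i : Fin n)
    (hi : K * (Real.log n) ^ C * (n : ℝ) ^ (-(1 / p)) < |x i|) :
    ∃ y ∈ Kp p (∅ : Finset (Fin n)),
      (∀ y' ∈ Kp p (∅ : Finset (Fin n)), Hf (gz G ω) y' ≤ Hf (gz G ω) y) ∧
        ∃ i, K * (Real.log n) ^ C < |y i| := by
  have hn0 : (0 : ℝ) < n := by exact_mod_cast hn
  have hp0 : 0 < p := by linarith
  have hr : 0 < 1 / p := by positivity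
  set c : ℝ := (n : ℝ) ^ (1 / p) with hc
  have hc0 : 0 < c := Real.rpow_pos_of_pos hn0 _
  have hcp : c ^ p = n := by
    rw [hc, ← Real.rpow_mul hn0.le, one_div, inv_mul_cancel₀ hp0.ne', Real.rpow_one]
  have hci : c⁻¹ = (n : ℝ) ^ (-(1 / p)) := by
    rw [hc, Real.rpow_neg hn0.le]
  have hcip : c⁻¹ ^ p = (n : ℝ)⁻¹ := by
    rw [Real.inv_rpow hc0.le, hcp]
  have hnn : ∀ z : Fin n → ℝ, 0 ≤ ∑ i, |z i| ^ p := fun z =>
    Finset.sum_nonneg fun i _ => Real.rpow_nonneg (abs_nonneg _) _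
  have h1 := (rpow_le (hnn x) hr).1 hx.1
  refine ⟨fun i => c * x i, ⟨?_, fun j hj => absurd hj (Finset.notMem_empty j)⟩, ?_, i, ?_⟩
  · rw [sum_smul hc0.le, hcp]
    exact mul_le_of_le_one_right hn0.le h1
  · intro y' hy'
    rw [Hf_gz hs, Hf_gz hs, dot_smul]
    refine mul_le_mul_of_nonneg_left ?_ (Real.sqrt_nonneg _)
    have h2 : (∑ i, |c⁻¹ * y' i| ^ p) ^ (1 / p) ≤ 1 := by
      rw [rpow_le (hnn _) hr, sum_smul (inv_nonneg.2 hc0.le), hcip, inv_mul_le_iff₀ hn0, mul_one]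
      exact hy'.1
    have h3 := hx.2 _ h2
    rw [dot_smul] at h3
    calc dotProduct ((G ω).mulVec y') y' = c ^ 2 * (c⁻¹ ^ 2 * dotProduct ((G ω).mulVec y') y') := by
          field_simp
      _ ≤ c ^ 2 * dotProduct ((G ω).mulVec x) x := mul_le_mul_of_nonneg_left h3 (by positivity)
  · show _ < |c * x i|
    rw [abs_mul, abs_of_pos hc0]
    rw [← hci, mul_inv_lt_iff₀ hc0, mul_comm |x i|] at hi
    exact hi

theorem t_GOE : T_GOE := by
  intro p C K hp _ _ hCore Ω _ P _ G hG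
  refine tendsto_of_tendsto_of_tendsto_of_le_of_le' tendsto_const_nhds hCore
    (Eventually.of_forall fun n => zero_le) ?_
  filter_upwards [eventually_ge_atTop 1] with n hn
  obtain ⟨hm, hl⟩ := law_all hn (hG n)
  set E : Set (U n → ℝ) := {g | ∃ y ∈ Kp p (∅ : Finset (Fin n)),
    (∀ y' ∈ Kp p (∅ : Finset (Fin n)), Hf g y' ≤ Hf g y) ∧ ∃ i, K * (Real.log n) ^ C < |y i|}
  have h1 : {ω | ∃ x, IsOptimizer p (G n ω) x ∧
      ∃ i, K * (Real.log n) ^ C * (n : ℝ) ^ (-(1 / p)) < |x i|} ⊆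
      (fun ω => gz (G n) ω) ⁻¹' (toMeasurable (gam (U n)) E) := by
    rintro ω ⟨x, hx, i, hi⟩
    exact subset_toMeasurable _ _ (event hp hn (hG n).symm ω x hx i hi)
  calc P n {ω | ∃ x, IsOptimizer p (G n ω) x ∧
      ∃ i, K * (Real.log n) ^ C * (n : ℝ) ^ (-(1 / p)) < |x i|} ≤
        P n ((fun ω => gz (G n) ω) ⁻¹' (toMeasurable (gam (U n)) E)) := measure_mono h1
    _ = (P n).map (fun ω => gz (G n) ω) (toMeasurable (gam (U n)) E) :=
        (Measure.map_apply_of_aemeasurable hm (measurableSet_toMeasurable _ _)).symm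
    _ = gam (U n) E := by rw [hl, measure_toMeasurable]

end Pool.Agent.KS6_54.LPG.N591.LPG.GOE
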