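import Mathlib

set_option autoImplicit false

namespace Pool.Agent.KS6_54.LPG.Helper954.Hopf

open MeasureTheory Set
open scoped BigOperators

/-- `2 * card J` real coordinates, thought of as `card J` complex coordinates -/
abbrev Cx (J : Type) := EuclideanSpace ℝ (J × Fin 2)

/-- the `j`-th complex coordinate -/
noncomputable def cx {J : Type} (x : Cx J) (j : J) : ℂ := ⟨x (j, 0), x (j, 1)⟩

/-- the primitive root of unity `exp (2 π i / p)` -/
noncomputable def om (p : ℕ) : ℂ := Complex.exp (2 * Real.pi * Complex.I / p)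

/-- the linear action of the generator of `ZMod p` with weights `κ` -/
def IsRot {J : Type} (p : ℕ) (κ : J → ZMod p) (x y : Cx J) : Prop :=
  ∀ j, cx y j = om p ^ (κ j).val * cx x j

/-- types: the nonzero weights -/
abbrev Ty (p : ℕ) := {a : ZMod p // a ≠ 0}

/-- the real parameters of one equation: `e a`, real and imaginary part of `y a` and of `c i` -/
abbrev Par (p : ℕ) (I : Type) := Ty p ⊕ ((Ty p × Fin 2) ⊕ (I × Fin 2))

/-- options: `N a` is `inl a`, `W a b l` is `inr (inl (a, b, l))`, `T a b c` is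
`inr (inr (a, b, c))` -/
abbrev Opt (p : ℕ) := Ty p ⊕ ((Ty p × Ty p × ZMod p) ⊕ (Ty p × Ty p × Ty p))

section
variable {p : ℕ} {I : Type}

def pe (θ : Par p I → ℝ) (a : Ty p) : ℝ := θ (Sum.inl a)
def py (θ : Par p I → ℝ) (a : Ty p) : ℂ := ⟨θ (Sum.inr (Sum.inl (a, 0))), θ (Sum.inr (Sum.inl (a, 1)))⟩
def pc (θ : Par p I → ℝ) (i : I) : ℂ := ⟨θ (Sum.inr (Sum.inr (i, 0))), θ (Sum.inr (Sum.inr (i, 1)))⟩

variable [Fintype I]

/-- the complex functional of type `a` -/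
noncomputable def xi (κ : I → ZMod p) (θ : Par p I → ℝ) (a : Ty p) (w : Cx I) : ℂ :=
  ∑ i, if κ i = a.1 then pc θ i * cx w i else 0

/-- the race weight of type `a`, with auxiliary coordinate `z` -/
noncomputable def mm (κ : I → ZMod p) (z : ℝ) (a : Ty p) (w : Cx I) : ℝ :=
  z ^ 2 + ∑ i, if κ i = a.1 then ‖cx w i‖ ^ 2 else 0

/-- `a` wins the race -/
def Top (κ : I → ZMod p) (θ : Par p I → ℝ) (w : Cx I) (z : ℝ) (a : Ty p) : Prop :=
  ∀ b, mm κ z b w * pe θ a ≤ mm κ z a w * pe θ b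

/-- `a` and `b` tie in the race -/
def Tie (κ : I → ZMod p) (θ : Par p I → ℝ) (w : Cx I) (z : ℝ) (a b : Ty p) : Prop :=
  mm κ z b w * pe θ a = mm κ z a w * pe θ b

/-- the option `o` is satisfied at the point `(w, z)` -/
def Sat (κ : I → ZMod p) (θ : Par p I → ℝ) (w : Cx I) (z : ℝ) : Opt p → Prop
  | Sum.inl a => Top κ θ w z a ∧ xi κ θ a w = z * py θ a
  | Sum.inr (Sum.inl (a, b, l)) => a ≠ b ∧ Top κ θ w z a ∧ Tie κ θ w z a b ∧
      ((starRingEnd ℂ) (om p ^ l.val) * (xi κ θ a w - z * py θ a)).im = 0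
  | Sum.inr (Sum.inr (a, b, c)) => a ≠ b ∧ a ≠ c ∧ b ≠ c ∧ Top κ θ w z a ∧
      Tie κ θ w z a b ∧ Tie κ θ w z a c

end


section measure
open scoped ENNReal

/-- exponential density -/
noncomputable def hE (t : ℝ) : ℝ≥0∞ := ENNReal.ofReal (if 0 < t then Real.exp (-t) else 0)
/-- Gaussian density -/
noncomputable def hG (t : ℝ) : ℝ≥0∞ := ENNReal.ofReal (Real.exp (-(t ^ 2) / 2) / Real.sqrt (2 * Real.pi))

/-- the density of the law of the parameter `k` -/
noncomputable def hd {p : ℕ} {I : Type} : Par p I → ℝ → ℝ≥0∞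
  | Sum.inl _ => hE
  | Sum.inr _ => hG

variable {p : ℕ} [NeZero p] {I : Type} [Fintype I]

variable (p I) in
/-- the law of the parameters of one equation -/
noncomputable def muF : Measure (Par p I → ℝ) :=
  Measure.pi fun k => (volume : Measure ℝ).withDensity (hd k)

/-- the two target parameters of an option -/
def tgt : Opt p → Fin 2 → Par p I
  | Sum.inl a => ![Sum.inr (Sum.inl (a, 0)), Sum.inr (Sum.inl (a, 1))]
  | Sum.inr (Sum.inl (a, b, _)) => ![Sum.inl b, Sum.inr (Sum.inl (a, 1))]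
  | Sum.inr (Sum.inr (_, b, c)) => ![Sum.inl b, Sum.inl c]

/-- slope of the line number `l` -/
noncomputable def tl (p : ℕ) (l : ZMod p) : ℝ := Real.tan (2 * Real.pi * l.val / p)

/-- the values that the target parameters have to take, at `z = 1` -/
noncomputable def FF (κ : I → ZMod p) (θ : Par p I → ℝ) (w : Cx I) : Opt p → Fin 2 → ℝ
  | Sum.inl a => ![(xi κ θ a w).re, (xi κ θ a w).im]
  | Sum.inr (Sum.inl (a, b, l)) => ![pe θ a * mm κ 1 b w / mm κ 1 a w,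
      (xi κ θ a w).im - tl p l * ((xi κ θ a w).re - (py θ a).re)]
  | Sum.inr (Sum.inr (a, b, c)) => ![pe θ a * mm κ 1 b w / mm κ 1 a w,
      pe θ a * mm κ 1 c w / mm κ 1 a w]

/-- the conditions on the remaining parameters, at `z = 1` -/
def Rg (κ : I → ZMod p) (θ : Par p I → ℝ) (w : Cx I) : Opt p → Prop
  | Sum.inl a => 0 < pe θ a ∧ ∀ d, mm κ 1 d w * pe θ a ≤ mm κ 1 a w * pe θ d
  | Sum.inr (Sum.inl (a, b, _)) => a ≠ b ∧ 0 < pe θ a ∧
      ∀ d, d ≠ b → mm κ 1 d w * pe θ a ≤ mm κ 1 a w * pe θ d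
  | Sum.inr (Sum.inr (a, b, c)) => a ≠ b ∧ a ≠ c ∧ b ≠ c ∧ 0 < pe θ a ∧
      ∀ d, d ≠ b → d ≠ c → mm κ 1 d w * pe θ a ≤ mm κ 1 a w * pe θ d

/-- real part of the functional `xi` -/
noncomputable def xire (κ : I → ZMod p) (θ : Par p I → ℝ) (a : Ty p) : Cx I →L[ℝ] ℝ :=
  ∑ i, if κ i = a.1 then (pc θ i).re • (EuclideanSpace.proj (i, 0) : Cx I →L[ℝ] ℝ)
    - (pc θ i).im • (EuclideanSpace.proj (i, 1) : Cx I →L[ℝ] ℝ) else 0

/-- imaginary part of the functional `xi` -/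
noncomputable def xiim (κ : I → ZMod p) (θ : Par p I → ℝ) (a : Ty p) : Cx I →L[ℝ] ℝ :=
  ∑ i, if κ i = a.1 then (pc θ i).re • (EuclideanSpace.proj (i, 1) : Cx I →L[ℝ] ℝ)
    + (pc θ i).im • (EuclideanSpace.proj (i, 0) : Cx I →L[ℝ] ℝ) else 0

/-- the functional `v ↦ ⟪w_a, v_a⟫`, where `v_a` is the part of `v` of type `a` -/
noncomputable def ipA (κ : I → ZMod p) (a : Ty p) (w : Cx I) : Cx I →L[ℝ] ℝ :=
  ∑ i, if κ i = a.1 then w (i, 0) • (EuclideanSpace.proj (i, 0) : Cx I →L[ℝ] ℝ)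
    + w (i, 1) • (EuclideanSpace.proj (i, 1) : Cx I →L[ℝ] ℝ) else 0

/-- derivative with respect to `w` of `e_a * m_b / m_a` -/
noncomputable def dE (κ : I → ZMod p) (θ : Par p I → ℝ) (a b : Ty p) (w : Cx I) : Cx I →L[ℝ] ℝ :=
  pe θ a • ((2 / mm κ 1 a w) • ipA κ b w - (2 * mm κ 1 b w / mm κ 1 a w ^ 2) • ipA κ a w)

/-- derivatives with respect to `w` of the functions `FF` -/
noncomputable def GG (κ : I → ZMod p) (θ : Par p I → ℝ) (w : Cx I) :
    Opt p → Fin 2 → (Cx I →L[ℝ] ℝ)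
  | Sum.inl a => ![xire κ θ a, xiim κ θ a]
  | Sum.inr (Sum.inl (a, b, l)) => ![dE κ θ a b w, xiim κ θ a - tl p l • xire κ θ a]
  | Sum.inr (Sum.inr (a, b, c)) => ![dE κ θ a b w, dE κ θ a c w]

open Classical in
/-- the weight: densities of the target parameters, restricted to the region -/
noncomputable def Wt (κ : I → ZMod p) (θ : Par p I → ℝ) (w : Cx I) (o : Opt p) : ℝ≥0∞ :=
  if Rg κ θ w o then hd (tgt (I := I) o 0) (FF κ θ w o 0) * hd (tgt (I := I) o 1) (FF κ θ w o 1) else 0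

/-- squared norm of the part of type `a` -/
noncomputable def na (κ : I → ZMod p) (a : Ty p) (v : Cx I) : ℝ :=
  ∑ i, if κ i = a.1 then ‖cx v i‖ ^ 2 else 0

/-- trace of the projection to the part of type `a` on the image of an isometry -/
noncomputable def trA (κ : I → ZMod p) (a : Ty p) {d : ℕ}
    (U : EuclideanSpace ℝ (Fin d) →ₗᵢ[ℝ] Cx I) : ℝ :=
  ∑ k, na κ a (U (EuclideanSpace.single k 1))

/-- total weight -/
noncomputable def SS (p : ℕ) (w : Cx I) : ℝ := ((p : ℝ) - 1) + ‖w‖ ^ 2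

end measure


instance optFintype {p : ℕ} [NeZero p] : Fintype (Opt p) := inferInstance

/-- the linear map with given rows -/
noncomputable def rowMap {J V : Type} [Fintype J] [NormedAddCommGroup V] [NormedSpace ℝ V]
    (f : J → Fin 2 → (V →L[ℝ] ℝ)) : V →L[ℝ] Cx J :=
  (PiLp.continuousLinearEquiv 2 ℝ (fun _ : J × Fin 2 => ℝ)).symm.toContinuousLinearMap ∘L
    ContinuousLinearMap.pi (fun s => f s.1 s.2)

/-- regularity hypotheses: `Y` is C^1 on `G` and its values off `G` are values of C^1 maps with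
singular derivative -/
structure Reg {J I : Type} [Fintype J] [Fintype I] (Y : Cx J → Cx I) (G : Set (Cx J)) {B : Type}
    (YB : B → Cx J → Cx I) (GB : B → Set (Cx J)) : Prop where
  openG : IsOpen G
  diffG : ContDiffOn ℝ 1 Y G
  openB : ∀ b, IsOpen (GB b)
  diffB : ∀ b, ContDiffOn ℝ 1 (YB b) (GB b)
  kerB : ∀ b, ∀ x ∈ GB b, ∃ v : Cx J, v ≠ 0 ∧ fderiv ℝ (YB b) x v = 0
  cover : ∀ x, x ∉ G → ∃ b, ∃ x' ∈ GB b, Y x = YB b x'

/-- the hypotheses on an equivariant map -/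
structure EqMap {E F : Type} [NormedAddCommGroup E] [InnerProductSpace ℝ E]
    [NormedAddCommGroup F] [InnerProductSpace ℝ F] (g : E ≃ₗᵢ[ℝ] E) (h : F ≃ₗᵢ[ℝ] F)
    (Z : E → F) : Prop where
  cont : Continuous Z
  hom : ∀ t : ℝ, 0 < t → ∀ x, Z (t • x) = t • Z x
  ne : ∀ x, x ≠ 0 → Z x ≠ 0
  diff : ∀ x, x ≠ 0 → ContDiffAt ℝ 1 Z x
  equi : ∀ x, Z (g x) = h (Z x)


end Pool.Agent.KS6_54.LPG.Helper954.Hopf
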