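import Pool.Agent.KS6_54.LPG.Stm2

/-!
# Project LPG, task INS (helper46): gain by the insertion of a coordinate
-/

set_option autoImplicit false

namespace Pool.Agent.KS6_54.LPG.N46.LPG.INS

open Pool.Agent.KS6_54.LPG.N573.LPG Pool.Agent.KS6_54.LPG.H320R2.LD

theorem pr_comm {n : ℕ} (i j : Fin n) : pr i j = pr j i := by
  unfold pr
  simp [min_comm, max_comm]

theorem Wm_comm {n : ℕ} (g : U n → ℝ) (i j : Fin n) : Wm g i j = Wm g j i := by
  unfold Wm
  rw [pr_comm i j]
  by_cases h : i = j
  · simp [h]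
  · rw [if_neg h, if_neg (Ne.symm h)]

theorem Hf_neg {n : ℕ} (g : U n → ℝ) (y : Fin n → ℝ) : Hf g (-y) = Hf g y := by
  unfold Hf
  refine Finset.sum_congr rfl fun i _ => Finset.sum_congr rfl fun j _ => ?_
  simp

theorem dt_neg {n : ℕ} (v y : Fin n → ℝ) : dt v (-y) = -dt v y := by
  unfold dt
  rw [← Finset.sum_neg_distrib]
  refine Finset.sum_congr rfl fun i _ => ?_
  simp

theorem Kp_neg {p : ℝ} {n : ℕ} {S : Finset (Fin n)} {y : Fin n → ℝ} (hy : y ∈ Kp p S) :
    -y ∈ Kp p S := by
  refine ⟨?_, fun j hj => ?_⟩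
  · simpa using hy.1
  · have := hy.2 j hj
    simp [this]

theorem row_sum {n : ℕ} (g : U n → ℝ) (i : Fin n) (y : Fin n → ℝ) (hy : y i = 0) :
    ∑ b, Wm g i b * y b = dt (row g i) y := by
  unfold dt
  refine Finset.sum_congr rfl fun b _ => ?_
  by_cases h : i = b
  · rw [← h, hy, mul_zero, mul_zero]
  · unfold Wm row
    rw [if_neg h, one_mul]

/-- the value of the form at `θ y + e i` -/
theorem Hf_add {n : ℕ} (g : U n → ℝ) (i : Fin n) (y : Fin n → ℝ) (hy : y i = 0) (θ β : ℝ) :
    Hf g (fun j => θ * y j + if j = i then β else 0) =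
      θ ^ 2 * Hf g y + 2 * θ * β * dt (row g i) y + β ^ 2 * Wm g i i := by
  have h1 : ∀ a b, Wm g a b * (θ * y a + if a = i then β else 0) *
      (θ * y b + if b = i then β else 0) =
      θ ^ 2 * (Wm g a b * y a * y b) + θ * β * (if b = i then Wm g i a * y a else 0) +
      θ * β * (if a = i then Wm g i b * y b else 0) +
      β ^ 2 * (if a = i then if b = i then Wm g i i else 0 else 0) := by
    intro a b
    by_cases ha : a = i
    · by_cases hb : b = i
      · subst ha; subst hb
        simp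
        ring
      · subst ha
        simp [hb]
        ring
    · by_cases hb : b = i
      · subst hb
        simp [ha]
        rw [Wm_comm g a b]
        ring
      · simp [ha, hb]
        ring
  unfold Hf
  simp only [h1, Finset.sum_add_distrib, ← Finset.mul_sum]
  have e1 : ∑ a, ∑ b, (if b = i then Wm g i a * y a else 0) = dt (row g i) y := by
    rw [← row_sum g i y hy]
    refine Finset.sum_congr rfl fun a _ => ?_
    simp
  have e2 : ∑ a, ∑ b, (if a = i then Wm g i b * y b else 0) = dt (row g i) y := by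
    rw [← row_sum g i y hy, Finset.sum_comm]
    refine Finset.sum_congr rfl fun a _ => ?_
    simp
  have e3 : ∑ a : Fin n, ∑ b : Fin n, (if a = i then if b = i then Wm g i i else 0 else 0) =
      Wm g i i := by
    rw [Finset.sum_comm]
    simp
  rw [e1, e2, e3]
  ring

theorem t_INS (hATT : T_ATT) : T_INS := by
  intro p hp n hn β hβ hβp S g v i hi
  obtain ⟨y, hyK, hyM, hymax⟩ := hATT p hp n (insert i S) g (v + fun j => β * row g i j)
  obtain ⟨-, -, -, hmax0⟩ := hATT p hp n S g v
  set M' := M p (insert i S) g (v + fun j => β * row g i j) with hM'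
  set M0 := M p S g v with hM0
  have hn0 : (0 : ℝ) < n := by positivity
  have hn2 : (2 : ℝ) ≤ n := by exact_mod_cast hn
  have hp0 : 0 < p := by linarith
  have hβ0 : 0 < β := by linarith
  have hyi : y i = 0 := hyK.2 i (Finset.mem_insert_self _ _)
  set L := dt (v + fun j => β * row g i j) y with hL
  have hL0 : 0 ≤ L := by
    have := hymax (-y) (Kp_neg hyK)
    rw [Hf_neg, dt_neg, hyM] at this
    linarith
  have hzero : ∀ T : Finset (Fin n), (0 : Fin n → ℝ) ∈ Kp p T := by
    intro T
    refine ⟨?_, fun j _ => rfl⟩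
    simp [Real.zero_rpow hp0.ne']
  have hval0 : ∀ w : Fin n → ℝ, Hf g 0 + 2 * dt w 0 = 0 := by
    intro w
    unfold Hf dt
    simp
  have hM'0 : 0 ≤ M' := by
    have := hymax 0 (hzero _)
    rwa [hval0] at this
  have hM00 : 0 ≤ M0 := by
    have := hmax0 0 (hzero _)
    rwa [hval0] at this
  set P := β ^ p with hP
  have hP2 : β ^ 2 ≤ P := by
    rw [hP, ← Real.rpow_natCast β 2]
    exact Real.rpow_le_rpow_of_exponent_le hβ (by push_cast; linarith)
  have hP1 : β ≤ P := by nlinarith
  have hP0 : 0 < P := by linarith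
  -- θ
  set t : ℝ := P / n with ht
  have ht0 : 0 < t := by positivity
  have ht2 : t ≤ 1 / 2 := by
    rw [ht, div_le_iff₀ hn0]
    linarith
  set θ : ℝ := (1 - t) ^ (1 / p) with hθ
  have hb : 0 < 1 - t := by linarith
  have hθ0 : 0 < θ := Real.rpow_pos_of_pos hb _
  have hθ1 : θ ≤ 1 := Real.rpow_le_one hb.le (by linarith) (by positivity)
  have hθp : θ ^ p = 1 - t := by
    rw [hθ, ← Real.rpow_mul hb.le, one_div_mul_cancel hp0.ne', Real.rpow_one]
  have hθ2 : 1 - t ≤ θ ^ 2 := by
    rw [← hθp, ← Real.rpow_natCast θ 2]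
    exact Real.rpow_le_rpow_of_exponent_ge hθ0 hθ1 (by push_cast; linarith)
  have hθ2' : θ ^ 2 ≤ θ := by nlinarith
  -- z
  set z : Fin n → ℝ := fun j => θ * y j + if j = i then β else 0 with hz
  have hzK : z ∈ Kp p S := by
    refine ⟨?_, fun j hj => ?_⟩
    · have e : ∀ j, |z j| ^ p = θ ^ p * |y j| ^ p + if j = i then P else 0 := by
        intro j
        by_cases h : j = i
        · subst h
          rw [hz]
          simp [hyi, Real.zero_rpow hp0.ne', abs_of_pos hβ0, hP]
        · rw [hz]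
          simp only [h, if_false, add_zero]
          rw [abs_mul, abs_of_pos hθ0, Real.mul_rpow hθ0.le (abs_nonneg _)]
      simp only [e]
      rw [Finset.sum_add_distrib, ← Finset.mul_sum, hθp]
      simp only [Finset.sum_ite_eq', Finset.mem_univ, if_true]
      have h1 : (1 - t) * ∑ j, |y j| ^ p ≤ (1 - t) * n := mul_le_mul_of_nonneg_left hyK.1 hb.le
      have h2 : (1 - t) * n = n - P := by
        rw [ht]; field_simp
      linarith
    · have hji : j ≠ i := fun h => hi (h ▸ hj)
      have := hyK.2 j (Finset.mem_insert_of_mem hj)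
      rw [hz]
      simp [this, hji]
  have hzM := hmax0 z hzK
  have hdz : dt v z = θ * dt v y + β * v i := by
    rw [hz]
    unfold dt
    rw [Finset.mul_sum]
    have : ∀ j, v j * (θ * y j + if j = i then β else 0) =
        θ * (v j * y j) + if j = i then β * v i else 0 := by
      intro j
      by_cases h : j = i
      · subst h; simp; ring
      · simp [h]; ring
    simp only [this, Finset.sum_add_distrib]
    simp
  have hLs : L = dt v y + β * dt (row g i) y := by
    rw [hL]
    unfold dt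
    rw [Finset.mul_sum, ← Finset.sum_add_distrib]
    refine Finset.sum_congr rfl fun j _ => ?_
    simp
    ring
  rw [hdz, hz, Hf_add g i y hyi θ β] at hzM
  have hvi := neg_abs_le (v i)
  have hwi := neg_abs_le (Wm g i i)
  have hbv : -(P * |v i|) ≤ β * v i := by
    have e1 : β * |v i| ≤ P * |v i| := mul_le_mul_of_nonneg_right hP1 (abs_nonneg _)
    have e2 : β * (-|v i|) ≤ β * v i := mul_le_mul_of_nonneg_left hvi hβ0.le
    linarith
  have hbw : -(P * |Wm g i i|) ≤ β ^ 2 * Wm g i i := by
    have e1 : β ^ 2 * |Wm g i i| ≤ P * |Wm g i i| := mul_le_mul_of_nonneg_right hP2 (abs_nonneg _)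
    have e2 : β ^ 2 * (-|Wm g i i|) ≤ β ^ 2 * Wm g i i :=
      mul_le_mul_of_nonneg_left hwi (sq_nonneg _)
    linarith
  have key : (1 - t) * M' ≤ M0 + P * (|Wm g i i| + 2 * |v i|) := by
    have h1 : (1 - t) * M' ≤ θ ^ 2 * M' := mul_le_mul_of_nonneg_right hθ2 hM'0
    have h2 : θ ^ 2 * L ≤ θ * L := mul_le_mul_of_nonneg_right hθ2' hL0
    have h3 : θ ^ 2 * M' = θ ^ 2 * Hf g y + 2 * (θ ^ 2 * L) := by rw [hyM]; ring
    have h4 : 2 * (θ * L) = 2 * θ * β * dt (row g i) y + 2 * (θ * dt v y) := by rw [hLs]; ring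
    linarith
  have hc0 : 0 ≤ P * (|Wm g i i| + 2 * |v i|) := by positivity
  set c := P * (|Wm g i i| + 2 * |v i|) with hc
  have hfin : M' ≤ (1 + 2 * t) * M0 + 3 * c := by
    have h1 : (1 - t) * M' ≤ (1 - t) * ((1 + 2 * t) * M0 + 3 * c) := by
      have h2 : M0 ≤ (1 - t) * ((1 + 2 * t) * M0) := by
        have : (1 - t) * ((1 + 2 * t) * M0) = M0 + t * (1 - 2 * t) * M0 := by ring
        rw [this]
        have : 0 ≤ t * (1 - 2 * t) * M0 :=
          mul_nonneg (mul_nonneg ht0.le (by linarith)) hM00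
        linarith
      have h3 : c ≤ (1 - t) * (3 * c) := by nlinarith
      linarith
    exact le_of_mul_le_mul_left h1 hb
  have h2t : P * (2 / (n : ℝ) * M0) = 2 * t * M0 := by rw [ht]; ring
  have h3t : P * (2 / (n : ℝ) * M0 + 6 * |v i| + 3 * |Wm g i i|) =
      2 * t * M0 + P * (6 * |v i| + 3 * |Wm g i i|) := by rw [← h2t]; ring
  rw [h3t]
  rw [hc] at hfin
  linarith

end Pool.Agent.KS6_54.LPG.N46.LPG.INS
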