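import Mathlib
set_option autoImplicit false
set_option maxHeartbeats 1000000
namespace Pool.Agent.KS6_54.LPG.PZ871
open MeasureTheory Set
open scoped RealInnerProductSpace ENNReal

abbrev E (n : ℕ) := EuclideanSpace ℝ (Fin n)

/-- standard Gaussian measure on `E n` -/
noncomputable def gm (n : ℕ) : Measure (E n) := ProbabilityTheory.stdGaussian (E n)

/-- symmetric convex body -/
structure Body (n : ℕ) (K : Set (E n)) : Prop where
  cpt : IsCompact K
  cvx : Convex ℝ K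
  sym : ∀ x ∈ K, -x ∈ K
  int : ∃ r : ℝ, 0 < r ∧ Metric.ball 0 r ⊆ K

/-- Gaussian weight tilted by `g` -/
noncomputable def w (n : ℕ) (g x : E n) : ℝ := Real.exp (-‖x‖^2/2 + inner ℝ x g)
noncomputable def J (n : ℕ) (K : Set (E n)) (g : E n) : ℝ := ∫ x in K, w n g x
/-- barycenter of the tilted measure -/
noncomputable def bar (n : ℕ) (K : Set (E n)) (g : E n) : E n :=
  (J n K g)⁻¹ • ∫ x in K, w n g x • x

structure Dat (n : ℕ) (K : Set (E n)) (b : E n → E n) : Prop where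
  smooth : ContDiff ℝ 1 b
  symm : ∀ g x y, inner ℝ (fderiv ℝ b g x) y = inner ℝ x (fderiv ℝ b g y)
  pos : ∀ g x, x ≠ 0 → 0 < inner ℝ (fderiv ℝ b g x) x
  le1 : ∀ g x, inner ℝ (fderiv ℝ b g x) x ≤ ‖x‖^2
  odd : ∀ g, b (-g) = - b g
  mem : ∀ g, b g ∈ K

/-- the functional optimised by the position -/
noncomputable def Phi (n : ℕ) (K : Set (E n)) (T : E n →L[ℝ] E n) : ℝ :=
  (9/10) * Real.log |LinearMap.det (T : E n →ₗ[ℝ] E n)| +
    ∫ g, Real.log (∫ x in K, w n g (T x)) ∂(gm n)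

def NearOpt (n : ℕ) (K : Set (E n)) : Prop :=
  ∀ T : E n →L[ℝ] E n, LinearMap.det (T : E n →ₗ[ℝ] E n) ≠ 0 →
    Phi n K T ≤ Phi n K (ContinuousLinearMap.id ℝ (E n)) + 1/10000

end Pool.Agent.KS6_54.LPG.PZ871
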