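import Pool.Agent.KS6_54.LPG.Defs
import Pool.Agent.KS6_54.LPG.Pl
import Pool.Agent.KS6_54.LPG.AF

set_option autoImplicit false

/-!
# Task MGF: Gaussian concentration from Prekopa-Leindler
-/

open MeasureTheory ProbabilityTheory Set
open scoped ENNReal

namespace Pool.Agent.KS6_54.LPG.H320R2.LD.MGF

noncomputable section

open Pool.Agent.KS6_54.LPG.H320R2.LD

/-- the product density -/
def den (n : ℕ) (x : Fin n → ℝ) : ℝ≥0∞ := ∏ i, gaussianPDF 0 1 (x i)

/-- the real product density -/
def denR (n : ℕ) (x : Fin n → ℝ) : ℝ := ∏ i, gaussianPDFReal 0 1 (x i)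

theorem den_eq (n : ℕ) (x : Fin n → ℝ) : den n x = ENNReal.ofReal (denR n x) := by
  rw [den, denR, ENNReal.ofReal_prod_of_nonneg (fun i _ => gaussianPDFReal_nonneg 0 1 (x i))]
  rfl

theorem denR_nonneg (n : ℕ) (x : Fin n → ℝ) : 0 ≤ denR n x :=
  Finset.prod_nonneg fun i _ => gaussianPDFReal_nonneg 0 1 (x i)

theorem den_meas (n : ℕ) : Measurable (den n) :=
  Finset.measurable_prod _ fun i _ => (measurable_gaussianPDF 0 1).comp (measurable_pi_apply i)

theorem gam_fin (n : ℕ) : gam (Fin n) = (volume : Measure (Fin n → ℝ)).withDensity (den n) := by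
  have h0 : gaussianReal 0 1 = (volume : Measure ℝ).withDensity (gaussianPDF 0 1) :=
    gaussianReal_of_var_ne_zero 0 one_ne_zero
  have : SigmaFinite ((volume : Measure ℝ).withDensity (gaussianPDF 0 1)) := by
    rw [← h0]; infer_instance
  unfold gam
  rw [show (fun _ : Fin n => gaussianReal 0 1) =
    fun i : Fin n => (volume : Measure ℝ).withDensity ((fun _ : Fin n => gaussianPDF 0 1) i) from
      funext fun _ => h0]
  have h1 := Pool.Agent.KS6_54.LPG.Helper954.Hopf.AF.AF.pi_withDensity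
    (fun _ : Fin n => gaussianPDF 0 1) (fun _ => measurable_gaussianPDF 0 1)
  rw [h1]
  rfl

theorem pdf_mul (s t : ℝ) : gaussianPDFReal 0 1 s * gaussianPDFReal 0 1 t =
    gaussianPDFReal 0 1 ((s + t) / 2) ^ 2 * Real.exp (-((s - t) ^ 2 / 4)) := by
  simp only [gaussianPDFReal, NNReal.coe_one, mul_one, sub_zero]
  have h1 : Real.exp (-s ^ 2 / 2) * Real.exp (-t ^ 2 / 2)
      = Real.exp (-((s + t) / 2) ^ 2 / 2) ^ 2 * Real.exp (-((s - t) ^ 2 / 4)) := by
    rw [← Real.exp_nat_mul, ← Real.exp_add, ← Real.exp_add]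
    congr 1
    push_cast
    ring
  calc _ = (√(2 * Real.pi))⁻¹ ^ 2 * (Real.exp (-s ^ 2 / 2) * Real.exp (-t ^ 2 / 2)) := by ring
    _ = _ := by rw [h1]; ring

theorem denR_mul (n : ℕ) (s t : Fin n → ℝ) : denR n s * denR n t =
    denR n (fun i => (s i + t i) / 2) ^ 2 * Real.exp (-(nsq (s - t) / 4)) := by
  unfold denR nsq
  rw [← Finset.prod_mul_distrib, ← Finset.prod_pow, Finset.sum_div, ← Finset.sum_neg_distrib,
    Real.exp_sum, ← Finset.prod_mul_distrib]
  exact Finset.prod_congr rfl fun i _ => pdf_mul (s i) (t i)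

theorem nsq_nonneg {V : Type} [Fintype V] (x : V → ℝ) : 0 ≤ nsq x :=
  Finset.sum_nonneg fun _ _ => sq_nonneg _

theorem nrm_nonneg {V : Type} [Fintype V] (x : V → ℝ) : 0 ≤ nrm x := Real.sqrt_nonneg _

theorem nrm_sq {V : Type} [Fintype V] (x : V → ℝ) : nrm x ^ 2 = nsq x :=
  Real.sq_sqrt (nsq_nonneg x)

theorem main_fin (n : ℕ) (φ : (Fin n → ℝ) → ℝ) (hφ : Measurable φ) (c : ℝ)
    (h : ∀ x y, φ y - φ x ≤ c * nrm (x - y)) :
    (∫⁻ x, ENNReal.ofReal (Real.exp (-φ x)) ∂(gam (Fin n))) *
      (∫⁻ x, ENNReal.ofReal (Real.exp (φ x)) ∂(gam (Fin n))) ≤ ENNReal.ofReal (Real.exp (c ^ 2)) := by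
  have hm1 : Measurable fun x => ENNReal.ofReal (Real.exp (-φ x)) :=
    (Real.measurable_exp.comp hφ.neg).ennreal_ofReal
  have hm2 : Measurable fun x => ENNReal.ofReal (Real.exp (φ x - c ^ 2)) :=
    (Real.measurable_exp.comp (hφ.sub_const _)).ennreal_ofReal
  have key := Pool.Agent.KS6_54.LPG.PZ871.PLaux.pln n
    (fun s => den n s * ENNReal.ofReal (Real.exp (-φ s)))
    (fun t => den n t * ENNReal.ofReal (Real.exp (φ t - c ^ 2))) (den n)
    ((den_meas n).mul hm1) ((den_meas n).mul hm2) (den_meas n) (by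
      intro s t
      simp only [den_eq]
      rw [← ENNReal.ofReal_mul (denR_nonneg n s), ← ENNReal.ofReal_mul (denR_nonneg n t),
        ← ENNReal.ofReal_mul (mul_nonneg (denR_nonneg n s) (Real.exp_pos _).le),
        ← ENNReal.ofReal_pow (denR_nonneg n _)]
      apply ENNReal.ofReal_le_ofReal
      calc denR n s * Real.exp (-φ s) * (denR n t * Real.exp (φ t - c ^ 2))
          = denR n s * denR n t * (Real.exp (-φ s) * Real.exp (φ t - c ^ 2)) := by ring
        _ = denR n (fun i => (s i + t i) / 2) ^ 2 *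
            Real.exp (-(nsq (s - t) / 4) + (-φ s + (φ t - c ^ 2))) := by
            rw [denR_mul, Real.exp_add, Real.exp_add]; ring
        _ ≤ denR n (fun i => (s i + t i) / 2) ^ 2 * 1 := by
            apply mul_le_mul_of_nonneg_left _ (sq_nonneg _)
            rw [Real.exp_le_one_iff]
            have h1 := h s t
            have h2 := nrm_sq (s - t)
            nlinarith [sq_nonneg (nrm (s - t) - 2 * c)]
        _ = _ := mul_one _)
  have e1 : ∫⁻ x, ENNReal.ofReal (Real.exp (-φ x)) ∂(gam (Fin n))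
      = ∫⁻ s, den n s * ENNReal.ofReal (Real.exp (-φ s)) := by
    rw [gam_fin, lintegral_withDensity_eq_lintegral_mul _ (den_meas n) hm1]
    rfl
  have e2 : ∫⁻ x, ENNReal.ofReal (Real.exp (φ x - c ^ 2)) ∂(gam (Fin n))
      = ∫⁻ s, den n s * ENNReal.ofReal (Real.exp (φ s - c ^ 2)) := by
    rw [gam_fin, lintegral_withDensity_eq_lintegral_mul _ (den_meas n) hm2]
    rfl
  have e3 : ∫⁻ s, den n s = 1 := by
    have : gam (Fin n) univ = 1 := measure_univ
    rw [gam_fin, withDensity_apply _ MeasurableSet.univ, Measure.restrict_univ] at this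
    exact this
  rw [← e1, ← e2, e3, one_pow] at key
  have e4 : ∫⁻ x, ENNReal.ofReal (Real.exp (φ x)) ∂(gam (Fin n))
      = ENNReal.ofReal (Real.exp (c ^ 2)) *
        ∫⁻ x, ENNReal.ofReal (Real.exp (φ x - c ^ 2)) ∂(gam (Fin n)) := by
    rw [← lintegral_const_mul _ hm2]
    apply lintegral_congr
    intro x
    rw [← ENNReal.ofReal_mul (Real.exp_pos _).le, ← Real.exp_add]
    congr 2
    ring
  rw [e4, mul_left_comm]
  calc _ ≤ ENNReal.ofReal (Real.exp (c ^ 2)) * 1 := by gcongr
    _ = _ := mul_one _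

theorem lip_continuous {V : Type} [Fintype V] {L : ℝ} {f : (V → ℝ) → ℝ} (hL : 0 ≤ L)
    (hf : Lip L f) : Continuous f := by
  have hn : ∀ x : V → ℝ, nrm x ≤ Real.sqrt (Fintype.card V) * ‖x‖ := by
    intro x
    unfold nrm nsq
    calc Real.sqrt (∑ v, x v ^ 2) ≤ Real.sqrt (∑ _v : V, ‖x‖ ^ 2) := by
          apply Real.sqrt_le_sqrt
          apply Finset.sum_le_sum
          intro v _
          have := norm_le_pi_norm x v
          rw [Real.norm_eq_abs] at this
          rw [← sq_abs (x v)]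
          exact pow_le_pow_left₀ (abs_nonneg _) this 2
      _ = Real.sqrt (Fintype.card V) * ‖x‖ := by
          rw [Finset.sum_const, Finset.card_univ, nsmul_eq_mul,
            Real.sqrt_mul (Nat.cast_nonneg _), Real.sqrt_sq (norm_nonneg _)]
  have : LipschitzWith (Real.toNNReal (L * Real.sqrt (Fintype.card V))) f := by
    apply LipschitzWith.of_dist_le_mul
    intro x y
    rw [Real.coe_toNNReal _ (mul_nonneg hL (Real.sqrt_nonneg _)), Real.dist_eq, dist_eq_norm]
    calc |f x - f y| ≤ L * nrm (x - y) := hf x y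
      _ ≤ L * (Real.sqrt (Fintype.card V) * ‖x - y‖) := mul_le_mul_of_nonneg_left (hn _) hL
      _ = _ := by ring
  exact this.continuous

theorem main_gen {V : Type} [Fintype V] (φ : (V → ℝ) → ℝ) (hφ : Measurable φ) (c : ℝ)
    (h : ∀ x y, φ y - φ x ≤ c * nrm (x - y)) :
    (∫⁻ x, ENNReal.ofReal (Real.exp (-φ x)) ∂(gam V)) *
      (∫⁻ x, ENNReal.ofReal (Real.exp (φ x)) ∂(gam V)) ≤ ENNReal.ofReal (Real.exp (c ^ 2)) := by
  let e := (Fintype.equivFin V).symm
  have hmp : MeasurePreserving (MeasurableEquiv.piCongrLeft (fun _ : V => ℝ) e)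
      (gam (Fin (Fintype.card V))) (gam V) :=
    measurePreserving_piCongrLeft (fun _ : V => gaussianReal 0 1) e
  rw [← hmp.lintegral_comp_emb (MeasurableEquiv.measurableEmbedding _),
    ← hmp.lintegral_comp_emb (MeasurableEquiv.measurableEmbedding _)]
  apply main_fin _ (fun x => φ (MeasurableEquiv.piCongrLeft (fun _ : V => ℝ) e x))
    (hφ.comp (MeasurableEquiv.measurable _)) c
  intro x y
  have hn : nrm (MeasurableEquiv.piCongrLeft (fun _ : V => ℝ) e x
      - MeasurableEquiv.piCongrLeft (fun _ : V => ℝ) e y) = nrm (x - y) := by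
    unfold nrm nsq
    congr 1
    rw [← e.sum_comp]
    apply Finset.sum_congr rfl
    intro i _
    simp only [Pi.sub_apply, MeasurableEquiv.coe_piCongrLeft]
    rw [Equiv.piCongrLeft_apply_apply, Equiv.piCongrLeft_apply_apply]
  have := h (MeasurableEquiv.piCongrLeft (fun _ : V => ℝ) e x)
    (MeasurableEquiv.piCongrLeft (fun _ : V => ℝ) e y)
  rwa [hn] at this

theorem exp_integrable {V : Type} [Fintype V] (φ : (V → ℝ) → ℝ) (hφ : Measurable φ) (c : ℝ)
    (h : ∀ x y, φ y - φ x ≤ c * nrm (x - y)) :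
    Integrable (fun x => Real.exp (φ x)) (gam V) := by
  have key := main_gen φ hφ c h
  have hm : ∀ ψ : (V → ℝ) → ℝ, Measurable ψ →
      (∫⁻ x, ENNReal.ofReal (Real.exp (ψ x)) ∂(gam V)) ≠ 0 := by
    intro ψ hψ h0
    have hmm : Measurable fun x => ENNReal.ofReal (Real.exp (ψ x)) :=
      (Real.measurable_exp.comp hψ).ennreal_ofReal
    rw [lintegral_eq_zero_iff hmm] at h0
    have h1 : ∀ᵐ x ∂(gam V), False := by
      filter_upwards [h0] with x hx
      simp only [Pi.zero_apply, ENNReal.ofReal_eq_zero] at hx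
      exact absurd hx (not_le.2 (Real.exp_pos _))
    have h2 := h1.exists
    obtain ⟨x, hx⟩ := h2
    exact hx
  have hfin : (∫⁻ x, ENNReal.ofReal (Real.exp (φ x)) ∂(gam V)) < ⊤ := by
    by_contra hc
    rw [not_lt, top_le_iff] at hc
    rw [hc, ENNReal.mul_top (hm (fun x => -φ x) hφ.neg)] at key
    exact absurd key (not_le.2 ENNReal.ofReal_lt_top)
  refine ⟨(Real.measurable_exp.comp hφ).aestronglyMeasurable, ?_⟩
  rw [hasFiniteIntegral_iff_ofReal (Filter.Eventually.of_forall fun x => (Real.exp_pos _).le)]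
  exact hfin

end

end Pool.Agent.KS6_54.LPG.H320R2.LD.MGF

namespace Pool.Agent.KS6_54.LPG.H320R2.LD

open MGF

theorem prove_MGF : St_MGF := by
  intro V _ f L hL hf
  have hcont := lip_continuous hL.le hf
  have hmeas := hcont.measurable
  have hlam : ∀ lam : ℝ, ∀ x y, lam * f y - lam * f x ≤ (|lam| * L) * nrm (x - y) := by
    intro lam x y
    calc lam * f y - lam * f x ≤ |lam * f y - lam * f x| := le_abs_self _
      _ = |lam| * |f x - f y| := by rw [← mul_sub, abs_mul, abs_sub_comm]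
      _ ≤ |lam| * (L * nrm (x - y)) := mul_le_mul_of_nonneg_left (hf x y) (abs_nonneg _)
      _ = _ := by ring
  have hexp : ∀ lam : ℝ, Integrable (fun x => Real.exp (lam * f x)) (gam V) := fun lam =>
    exp_integrable (fun x => lam * f x) (hmeas.const_mul lam) (|lam| * L) (hlam lam)
  have hint : Integrable f (gam V) := by
    have h1 := hexp 1
    have h2 := hexp (-1)
    refine (h1.add h2).mono' hmeas.aestronglyMeasurable (Filter.Eventually.of_forall fun x => ?_)
    simp only [Pi.add_apply, one_mul, neg_mul, Real.norm_eq_abs]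
    rcases abs_cases (f x) with ⟨h, _⟩ | ⟨h, _⟩
    · rw [h]
      have := Real.add_one_le_exp (f x)
      have := Real.exp_pos (-f x)
      linarith
    · rw [h]
      have := Real.add_one_le_exp (-f x)
      have := Real.exp_pos (f x)
      linarith
  refine ⟨hint, hexp, fun lam => ?_⟩
  set E := ∫ y, f y ∂(gam V) with hE
  have key := main_gen (fun x => lam * f x) (hmeas.const_mul lam) (|lam| * L) (hlam lam)
  have i1 : Integrable (fun x => Real.exp (-(lam * f x))) (gam V) := by
    have := hexp (-lam)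
    simpa only [neg_mul] using this
  rw [← ofReal_integral_eq_lintegral_ofReal i1
      (Filter.Eventually.of_forall fun x => (Real.exp_pos _).le),
    ← ofReal_integral_eq_lintegral_ofReal (hexp lam)
      (Filter.Eventually.of_forall fun x => (Real.exp_pos _).le),
    ← ENNReal.ofReal_mul (integral_nonneg fun x => (Real.exp_pos _).le),
    ENNReal.ofReal_le_ofReal_iff (Real.exp_pos _).le] at key
  have hJ : Real.exp (-(lam * E)) ≤ ∫ x, Real.exp (-(lam * f x)) ∂(gam V) := by
    have h1 : ∫ x, (1 + (-(lam * f x) + lam * E)) ∂(gam V)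
        ≤ ∫ x, Real.exp (-(lam * f x)) * Real.exp (lam * E) ∂(gam V) := by
      apply integral_mono
      · exact (integrable_const 1).add (((hint.const_mul lam).neg).add (integrable_const _))
      · exact i1.mul_const _
      · intro x
        simp only
        rw [← Real.exp_add]
        have := Real.add_one_le_exp (-(lam * f x) + lam * E)
        linarith
    have h2 : ∫ x, (1 + (-(lam * f x) + lam * E)) ∂(gam V) = 1 := by
      have a1 : ∫ x, (1 + (-(lam * f x) + lam * E)) ∂(gam V)
          = ∫ _x, (1 : ℝ) ∂(gam V) + ∫ x, (-(lam * f x) + lam * E) ∂(gam V) :=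
        integral_add (integrable_const 1) (((hint.const_mul lam).neg).add (integrable_const _))
      have a2 : ∫ x, (-(lam * f x) + lam * E) ∂(gam V)
          = ∫ x, -(lam * f x) ∂(gam V) + ∫ _x, lam * E ∂(gam V) :=
        integral_add ((hint.const_mul lam).neg) (integrable_const _)
      rw [a1, a2, integral_neg, integral_const_mul]
      simp [← hE]
    rw [h2, integral_mul_const] at h1
    have h3 : 0 < Real.exp (lam * E) := Real.exp_pos _
    rw [Real.exp_neg, inv_le_iff_one_le_mul₀ h3]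
    exact h1
  have h4 : ∫ x, Real.exp (lam * (f x - E)) ∂(gam V)
      = (∫ x, Real.exp (lam * f x) ∂(gam V)) * Real.exp (-(lam * E)) := by
    rw [← integral_mul_const]
    congr 1
    ext x
    rw [← Real.exp_add]
    congr 1
    ring
  rw [h4]
  calc (∫ x, Real.exp (lam * f x) ∂(gam V)) * Real.exp (-(lam * E))
      ≤ (∫ x, Real.exp (lam * f x) ∂(gam V)) * ∫ x, Real.exp (-(lam * f x)) ∂(gam V) :=
        mul_le_mul_of_nonneg_left hJ (integral_nonneg fun x => (Real.exp_pos _).le)
    _ = (∫ x, Real.exp (-(lam * f x)) ∂(gam V)) * ∫ x, Real.exp (lam * f x) ∂(gam V) :=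
        mul_comm _ _
    _ ≤ Real.exp ((|lam| * L) ^ 2) := key
    _ = Real.exp (lam ^ 2 * L ^ 2) := by rw [mul_pow, sq_abs]

end Pool.Agent.KS6_54.LPG.H320R2.LD
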