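import Pool.Agent.KS6_54.LPG.Prob

set_option autoImplicit false

open MeasureTheory ProbabilityTheory Filter Topology

namespace Pool.Agent.KS6_54.LPG.N573.LPG

open Pool.Agent.KS6_54.LPG.H320R2.LD

noncomputable section

variable {n : ℕ} {p : ℝ}

/-- deterministic part of the bound for the linear response -/
theorem resp_det (hREM : T_REM) (hINS : T_INS) (hN : T_NRM) (hp : 2 < p) (hn : 2 ≤ n)
    {b : ℝ} (hb : 1 ≤ b) (hbp : b ^ p ≤ n / 2) (S : Finset (Fin n)) (hS : S.card ≤ 1) (g : U n → ℝ) (v : Fin n → ℝ) (Cm t : ℝ) (hCm : 0 ≤ Cm)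
    (ht : 0 ≤ t) (h1 : M p ∅ g 0 ≤ Cm * (n * Real.sqrt n)) (h2 : nrm v ≤ 6 * n)
    (h3 : nrm (dg g) ≤ 2 * Real.sqrt n)
    (h4 : ∀ i ∉ S, RI p b (insert i S) g v ≤ M p (insert i S) g (v + fun j => b * row g i j) + t) :
    Rr p b S g v ≤ 2 * (6 * Cm + 160) * (b ^ p * Real.sqrt n) + t := by
  classical
  have hn1 : 1 ≤ n := by omega
  have hnR : (2 : ℝ) ≤ n := by exact_mod_cast hn
  have hb0 : 0 < b := by linarith
  set P := b ^ p with hP
  have hP2 : b ^ 2 ≤ P := by
    rw [hP, ← Real.rpow_natCast b 2]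
    exact Real.rpow_le_rpow_of_exponent_le hb (by push_cast; linarith)
  have hP1 : 1 ≤ P := by nlinarith
  set s := Real.sqrt n with hs
  have hs0 : 0 ≤ s := Real.sqrt_nonneg _
  have hss : s * s = n := Real.mul_self_sqrt (by linarith)
  have hs1 : 1 ≤ s := by
    rw [hs]; exact Real.one_le_sqrt.2 (by linarith)
  have hsn : s ≤ n := by nlinarith
  have hbs : b ≤ s := by
    rw [hs]
    apply Real.le_sqrt_of_sq_le
    linarith
  set a := (n : ℝ) * s with ha
  have hna : (n : ℝ) ≤ a := by nlinarith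
  have ha0 : 0 ≤ a := by positivity
  have r2 : Real.sqrt 2 ≤ 3 / 2 := by
    rw [Real.sqrt_le_left (by norm_num)]; norm_num
  have r20 : 0 ≤ Real.sqrt 2 := Real.sqrt_nonneg _
  -- bounds for M
  have hM0 : ∀ (T : Finset (Fin n)) (v' : Fin n → ℝ), M p T g v' ≤ Cm * a + 2 * s * nrm v' := by
    intro T v'
    have e1 := (abs_le.1 (t_LIP p hp n ∅ g g v' 0)).2
    rw [sub_self, nrm_zero, mul_zero, zero_add, sub_zero] at e1
    have e2 := M_mono hp (Finset.empty_subset T) g v'
    linarith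
  obtain ⟨hi, hle⟩ := hN (Fin n)
  rw [Fintype.card_fin] at hle
  have hv0 := nrm_nn v
  have hsv : s * nrm v ≤ 6 * a := by
    have := mul_le_mul_of_nonneg_left h2 hs0
    nlinarith
  have hMv : ∀ T : Finset (Fin n), M p T g v ≤ (Cm + 12) * a := by
    intro T
    have := hM0 T v
    nlinarith
  -- the integral of the removal costs
  have hcard : ((Sᶜ : Finset (Fin n)).card : ℝ) ≥ n / 2 := by
    rw [Finset.card_compl, Fintype.card_fin]
    have : (n : ℝ) - 1 ≤ ((n - S.card : ℕ) : ℝ) := by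
      have h5 : n - 1 ≤ n - S.card := by omega
      have h6 : ((n - 1 : ℕ) : ℝ) ≤ ((n - S.card : ℕ) : ℝ) := by exact_mod_cast h5
      rw [Nat.cast_sub hn1] at h6
      push_cast at h6
      exact h6
    linarith
  have hsum : ∑ i ∈ Sᶜ, Rr p b S g v ≤ ∑ i ∈ Sᶜ, ((M p S g v - M p (insert i S) g v) +
      P * (2 / n * M p S g v + 6 * |v i| + 3 * |Wm g i i|) + t +
      (RI p b S g v - RI p b (insert i S) g v)) := by
    refine Finset.sum_le_sum fun i hi' => ?_
    have hiS : i ∉ S := Finset.mem_compl.1 hi'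
    have e1 := h4 i hiS
    have e2 := hINS p hp n hn b hb hbp S g v i hiS
    rw [← hP] at e2
    have e3 := M_mono hp (Finset.subset_insert i S) g v
    unfold Rr
    linarith
  rw [Finset.sum_const, nsmul_eq_mul] at hsum
  have b1 := hREM p hp n S g v
  have b4 : ∑ i ∈ Sᶜ, (RI p b S g v - RI p b (insert i S) g v) ≤ (2 * Cm + 45) * a := by
    have e1 : ∑ i ∈ Sᶜ, (RI p b S g v - RI p b (insert i S) g v) =
        ∫ w : Fin n → ℝ, ∑ i ∈ Sᶜ, (M p S g (v + fun j => b * w j) -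
          M p (insert i S) g (v + fun j => b * w j)) ∂(gam (Fin n)) := by
      rw [integral_finsetSum]
      · refine Finset.sum_congr rfl fun i _ => ?_
        rw [integral_sub (int_M hn1 hp hb0 S g v) (int_M hn1 hp hb0 (insert i S) g v)]
        rfl
      · intro i _
        exact (int_M hn1 hp hb0 S g v).sub (int_M hn1 hp hb0 (insert i S) g v)
    rw [e1]
    have e2 : ∀ w : Fin n → ℝ, ∑ i ∈ Sᶜ, (M p S g (v + fun j => b * w j) -
        M p (insert i S) g (v + fun j => b * w j)) ≤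
        (2 * Cm + 39) * a + 6 * s * (b * nrm w) := by
      intro w
      have f1 := hREM p hp n S g (v + fun j => b * w j)
      have f2 := hM0 S (v + fun j => b * w j)
      have f3 := nrm_add_le v (fun j => b * w j)
      rw [nrm_smul, abs_of_pos hb0] at f3
      have f4 : 2 * s * nrm (v + fun j => b * w j) ≤ 12 * a + 2 * s * (b * nrm w) := by
        have := mul_le_mul_of_nonneg_left f3 hs0
        nlinarith
      have f5 : Real.sqrt 2 * nrm (dg g) * n ≤ 3 * a := by
        have g1 : Real.sqrt 2 * nrm (dg g) ≤ 3 / 2 * (2 * s) :=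
          mul_le_mul r2 h3 (nrm_nn _) (by norm_num)
        have := mul_le_mul_of_nonneg_right g1 (show (0:ℝ) ≤ n by linarith)
        nlinarith
      nlinarith
    calc ∫ w : Fin n → ℝ, ∑ i ∈ Sᶜ, (M p S g (v + fun j => b * w j) -
          M p (insert i S) g (v + fun j => b * w j)) ∂(gam (Fin n))
        ≤ ∫ w, ((2 * Cm + 39) * a + 6 * s * (b * nrm w)) ∂(gam (Fin n)) := by
          refine integral_mono ?_ ((integrable_const _).add ((hi.const_mul _).const_mul _)) e2
          exact integrable_finsetSum _ fun i _ =>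
            (int_M hn1 hp hb0 S g v).sub (int_M hn1 hp hb0 (insert i S) g v)
      _ = (2 * Cm + 39) * a + 6 * s * (b * ∫ w, nrm w ∂(gam (Fin n))) := by
          have e3 : ∫ w, 6 * s * (b * nrm w) ∂(gam (Fin n)) =
              6 * s * (b * ∫ w, nrm w ∂(gam (Fin n))) := by
            rw [integral_const_mul, integral_const_mul]
          rw [integral_add (integrable_const _) ((hi.const_mul _).const_mul _), e3]
          simp
      _ ≤ (2 * Cm + 45) * a := by
          have g1 : b * ∫ w, nrm w ∂(gam (Fin n)) ≤ s * s :=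
            mul_le_mul hbs hle (integral_nonneg fun w => nrm_nn w) hs0
          have g2 := mul_le_mul_of_nonneg_left g1 hs0
          have g3 : s * (s * s) = a := by rw [hss, ha]; ring
          rw [g3] at g2
          nlinarith
  have b2 : ∑ i ∈ Sᶜ, |v i| ≤ 6 * a := by
    have e1 : ∑ i ∈ Sᶜ, |v i| ≤ ∑ i, |v i| :=
      Finset.sum_le_univ_sum_of_nonneg fun i => abs_nonneg _
    have e2 := Finset.sum_mul_sq_le_sq_mul_sq Finset.univ (fun _ : Fin n => (1 : ℝ)) (fun i => |v i|)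
    simp only [one_mul, one_pow, Finset.sum_const, Finset.card_univ, Fintype.card_fin,
      nsmul_eq_mul, mul_one, sq_abs] at e2
    have e3 : (∑ i, |v i|) ^ 2 ≤ (s * nrm v) ^ 2 := by
      rw [mul_pow, nrm_sq', sq s, hss]
      exact e2
    have e4 : ∑ i, |v i| ≤ s * nrm v :=
      (sq_le_sq₀ (Finset.sum_nonneg fun _ _ => abs_nonneg _) (mul_nonneg hs0 hv0)).1 e3
    linarith
  have b3 : ∑ i ∈ Sᶜ, |Wm g i i| ≤ 3 * a := by
    have e1 : ∑ i ∈ Sᶜ, |Wm g i i| ≤ ∑ i, |Wm g i i| :=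
      Finset.sum_le_univ_sum_of_nonneg fun i => abs_nonneg _
    have e0 : ∀ i, |Wm g i i| = Real.sqrt 2 * |dg g i| := by
      intro i
      unfold Wm dg
      rw [if_pos rfl, abs_mul, abs_of_nonneg r20]
    have e2 := Finset.sum_mul_sq_le_sq_mul_sq Finset.univ (fun _ : Fin n => (1 : ℝ))
      (fun i => |dg g i|)
    simp only [one_mul, one_pow, Finset.sum_const, Finset.card_univ, Fintype.card_fin,
      nsmul_eq_mul, mul_one, sq_abs] at e2
    have e3 : (∑ i, |dg g i|) ^ 2 ≤ (s * nrm (dg g)) ^ 2 := by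
      rw [mul_pow, nrm_sq', sq s, hss]
      exact e2
    have e4 : ∑ i, |dg g i| ≤ s * nrm (dg g) :=
      (sq_le_sq₀ (Finset.sum_nonneg fun _ _ => abs_nonneg _) (mul_nonneg hs0 (nrm_nn _))).1 e3
    have e5 : ∑ i, |Wm g i i| = Real.sqrt 2 * ∑ i, |dg g i| := by
      rw [Finset.mul_sum]; exact Finset.sum_congr rfl fun i _ => e0 i
    have e6 : s * nrm (dg g) ≤ 2 * n := by
      have := mul_le_mul_of_nonneg_left h3 hs0
      nlinarith
    have e7 : Real.sqrt 2 * ∑ i, |dg g i| ≤ 3 / 2 * (2 * n) :=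
      mul_le_mul r2 (e4.trans e6) (Finset.sum_nonneg fun _ _ => abs_nonneg _) (by norm_num)
    linarith
  have b5 : ∑ i ∈ (Sᶜ : Finset (Fin n)), 2 / (n : ℝ) * M p S g v ≤ 2 * ((Cm + 12) * a) := by
    rw [Finset.sum_const, nsmul_eq_mul]
    have e1 : ((Sᶜ : Finset (Fin n)).card : ℝ) ≤ n := by
      have := Finset.card_le_univ (Sᶜ : Finset (Fin n))
      rw [Fintype.card_fin] at this
      exact_mod_cast this
    have e2 := hMv S
    have e3 := M_nonneg hp S g v
    have e4 : 0 ≤ 2 / (n : ℝ) * M p S g v := by positivity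
    calc ((Sᶜ : Finset (Fin n)).card : ℝ) * (2 / (n : ℝ) * M p S g v)
        ≤ n * (2 / (n : ℝ) * M p S g v) := mul_le_mul_of_nonneg_right e1 e4
      _ = 2 * M p S g v := by field_simp
      _ ≤ _ := by linarith
  have b6 : ∑ i ∈ (Sᶜ : Finset (Fin n)), t = ((Sᶜ : Finset (Fin n)).card : ℝ) * t := by
    rw [Finset.sum_const, nsmul_eq_mul]
  have hsplit : ∑ i ∈ Sᶜ, ((M p S g v - M p (insert i S) g v) +
      P * (2 / n * M p S g v + 6 * |v i| + 3 * |Wm g i i|) + t +
      (RI p b S g v - RI p b (insert i S) g v)) =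
      ∑ i ∈ Sᶜ, (M p S g v - M p (insert i S) g v) +
      P * (∑ i ∈ (Sᶜ : Finset (Fin n)), 2 / (n : ℝ) * M p S g v +
      6 * ∑ i ∈ Sᶜ, |v i| + 3 * ∑ i ∈ Sᶜ, |Wm g i i|) + ∑ i ∈ (Sᶜ : Finset (Fin n)), t +
      ∑ i ∈ Sᶜ, (RI p b S g v - RI p b (insert i S) g v) := by
    rw [Finset.mul_sum, Finset.mul_sum]
    simp only [← Finset.sum_add_distrib, Finset.mul_sum]
  rw [hsplit, b6] at hsum
  have f5 : Real.sqrt 2 * nrm (dg g) * n ≤ 3 * a := by
    have g1 : Real.sqrt 2 * nrm (dg g) ≤ 3 / 2 * (2 * s) :=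
      mul_le_mul r2 h3 (nrm_nn _) (by norm_num)
    have := mul_le_mul_of_nonneg_right g1 (show (0:ℝ) ≤ n by linarith)
    nlinarith
  have hMS := hMv S
  have total : ((Sᶜ : Finset (Fin n)).card : ℝ) * (Rr p b S g v - t) ≤
      (6 * Cm + 160) * (P * a) := by
    have c1 : ∑ i ∈ (Sᶜ : Finset (Fin n)), 2 / (n : ℝ) * M p S g v +
      6 * ∑ i ∈ Sᶜ, |v i| + 3 * ∑ i ∈ Sᶜ, |Wm g i i| ≤ (2 * Cm + 69) * a := by nlinarith
    have c2 := mul_le_mul_of_nonneg_left c1 (show 0 ≤ P by linarith)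
    have c3 : (4 * Cm + 84) * a ≤ (4 * Cm + 84) * (P * a) := by
      apply mul_le_mul_of_nonneg_left _ (by linarith)
      nlinarith
    have c4 : 0 ≤ P * a := by positivity
    nlinarith
  -- divide
  by_cases hneg : Rr p b S g v - t ≤ 0
  · have : 0 ≤ 2 * (6 * Cm + 160) * (P * s) := by positivity
    linarith
  · push Not at hneg
    have e1 : (n : ℝ) / 2 * (Rr p b S g v - t) ≤ (6 * Cm + 160) * (P * a) :=
      (mul_le_mul_of_nonneg_right hcard hneg.le).trans total
    have e2 : (n : ℝ) * (Rr p b S g v - t) ≤ n * (2 * (6 * Cm + 160) * (P * s)) := by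
      rw [ha] at e1
      linarith
    have e3 := le_of_mul_le_mul_left e2 (by linarith)
    linarith

end

end Pool.Agent.KS6_54.LPG.N573.LPG
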