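import Pool.Agent.KS6_54.LPG.P1d

set_option autoImplicit false
set_option maxHeartbeats 400000

open MeasureTheory ProbabilityTheory Filter Topology

namespace Pool.Agent.KS6_54.LPG.N573.LPG

open Pool.Agent.KS6_54.LPG.H320R2.LD

noncomputable section

theorem Rr_abs (hN : T_NRM) {p : ℝ} (hp : 2 < p) {n : ℕ} (hn : 1 ≤ n) {b : ℝ} (hb : 1 ≤ b)
    (S : Finset (Fin n)) (g : U n → ℝ) (v : Fin n → ℝ) : ‖Rr p b S g v‖ ≤ b * (2 * n) := by
  have hn' : (1 : ℝ) ≤ n := by exact_mod_cast hn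
  have hb0 : 0 < b := by linarith
  have h2 : ∀ w : Fin n → ℝ, ‖M p S g (v + fun j => b * w j) - M p S g v‖ ≤
      2 * Real.sqrt n * (b * nrm w) := by
    intro w
    have := t_LIP p hp n S g g (v + fun j => b * w j) v
    rw [sub_self, nrm_zero, mul_zero, zero_add, add_sub_cancel_left, nrm_smul,
      abs_of_pos hb0] at this
    rwa [Real.norm_eq_abs]
  have h3 : Rr p b S g v = ∫ w : Fin n → ℝ, (M p S g (v + fun j => b * w j) - M p S g v)
      ∂(gam (Fin n)) := by
    rw [integral_sub (int_M hn hp hb0 S g _) (integrable_const _), integral_const]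
    have h4 : (gam (Fin n)).real Set.univ = 1 := by simp
    rw [h4, one_smul]
    unfold Rr RI
    rfl
  rw [h3]
  refine (norm_integral_le_of_norm_le (((hN (Fin n)).1.const_mul _).const_mul _)
        (Filter.Eventually.of_forall h2)).trans ?_
  rw [integral_const_mul, integral_const_mul]
  have h4 := (hN (Fin n)).2
  rw [Fintype.card_fin] at h4
  have h5 : 2 * Real.sqrt n * (b * ∫ w, nrm w ∂(gam (Fin n))) ≤
      2 * Real.sqrt n * (b * Real.sqrt n) :=
    mul_le_mul_of_nonneg_left (mul_le_mul_of_nonneg_left h4 hb0.le) (by positivity)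
  have h6 : 2 * Real.sqrt n * (b * Real.sqrt n) = b * (2 * (Real.sqrt n * Real.sqrt n)) := by ring
  rw [h6, Real.mul_self_sqrt (by linarith)] at h5
  exact h5

theorem ind_bound {V : Type} [Fintype V] {F : (V → ℝ) → ℝ} (hF : Continuous F) {b τ ε : ℝ}
    (hb : 0 ≤ b) (hτ : 0 ≤ τ) (hbd : ∀ u, ‖F u‖ ≤ b) {B : Set (V → ℝ)} (hBm : MeasurableSet B)
    (hout : ∀ u, u ∉ B → F u ≤ τ) (hr : (gam V).real B * b ≤ ε) :
    ∫ u, F u ∂(gam V) ≤ τ + ε := by
  have hpt : ∀ u, F u ≤ τ + B.indicator (fun _ => b) u := by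
    intro u
    by_cases hu : u ∈ B
    · rw [Set.indicator_of_mem hu]
      have h1 := (abs_le.1 (hbd u)).2
      linarith
    · rw [Set.indicator_of_notMem hu, add_zero]
      exact hout u hu
  have hint2 : Integrable (fun u => τ + B.indicator (fun _ => b) u) (gam V) :=
    (integrable_const _).add ((integrable_const _).indicator hBm)
  have hint1 : Integrable F (gam V) :=
    (integrable_const b).mono' hF.aestronglyMeasurable (Filter.Eventually.of_forall hbd)
  have h1 := integral_mono hint1 hint2 hpt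
  have h2 : ∫ u, (τ + B.indicator (fun _ => b) u) ∂(gam V) = τ + (gam V).real B * b := by
    rw [integral_add (integrable_const _) ((integrable_const _).indicator hBm),
      integral_indicator hBm, integral_const, integral_const]
    simp
  rw [h2] at h1
  linarith

theorem step_good (hN : T_NRM) {p : ℝ} (hp : 2 < p) {n : ℕ} (hn : 1 ≤ n) {b : ℝ} (hb : 1 ≤ b)
    (hbn : b ≤ n) (C₂ : ℝ)
    (hC₂ : 0 < C₂) (S : Finset (Fin n)) (k : ℕ) (g : U n → ℝ) (hg : g ∉ GB p b C₂ S k) :
    ∫ u, Rr p b S g (fun j => b * Real.sqrt k * u j) ∂(gam (Fin n)) ≤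
      C₂ * (b ^ p * Real.sqrt n) + 2 := by
  have hn' : (1 : ℝ) ≤ n := by exact_mod_cast hn
  have hb0 : 0 < b := by linarith
  have hBm : MeasurableSet (Prod.mk g ⁻¹' (RB p b C₂ S k)) :=
    measurable_prodMk_left (meas_RB hp hn hb C₂ S k)
  have hg' : gam (Fin n) (Prod.mk g ⁻¹' (RB p b C₂ S k)) < ENNReal.ofReal (1 / (n : ℝ) ^ 3) := by
    rw [mem_GB, not_le] at hg
    exact hg
  have hr : (gam (Fin n)).real (Prod.mk g ⁻¹' (RB p b C₂ S k)) ≤ 1 / (n : ℝ) ^ 3 := by
    rw [Measure.real]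
    exact ENNReal.toReal_le_of_le_ofReal (by positivity) hg'.le
  have hcs : Continuous (fun u : Fin n → ℝ => fun j => b * Real.sqrt k * u j) :=
    continuous_pi fun j => continuous_const.mul (continuous_apply j)
  have hcont := cont_RrV hp hn hb S g hcs
  have h6 : (gam (Fin n)).real (Prod.mk g ⁻¹' (RB p b C₂ S k)) * (b * (2 * n)) ≤ 2 := by
    have h1 := mul_le_mul_of_nonneg_right hr (show (0 : ℝ) ≤ b * (2 * n) by positivity)
    have h2 : 1 / (n : ℝ) ^ 3 * (b * (2 * n)) ≤ 2 := by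
      rw [div_mul_eq_mul_div, one_mul, div_le_iff₀ (by positivity)]
      have h3 : b * (2 * n) ≤ n * (2 * n) := mul_le_mul_of_nonneg_right hbn (by linarith)
      have h4 : (n : ℝ) * (2 * n) ≤ 2 * (n : ℝ) ^ 3 := by nlinarith [sq_nonneg (n : ℝ)]
      linarith
    exact h1.trans h2
  refine ind_bound hcont (b := b * (2 * n)) (by positivity) (by positivity)
    (fun u => Rr_abs hN hp hn hb S g _) hBm (fun u hu => ?_) h6
  rw [Set.mem_preimage, mem_RB, not_lt] at hu
  exact hu

theorem ak_bound (hADD : T_ADD) (hN : T_NRM) {p : ℝ} (hp : 2 < p) {n : ℕ} (hn : 1 ≤ n) {b : ℝ}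
    (hb : 1 ≤ b) (hbn : b ≤ n) (C₂ : ℝ)
    (hC₂ : 0 < C₂) (S : Finset (Fin n)) (g : U n → ℝ) (k : ℕ)
    (hg : ∀ l < k, g ∉ GB p b C₂ S l) :
    ak p b S g k ≤ M p S g 0 + k * (C₂ * (b ^ p * Real.sqrt n) + 2) := by
  induction k with
  | zero => rw [ak_zero]; simp
  | succ k ih =>
    have h1 := ih fun l hl => hg l (by omega)
    have h2 := ak_succ hADD hN hp hn hb S g k
    have h3 := step_good hN hp hn hb hbn C₂ hC₂ S k g (hg k (by omega))
    push_cast
    linarith

end

end Pool.Agent.KS6_54.LPG.N573.LPG
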