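import Pool.Agent.KS6_54.LPG.P2

set_option autoImplicit false

open MeasureTheory ProbabilityTheory Filter Topology

namespace Pool.Agent.KS6_54.LPG.N573.LPG

open Pool.Agent.KS6_54.LPG.H320R2.LD

noncomputable section

theorem final_det (hFIN : T_FIN) (hADD : T_ADD) (hN : T_NRM) {p : ℝ} (hp : 2 < p) {n : ℕ}
    (hn3 : 3 ≤ n) {b : ℝ} (hb : 1 ≤ b) (hbp : b ^ p ≤ n / 2)
    (hbl : b * Real.sqrt (Real.log n) ≤ b ^ p)
    {C₂ c : ℝ} (hC₂ : 0 < C₂) (hc : 0 < c) (g : U n → ℝ) (y : Fin n → ℝ)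
    (hy : y ∈ Kp p (∅ : Finset (Fin n)))
    (hmax : ∀ y' ∈ Kp p (∅ : Finset (Fin n)), Hf g y' ≤ Hf g y) (i : Fin n)
    (ha : ∀ l : ℕ, l < 5 * n → b ^ 2 * l ≤ 5 * n → g ∉ GB p b C₂ {i} l)
    (hb' : ∀ k : ℕ, 1 ≤ k → k ≤ 5 * n → M p {i} g (fun j => b * Real.sqrt k * row g i j) ≤
      ak p b {i} g k + b * Real.sqrt k * tt n)
    (hcc : c / 2 * (n * Real.sqrt n) ≤ M p ∅ g 0) (hd : nrm (dg g) ≤ 2 * Real.sqrt n) :
    |y i| ≤ max 1 ((p / c * (5 * C₂ + 76)) ^ (1 / (p - 2))) * b := by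
  have hn1 : 1 ≤ n := by omega
  have hn' : (3 : ℝ) ≤ n := by exact_mod_cast hn3
  have hp2 : 0 < p - 2 := by linarith
  have hb0 : 0 < b := by linarith
  set P := b ^ p with hP
  have hP2 : b ^ 2 ≤ P := by
    rw [hP, ← Real.rpow_natCast b 2]
    exact Real.rpow_le_rpow_of_exponent_le hb (by push_cast; linarith)
  have hP1 : 1 ≤ P := by nlinarith
  have hbP : b ≤ P := by nlinarith
  have hbn : b ≤ n := by linarith
  by_cases h1 : |y i| ≤ b
  · calc |y i| ≤ 1 * b := by linarith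
      _ ≤ _ := mul_le_mul_of_nonneg_right (le_max_left _ _) hb0.le
  push Not at h1
  set a := |y i| with ha_def
  have ha0 : 0 < a := by linarith
  have hasq : a ^ 2 ≤ n := by
    have h2 := t_SQ p hp n ∅ y hy
    have h3 : y i ^ 2 ≤ ∑ i, y i ^ 2 :=
      Finset.single_le_sum (f := fun i => y i ^ 2) (fun _ _ => sq_nonneg _) (Finset.mem_univ i)
    rw [ha_def, sq_abs]
    linarith
  -- `r = (a / b)²`
  set r := a ^ 2 / b ^ 2 with hr
  have hr1 : 1 ≤ r := by
    rw [hr, le_div_iff₀ (by positivity)]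
    nlinarith
  have hrb : b ^ 2 * r = a ^ 2 := by rw [hr]; field_simp
  set k := ⌈4 * r⌉₊ with hk_def
  have hk1 : 4 * r ≤ k := Nat.le_ceil _
  have hk2 : (k : ℝ) < 4 * r + 1 := Nat.ceil_lt_add_one (by positivity)
  have hk5 : (k : ℝ) ≤ 5 * r := by linarith
  have hbk : b ^ 2 * k ≤ 5 * n := by
    have : b ^ 2 * k ≤ b ^ 2 * (5 * r) := mul_le_mul_of_nonneg_left hk5 (sq_nonneg _)
    nlinarith
  have hkn : k ≤ 5 * n := by
    have : (k : ℝ) ≤ 5 * n := by
      have : (k : ℝ) ≤ b ^ 2 * k := by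
        have hb2 : 1 ≤ b ^ 2 := one_le_pow₀ hb
        have hk00 : (0 : ℝ) ≤ k := Nat.cast_nonneg k
        nlinarith
      linarith
    exact_mod_cast this
  have hk0 : 1 ≤ k := by
    have : (1 : ℝ) ≤ k := by linarith
    exact_mod_cast this
  have hkR : (1 : ℝ) ≤ k := by exact_mod_cast hk0
  set X := Real.sqrt n with hX
  have hX1 : 1 ≤ X := by
    rw [hX]; apply Real.one_le_sqrt.2; linarith
  have hsk : Real.sqrt k ≤ k := by
    rw [Real.sqrt_le_left (by linarith)]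
    nlinarith
  set L := (k : ℝ) * (C₂ * (P * X) + 2) + b * Real.sqrt k * tt n with hL
  have hPX : 1 ≤ P * X := by nlinarith
  have hLb : L ≤ 5 * r * ((C₂ + 14) * (P * X)) := by
    have e0 := tt_le hb0.le hbl
    rw [← hP, ← hX] at e0
    have e1 : b * Real.sqrt k * tt n ≤ k * (12 * (P * X)) := by
      calc b * Real.sqrt k * tt n = Real.sqrt k * (b * tt n) := by ring
        _ ≤ k * (12 * (P * X)) :=
            mul_le_mul hsk e0 (mul_nonneg hb0.le (tt_nonneg n)) (by linarith)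
    have e2 : L ≤ k * ((C₂ + 14) * (P * X)) := by
      have e3 : (k : ℝ) * (C₂ * (P * X) + 2) ≤ k * (C₂ * (P * X) + 2 * (P * X)) :=
        mul_le_mul_of_nonneg_left (by linarith) (by linarith)
      calc L ≤ k * (C₂ * (P * X) + 2 * (P * X)) + k * (12 * (P * X)) := by rw [hL]; linarith
        _ = k * ((C₂ + 14) * (P * X)) := by ring
    exact e2.trans (mul_le_mul_of_nonneg_right hk5 (by positivity))
  have hsqk : Real.sqrt (b ^ 2 * k) = b * Real.sqrt k := by
    rw [Real.sqrt_mul (sq_nonneg b), Real.sqrt_sq hb0.le]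
  have hresp : M p {i} g (fun j => Real.sqrt (b ^ 2 * k) * row g i j) ≤ M p {i} g 0 + L := by
    rw [hsqk]
    have e1 := hb' k hk0 hkn
    have e2 := ak_bound hADD hN hp hn1 hb hbn C₂ hC₂ {i} g k (fun l hl => ha l (by omega) (by
      have : (l : ℝ) ≤ k := by exact_mod_cast hl.le
      have := mul_le_mul_of_nonneg_left this (sq_nonneg b)
      linarith))
    rw [hL]
    linarith
  have hD : |Wm g i i| ≤ 3 * X := by
    unfold Wm
    rw [if_pos rfl, abs_mul, abs_of_nonneg (Real.sqrt_nonneg _)]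
    have e1 : |g (pr i i)| ≤ nrm (dg g) := by
      unfold nrm nsq
      apply Real.abs_le_sqrt
      exact Finset.single_le_sum (f := fun i => dg g i ^ 2) (fun _ _ => sq_nonneg _)
        (Finset.mem_univ i)
    have r2 : Real.sqrt 2 ≤ 3 / 2 := by
      rw [Real.sqrt_le_left (by norm_num)]; norm_num
    calc Real.sqrt 2 * |g (pr i i)| ≤ 3 / 2 * (2 * X) :=
          mul_le_mul r2 (e1.trans hd) (abs_nonneg _) (by norm_num)
      _ = 3 * X := by ring
  have hfin := hFIN p hp n hn1 g y hy hmax i (b ^ 2 * k) L (3 * X)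
    (by
      rw [mul_pow, ← ha_def]
      have : b ^ 2 * (4 * r) ≤ b ^ 2 * k := mul_le_mul_of_nonneg_left hk1 (sq_nonneg _)
      nlinarith) hD hresp
  rw [← ha_def] at hfin
  have hsn : 0 < X := by linarith
  have hap : 0 < a ^ p := Real.rpow_pos_of_pos ha0 _
  have hlow : c / p * a ^ p * X ≤ 2 / p * (a ^ p / n) * M p ∅ g 0 := by
    have e1 : 2 / p * (a ^ p / n) * (c / 2 * (n * X)) ≤
        2 / p * (a ^ p / n) * M p ∅ g 0 := mul_le_mul_of_nonneg_left hcc (by positivity)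
    have e2 : 2 / p * (a ^ p / n) * (c / 2 * (n * X)) = c / p * a ^ p * X := by
      field_simp
    rw [e2] at e1
    exact e1
  have hup : L + 2 * (3 * X) * a ^ 2 ≤ r * ((5 * C₂ + 76) * (P * X)) := by
    have e1 : 2 * (3 * X) * a ^ 2 ≤ 6 * (r * (P * X)) := by
      have : a ^ 2 ≤ r * P := by
        rw [← hrb, mul_comm]
        exact mul_le_mul_of_nonneg_left hP2 (by linarith)
      have := mul_le_mul_of_nonneg_right this hsn.le
      nlinarith
    calc L + 2 * (3 * X) * a ^ 2 ≤ 5 * r * ((C₂ + 14) * (P * X)) + 6 * (r * (P * X)) := by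
          linarith
      _ = r * ((5 * C₂ + 76) * (P * X)) := by ring
  have hmain : c / p * a ^ p ≤ r * ((5 * C₂ + 76) * P) := by
    have e1 : c / p * a ^ p * X ≤ r * ((5 * C₂ + 76) * P) * X := by
      calc c / p * a ^ p * X ≤ r * ((5 * C₂ + 76) * (P * X)) :=
            hlow.trans (hfin.trans hup)
        _ = _ := by ring
    exact le_of_mul_le_mul_right e1 hsn
  have hsplit : ∀ x : ℝ, 0 < x → x ^ p = x ^ 2 * x ^ (p - 2) := by
    intro x hx
    rw [← Real.rpow_natCast x 2, ← Real.rpow_add hx]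
    congr 1
    push_cast
    ring
  have hpp : 0 < p := by linarith
  have hpw : a ^ (p - 2) ≤ p / c * (5 * C₂ + 76) * b ^ (p - 2) := by
    rw [hsplit a ha0, hP, hsplit b hb0] at hmain
    have e1 : a ^ 2 * (c / p * a ^ (p - 2)) ≤ a ^ 2 * ((5 * C₂ + 76) * b ^ (p - 2)) := by
      calc a ^ 2 * (c / p * a ^ (p - 2)) = c / p * (a ^ 2 * a ^ (p - 2)) := by ring
        _ ≤ r * ((5 * C₂ + 76) * (b ^ 2 * b ^ (p - 2))) := hmain
        _ = b ^ 2 * r * ((5 * C₂ + 76) * b ^ (p - 2)) := by ring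
        _ = a ^ 2 * ((5 * C₂ + 76) * b ^ (p - 2)) := by rw [hrb]
    have e2 := le_of_mul_le_mul_left e1 (by positivity)
    calc a ^ (p - 2) = p / c * (c / p * a ^ (p - 2)) := by field_simp
      _ ≤ p / c * ((5 * C₂ + 76) * b ^ (p - 2)) :=
          mul_le_mul_of_nonneg_left e2 (by positivity)
      _ = _ := by ring
  have h0 : 0 ≤ p / c * (5 * C₂ + 76) := by positivity
  have e1 : a = (a ^ (p - 2)) ^ (1 / (p - 2)) := by
    rw [← Real.rpow_mul ha0.le, mul_one_div_cancel hp2.ne', Real.rpow_one]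
  have e2 : a ≤ (p / c * (5 * C₂ + 76) * b ^ (p - 2)) ^ (1 / (p - 2)) := by
    rw [e1]
    exact Real.rpow_le_rpow (Real.rpow_nonneg ha0.le _) hpw (by positivity)
  rw [Real.mul_rpow h0 (Real.rpow_nonneg hb0.le _), ← Real.rpow_mul hb0.le,
    mul_one_div_cancel hp2.ne', Real.rpow_one] at e2
  exact e2.trans (mul_le_mul_of_nonneg_right (le_max_right _ _) hb0.le)

end

end Pool.Agent.KS6_54.LPG.N573.LPG
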