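import Pool.Agent.KS6_54.LPG.Stm2

/-!
# MP_98bed0_pr: the tasks REM and FIN (helper769, project LPG of helper573)
-/

set_option autoImplicit false

open MeasureTheory ProbabilityTheory Filter Topology

namespace Pool.Agent.KS6_54.LPG.N769.LPG

open Pool.Agent.KS6_54.LPG.H320R2.LD Pool.Agent.KS6_54.LPG.N573.LPG

noncomputable section

variable {n : ℕ}

theorem pr_symm (i j : Fin n) : pr i j = pr j i := by
  unfold pr
  simp only [min_comm i j, max_comm i j]

theorem Wm_symm (g : U n → ℝ) (i j : Fin n) : Wm g i j = Wm g j i := by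
  unfold Wm
  rw [pr_symm]
  simp only [eq_comm]

/-- the coordinate `i` is removed -/
theorem Hf_update (g : U n → ℝ) (y : Fin n → ℝ) (i : Fin n) :
    Hf g y = Hf g (Function.update y i 0) + 2 * y i * (∑ j, Wm g i j * y j) - Wm g i i * y i ^ 2 := by
  have h1 : ∀ a b : Fin n, Wm g a b * y a * y b =
      Wm g a b * Function.update y i 0 a * Function.update y i 0 b +
        (if a = i then y i * (Wm g i b * y b) else 0) + (if b = i then y i * (Wm g a i * y a) else 0) -
        (if a = i then (if b = i then Wm g i i * y i ^ 2 else 0) else 0) := by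
    intro a b
    by_cases ha : a = i
    · by_cases hb : b = i
      · subst ha
        subst hb
        simp
        ring
      · subst ha
        simp [hb]
        ring
    · by_cases hb : b = i
      · subst hb
        simp [ha]
        ring
      · simp [ha, hb]
  unfold Hf
  simp only [h1]
  simp only [Finset.sum_add_distrib, Finset.sum_sub_distrib]
  have e1 : ∑ a : Fin n, ∑ b : Fin n, (if a = i then y i * (Wm g i b * y b) else 0) =
      y i * ∑ j, Wm g i j * y j := by
    have : ∀ a : Fin n, ∑ b : Fin n, (if a = i then y i * (Wm g i b * y b) else 0) =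
        if a = i then y i * ∑ j, Wm g i j * y j else 0 := by
      intro a
      split_ifs
      · rw [Finset.mul_sum]
      · rw [Finset.sum_const_zero]
    simp only [this, Finset.sum_ite_eq', Finset.mem_univ, if_true]
  have e2 : ∑ a : Fin n, ∑ b : Fin n, (if b = i then y i * (Wm g a i * y a) else 0) =
      y i * ∑ j, Wm g i j * y j := by
    simp only [Finset.sum_ite_eq', Finset.mem_univ, if_true]
    rw [Finset.mul_sum]
    refine Finset.sum_congr rfl fun a _ => ?_
    rw [Wm_symm g a i]
  have e3 : ∑ a : Fin n, ∑ b : Fin n, (if a = i then (if b = i then Wm g i i * y i ^ 2 else 0) else 0) =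
      Wm g i i * y i ^ 2 := by
    have : ∀ a : Fin n, ∑ b : Fin n, (if a = i then (if b = i then Wm g i i * y i ^ 2 else 0) else 0) =
        if a = i then Wm g i i * y i ^ 2 else 0 := by
      intro a
      split_ifs
      · simp only [Finset.sum_ite_eq', Finset.mem_univ, if_true]
      · rw [Finset.sum_const_zero]
    simp only [this, Finset.sum_ite_eq', Finset.mem_univ, if_true]
  rw [e1, e2, e3]
  ring

theorem Hf_smul (g : U n → ℝ) (c : ℝ) (y : Fin n → ℝ) : Hf g (fun i => c * y i) = c ^ 2 * Hf g y := by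
  unfold Hf
  rw [Finset.mul_sum]
  refine Finset.sum_congr rfl fun i _ => ?_
  rw [Finset.mul_sum]
  refine Finset.sum_congr rfl fun j _ => ?_
  ring

theorem Hf_neg (g : U n → ℝ) (y : Fin n → ℝ) : Hf g (fun i => - y i) = Hf g y := by
  have := Hf_smul g (-1) y
  simpa using this

theorem dt_update (v y : Fin n → ℝ) (i : Fin n) :
    dt v (Function.update y i 0) = dt v y - v i * y i := by
  unfold dt
  have h1 : ∀ j, v j * Function.update y i 0 j = v j * y j - if j = i then v i * y i else 0 := by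
    intro j
    by_cases h : j = i
    · subst h
      simp
    · simp [h]
  simp only [h1, Finset.sum_sub_distrib, Finset.sum_ite_eq', Finset.mem_univ, if_true]

theorem sum_update {p : ℝ} (hp : 2 < p) (y : Fin n → ℝ) (i : Fin n) :
    ∑ j, |Function.update y i 0 j| ^ p = ∑ j, |y j| ^ p - |y i| ^ p := by
  have h1 : ∀ j, |Function.update y i 0 j| ^ p = |y j| ^ p - if j = i then |y i| ^ p else 0 := by
    intro j
    by_cases h : j = i
    · subst h
      rw [Function.update_self, if_pos rfl, sub_self, abs_zero, Real.zero_rpow (by linarith)]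
    · rw [Function.update_of_ne h, if_neg h, sub_zero]
  simp only [h1, Finset.sum_sub_distrib, Finset.sum_ite_eq', Finset.mem_univ, if_true]

theorem update_mem {p : ℝ} (hp : 2 < p) {S : Finset (Fin n)} {y : Fin n → ℝ} (hy : y ∈ Kp p S)
    (i : Fin n) : Function.update y i 0 ∈ Kp p (insert i S) := by
  refine ⟨?_, fun j hj => ?_⟩
  · rw [sum_update hp]
    have h1 : 0 ≤ |y i| ^ p := Real.rpow_nonneg (abs_nonneg _) _
    linarith [hy.1]
  · by_cases h : j = i
    · subst h
      rw [Function.update_self]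
    · rw [Function.update_of_ne h]
      exact hy.2 j ((Finset.mem_insert.1 hj).resolve_left h)

theorem neg_mem {p : ℝ} {S : Finset (Fin n)} {y : Fin n → ℝ} (hy : y ∈ Kp p S) :
    (fun i => - y i) ∈ Kp p S := by
  refine ⟨?_, fun j hj => ?_⟩
  · simp only [abs_neg]
    exact hy.1
  · beta_reduce
    rw [hy.2 j hj, neg_zero]

theorem dt_le (v y : Fin n → ℝ) : |dt v y| ≤ nrm v * nrm y := by
  unfold dt nrm nsq
  rw [← Real.sqrt_mul (Finset.sum_nonneg fun i _ => sq_nonneg _)]
  refine Real.abs_le_sqrt ?_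
  exact Finset.sum_mul_sq_le_sq_mul_sq _ _ _

theorem coord_le (v : Fin n → ℝ) (i : Fin n) : |v i| ≤ nrm v := by
  unfold nrm nsq
  refine Real.abs_le_sqrt ?_
  exact Finset.single_le_sum (f := fun i => v i ^ 2) (fun i _ => sq_nonneg _) (Finset.mem_univ i)

/-- task REM -/
theorem t_REM (hATT : T_ATT) (hSQ : T_SQ) : T_REM := by
  intro p hp n S g v
  obtain ⟨y, hy, hM, -⟩ := hATT p hp n S g v
  have hsq := hSQ p hp n S y hy
  have hterm : ∀ i ∈ Sᶜ, M p S g v - M p (insert i S) g v ≤
      2 * y i * (∑ j, Wm g i j * y j) - Wm g i i * y i ^ 2 + 2 * (v i * y i) := by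
    intro i _
    obtain ⟨-, -, -, h2⟩ := hATT p hp n (insert i S) g v
    have h3 := h2 _ (update_mem hp hy i)
    have h4 := Hf_update g y i
    rw [dt_update] at h3
    rw [hM]
    linarith
  have hsum : ∑ i ∈ Sᶜ, (2 * y i * (∑ j, Wm g i j * y j) - Wm g i i * y i ^ 2 + 2 * (v i * y i)) =
      ∑ i, (2 * y i * (∑ j, Wm g i j * y j) - Wm g i i * y i ^ 2 + 2 * (v i * y i)) := by
    refine Finset.sum_subset (Finset.subset_univ _) fun i _ hi => ?_
    have hiS : i ∈ S := by
      by_contra h
      exact hi (Finset.mem_compl.2 h)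
    rw [hy.2 i hiS]
    ring
  have hall : ∑ i, (2 * y i * (∑ j, Wm g i j * y j) - Wm g i i * y i ^ 2 + 2 * (v i * y i)) =
      2 * Hf g y - (∑ i, Wm g i i * y i ^ 2) + 2 * dt v y := by
    rw [Finset.sum_add_distrib, Finset.sum_sub_distrib]
    unfold Hf dt
    rw [Finset.mul_sum, Finset.mul_sum]
    congr 2
    refine Finset.sum_congr rfl fun i _ => ?_
    rw [mul_assoc, Finset.mul_sum]
    congr 1
    refine Finset.sum_congr rfl fun j _ => ?_
    ring
  have hdt : |dt v y| ≤ Real.sqrt n * nrm v := by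
    refine (dt_le v y).trans ?_
    rw [mul_comm]
    refine mul_le_mul_of_nonneg_right ?_ (Real.sqrt_nonneg _)
    exact Real.sqrt_le_sqrt hsq
  have hdiag : |∑ i, Wm g i i * y i ^ 2| ≤ Real.sqrt 2 * nrm (dg g) * n := by
    refine (Finset.abs_sum_le_sum_abs _ _).trans ?_
    have h1 : ∀ i ∈ (Finset.univ : Finset (Fin n)), |Wm g i i * y i ^ 2| ≤
        Real.sqrt 2 * nrm (dg g) * y i ^ 2 := by
      intro i _
      rw [abs_mul, abs_of_nonneg (sq_nonneg (y i))]
      refine mul_le_mul_of_nonneg_right ?_ (sq_nonneg _)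
      unfold Wm
      rw [if_pos rfl, abs_mul, abs_of_nonneg (Real.sqrt_nonneg 2)]
      exact mul_le_mul_of_nonneg_left (coord_le (dg g) i) (Real.sqrt_nonneg 2)
    refine (Finset.sum_le_sum h1).trans ?_
    rw [← Finset.mul_sum]
    exact mul_le_mul_of_nonneg_left hsq (mul_nonneg (Real.sqrt_nonneg _) (Real.sqrt_nonneg _))
  have hfin := (Finset.sum_le_sum hterm).trans (le_of_eq (hsum.trans hall))
  refine hfin.trans ?_
  rw [abs_le] at hdt hdiag
  rw [hM]
  linarith [hdt.1, hdiag.1]

/-- the maximum for `v` is at least the maximum for `0` -/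
theorem M_ge (hATT : T_ATT) {p : ℝ} (hp : 2 < p) (S : Finset (Fin n)) (g : U n → ℝ)
    (v : Fin n → ℝ) : M p S g 0 ≤ M p S g v := by
  obtain ⟨y, hy, hM, -⟩ := hATT p hp n S g 0
  obtain ⟨-, -, -, h2⟩ := hATT p hp n S g v
  have e0 : dt (0 : Fin n → ℝ) y = 0 := by
    unfold dt
    simp
  rw [e0, mul_zero, add_zero] at hM
  rw [hM]
  rcases le_total 0 (dt v y) with h | h
  · have := h2 y hy
    linarith
  · have h3 := h2 _ (neg_mem hy)
    have e1 : dt v (fun i => - y i) = - dt v y := by
      unfold dt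
      rw [← Finset.sum_neg_distrib]
      exact Finset.sum_congr rfl fun i _ => by ring
    rw [Hf_neg, e1] at h3
    linarith

theorem M_anti (hATT : T_ATT) {p : ℝ} (hp : 2 < p) {S T : Finset (Fin n)} (hST : S ⊆ T)
    (g : U n → ℝ) (v : Fin n → ℝ) : M p T g v ≤ M p S g v := by
  obtain ⟨y, hy, hM, -⟩ := hATT p hp n T g v
  obtain ⟨-, -, -, h2⟩ := hATT p hp n S g v
  rw [hM]
  exact h2 y ⟨hy.1, fun j hj => hy.2 j (hST hj)⟩

/-- the last step for `0 ≤ y i` -/
theorem fin_aux (hATT : T_ATT) {p : ℝ} (hp : 2 < p) (hn : 1 ≤ n) (g : U n → ℝ) (y : Fin n → ℝ)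
    (hy : y ∈ Kp p (∅ : Finset (Fin n)))
    (hmax : ∀ y' ∈ Kp p (∅ : Finset (Fin n)), Hf g y' ≤ Hf g y) (i : Fin n) (k L D : ℝ)
    (hk : (2 * |y i|) ^ 2 ≤ k) (hD : |Wm g i i| ≤ D)
    (hL : M p {i} g (fun j => Real.sqrt k * row g i j) ≤ M p {i} g 0 + L) (hyi : 0 ≤ y i) :
    2 / p * (|y i| ^ p / n) * M p ∅ g 0 ≤ L + 2 * D * |y i| ^ 2 := by
  have hn' : (0 : ℝ) < n := by exact_mod_cast hn
  have hp0 : 0 < p := by linarith
  -- the maximum
  have hm : M p ∅ g 0 = Hf g y := by
    obtain ⟨y0, hy0, hM, h2⟩ := hATT p hp n ∅ g 0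
    have e0 : ∀ z : Fin n → ℝ, dt (0 : Fin n → ℝ) z = 0 := by
      intro z
      unfold dt
      simp
    have h3 := h2 y hy
    rw [e0, mul_zero, add_zero] at h3 hM
    exact le_antisymm (by rw [hM]; exact hmax y0 hy0) h3
  have hH0 : 0 ≤ Hf g y := by
    have h0 : (fun _ => 0 : Fin n → ℝ) ∈ Kp p (∅ : Finset (Fin n)) := by
      refine ⟨?_, fun j _ => rfl⟩
      simp only [abs_zero, Real.zero_rpow hp0.ne', Finset.sum_const_zero]
      exact hn'.le
    have h1 := hmax _ h0
    have e : Hf g (fun _ => 0) = 0 := by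
      unfold Hf
      simp
    rwa [e] at h1
  rw [abs_of_nonneg hyi] at hk ⊢
  rw [hm]
  obtain ⟨a, ha⟩ : ∃ a, a = y i := ⟨_, rfl⟩
  rw [← ha] at hk hyi ⊢
  obtain ⟨y', hy'⟩ : ∃ y', y' = Function.update y i 0 := ⟨_, rfl⟩
  obtain ⟨s, hs⟩ : ∃ s, s = dt (row g i) y' := ⟨_, rfl⟩
  have hy'm : y' ∈ Kp p {i} := by
    have := update_mem hp hy i
    rwa [← hy'] at this
  have hdec : Hf g y = Hf g y' + 2 * a * s + Wm g i i * a ^ 2 := by
    have h1 := Hf_update g y i
    have h2 : ∑ j, Wm g i j * y j = s + Wm g i i * a := by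
      rw [hs, hy', ha]
      unfold dt
      have h3 : ∀ j, Wm g i j * y j = row g i j * Function.update y i 0 j +
          if j = i then Wm g i i * y i else 0 := by
        intro j
        by_cases h : j = i
        · subst h
          simp
        · unfold Wm row
          simp only [Function.update_of_ne h, if_neg h, if_neg (Ne.symm h), one_mul, add_zero]
      rw [Finset.sum_congr rfl (fun j _ => h3 j)]
      simp only [Finset.sum_add_distrib, Finset.sum_ite_eq', Finset.mem_univ, if_true]
    rw [h2, ← hy', ← ha] at h1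
    rw [h1]
    ring
  -- the removal of the coordinate
  have hsum : ∑ j, |y' j| ^ p = ∑ j, |y j| ^ p - a ^ p := by
    rw [hy', sum_update hp, ha, abs_of_nonneg (by rw [← ha]; exact hyi)]
  have hap : a ^ p ≤ n := by
    have h1 : 0 ≤ ∑ j, |y' j| ^ p := Finset.sum_nonneg fun j _ => Real.rpow_nonneg (abs_nonneg _) _
    linarith [hy.1]
  have hap0 : 0 ≤ a ^ p := Real.rpow_nonneg hyi _
  have hx0 : 0 ≤ a ^ p / n := by positivity
  have hx1 : a ^ p / n ≤ 1 := by
    rw [div_le_one hn']
    exact hap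
  have hrem : Hf g y' ≤ (1 - 2 / p * (a ^ p / n)) * Hf g y := by
    have hbern : (1 - a ^ p / n) ^ (2 / p) ≤ 1 - 2 / p * (a ^ p / n) := by
      have h1 := rpow_one_add_le_one_add_mul_self (s := -(a ^ p / n)) (by linarith)
        (p := 2 / p) (by positivity) (by rw [div_le_one hp0]; linarith)
      rw [← sub_eq_add_neg] at h1
      linarith
    refine le_trans ?_ (mul_le_mul_of_nonneg_right hbern hH0)
    rcases hx1.eq_or_lt with h1 | h1
    · -- `y' = 0`
      have h2 : a ^ p = n := by rwa [div_eq_one_iff_eq hn'.ne'] at h1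
      have h3 : ∑ j, |y' j| ^ p ≤ 0 := by
        rw [hsum, h2]
        linarith [hy.1]
      have h4 : ∀ j, y' j = 0 := by
        intro j
        have h5 : |y' j| ^ p ≤ ∑ j, |y' j| ^ p :=
          Finset.single_le_sum (f := fun j => |y' j| ^ p)
            (fun j _ => Real.rpow_nonneg (abs_nonneg _) _) (Finset.mem_univ j)
        have h6 : |y' j| ^ p = 0 := le_antisymm (h5.trans h3) (Real.rpow_nonneg (abs_nonneg _) _)
        rw [Real.rpow_eq_zero (abs_nonneg _) hp0.ne'] at h6
        exact abs_eq_zero.1 h6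
      have h5 : Hf g y' = 0 := by
        unfold Hf
        simp [h4]
      rw [h5]
      exact mul_nonneg (Real.rpow_nonneg (by linarith) _) hH0
    · have hb : 0 < 1 - a ^ p / n := by linarith
      obtain ⟨c, hc⟩ : ∃ c, c = (1 - a ^ p / n) ^ (-(1 / p)) := ⟨_, rfl⟩
      have hc0 : 0 < c := by rw [hc]; exact Real.rpow_pos_of_pos hb _
      have hcp : c ^ p = (1 - a ^ p / n)⁻¹ := by
        rw [hc, ← Real.rpow_mul hb.le, ← Real.rpow_neg_one]
        congr 1
        field_simp
      have hc2 : c ^ 2 = ((1 - a ^ p / n) ^ (2 / p))⁻¹ := by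
        rw [hc, ← Real.rpow_natCast, ← Real.rpow_mul hb.le, ← Real.rpow_neg hb.le]
        congr 1
        push_cast
        ring
      have hmem : (fun j => c * y' j) ∈ Kp p (∅ : Finset (Fin n)) := by
        refine ⟨?_, fun j hj => absurd hj (Finset.notMem_empty j)⟩
        have e : ∀ j, |c * y' j| ^ p = c ^ p * |y' j| ^ p := by
          intro j
          rw [abs_mul, abs_of_pos hc0, Real.mul_rpow hc0.le (abs_nonneg _)]
        simp only [e, ← Finset.mul_sum]
        rw [hsum, hcp]
        rw [inv_mul_le_iff₀ hb]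
        have : (1 - a ^ p / n) * n = n - a ^ p := by field_simp
        rw [this]
        linarith [hy.1]
      have h2 := hmax _ hmem
      rw [Hf_smul, hc2] at h2
      rwa [inv_mul_le_iff₀ (Real.rpow_pos_of_pos hb _)] at h2
  -- the linear response
  have hlin : 2 * a * s ≤ L + D * a ^ 2 := by
    have hD0 : 0 ≤ D := (abs_nonneg _).trans hD
    have hL0 : 0 ≤ L := by
      have := M_ge hATT hp {i} g (fun j => Real.sqrt k * row g i j)
      linarith
    rcases le_total s 0 with h | h
    · have h1 : 2 * a * s ≤ 0 := mul_nonpos_of_nonneg_of_nonpos (by positivity) h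
      have h2 : 0 ≤ D * a ^ 2 := by positivity
      linarith
    · obtain ⟨-, -, -, h2⟩ := hATT p hp n {i} g (fun j => Real.sqrt k * row g i j)
      have h3 := h2 y' hy'm
      have e1 : dt (fun j => Real.sqrt k * row g i j) y' = Real.sqrt k * s := by
        rw [hs]
        unfold dt
        rw [Finset.mul_sum]
        exact Finset.sum_congr rfl fun j _ => by ring
      rw [e1] at h3
      have h4 : 2 * a ≤ Real.sqrt k := Real.le_sqrt_of_sq_le hk
      have h5 : 2 * a * s ≤ Real.sqrt k * s := mul_le_mul_of_nonneg_right h4 h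
      have h6 := M_anti hATT hp (Finset.empty_subset {i}) g 0
      rw [hm] at h6
      have h7 : Wm g i i * a ^ 2 ≤ D * a ^ 2 :=
        mul_le_mul_of_nonneg_right ((le_abs_self _).trans hD) (sq_nonneg _)
      linarith
  have h7 : Wm g i i * a ^ 2 ≤ D * a ^ 2 :=
    mul_le_mul_of_nonneg_right ((le_abs_self _).trans hD) (sq_nonneg _)
  linarith

/-- task FIN -/
theorem t_FIN (hATT : T_ATT) : T_FIN := by
  intro p hp n hn g y hy hmax i k L D hk hD hL
  rcases le_total 0 (y i) with h | h
  · exact fin_aux hATT hp hn g y hy hmax i k L D hk hD hL h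
  · have h1 := fin_aux hATT hp hn g (fun j => - y j) (neg_mem hy)
      (fun y' hy' => by rw [Hf_neg]; exact hmax y' hy') i k L D (by rw [abs_neg]; exact hk) hD hL
      (by linarith)
    rwa [abs_neg] at h1

end

end Pool.Agent.KS6_54.LPG.N769.LPG
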