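import Pool.Agent.KS6_54.LPG.Stm

/-!
# MP_98bed0_pr: tasks RES and LAW (resampling coordinates of a Gaussian product measure)
-/

set_option autoImplicit false

open MeasureTheory ProbabilityTheory Filter Topology

namespace Pool.Agent.KS6_54.LPG.N383.LPG

open Pool.Agent.KS6_54.LPG.H320R2.LD Pool.Agent.KS6_54.LPG.N573.LPG

theorem t_RES : T_RES := by
  classical
  intro V J _ _ _ σ hσ Ψ h1 h2
  have hm : Measurable Ψ := by
    refine measurable_pi_iff.2 fun z => ?_
    by_cases hz : ∃ j, σ j = z
    · obtain ⟨j, rfl⟩ := hz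
      have : (fun q => Ψ q (σ j)) = fun q => q.2 j := funext fun q => h2 q j
      rw [this]
      exact (measurable_pi_apply j).comp measurable_snd
    · have : (fun q => Ψ q z) = fun q => q.1 z := funext fun q => h1 q z hz
      rw [this]
      exact (measurable_pi_apply z).comp measurable_fst
  refine ⟨hm, ?_⟩
  symm
  refine Measure.pi_eq fun s hs => ?_
  rw [Measure.map_apply hm (MeasurableSet.univ_pi hs)]
  have hpre : Ψ ⁻¹' (Set.univ.pi s) =
      (Set.univ.pi fun z => if ∃ j, σ j = z then Set.univ else s z) ×ˢ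
        (Set.univ.pi fun j => s (σ j)) := by
    ext q
    simp only [Set.mem_preimage, Set.mem_univ_pi, Set.mem_prod]
    constructor
    · intro h
      refine ⟨fun z => ?_, fun j => ?_⟩
      · split_ifs with hz
        · exact Set.mem_univ _
        · rw [← h1 q z hz]; exact h z
      · rw [← h2 q j]; exact h _
    · rintro ⟨ha, hb⟩ z
      by_cases hz : ∃ j, σ j = z
      · obtain ⟨j, rfl⟩ := hz
        rw [h2]; exact hb j
      · rw [h1 q z hz]
        have := ha z
        rwa [if_neg hz] at this
  rw [hpre, Measure.prod_prod, gam, gam, Measure.pi_pi, Measure.pi_pi]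
  have himg : ∏ j, (gaussianReal 0 1) (s (σ j)) =
      ∏ z, (if ∃ j, σ j = z then (gaussianReal 0 1) (s z) else 1) := by
    rw [Finset.prod_ite, Finset.prod_const_one, mul_one]
    have : (Finset.univ.filter fun z => ∃ j, σ j = z) = Finset.univ.image σ := by
      ext z; simp
    rw [this, Finset.prod_image (fun a _ b _ h => hσ h)]
  rw [himg, ← Finset.prod_mul_distrib]
  refine Finset.prod_congr rfl fun z _ => ?_
  split_ifs with hz
  · rw [measure_univ, one_mul]
  · rw [mul_one]

theorem t_LAW : T_LAW := by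
  classical
  intro V J _ _ σ hσ
  let Ψ : (V → ℝ) × (J → ℝ) → (V → ℝ) := fun q z =>
    if h : ∃ j, σ j = z then q.2 h.choose else q.1 z
  have h1 : ∀ q z, (¬ ∃ j, σ j = z) → Ψ q z = q.1 z := fun q z hz => dif_neg hz
  have h2 : ∀ q j, Ψ q (σ j) = q.2 j := by
    intro q j
    have hex : ∃ j', σ j' = σ j := ⟨j, rfl⟩
    show (if h : ∃ j', σ j' = σ j then q.2 h.choose else q.1 (σ j)) = q.2 j
    rw [dif_pos hex, hσ hex.choose_spec]
  have hR := t_RES V J σ hσ Ψ h1 h2
  have hm : Measurable fun (g : V → ℝ) (j : J) => g (σ j) :=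
    measurable_pi_iff.2 fun j => measurable_pi_apply _
  refine ⟨hm, ?_⟩
  have hc : (fun (g : V → ℝ) (j : J) => g (σ j)) ∘ Ψ = Prod.snd := by
    funext q j
    exact h2 q j
  calc Measure.map (fun (g : V → ℝ) (j : J) => g (σ j)) (gam V)
      = Measure.map (fun (g : V → ℝ) (j : J) => g (σ j))
          (Measure.map Ψ ((gam V).prod (gam J))) := by rw [hR.map_eq]
    _ = Measure.map Prod.snd ((gam V).prod (gam J)) := by
        rw [Measure.map_map hm hR.measurable, hc]
    _ = gam J := (measurePreserving_snd (μ := gam V) (ν := gam J)).map_eq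

end Pool.Agent.KS6_54.LPG.N383.LPG

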