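import Pool.Agent.KS6_54.LPG.Gauss

/-! Rotation invariance of product Gaussian measures. -/

set_option autoImplicit false
open MeasureTheory Measure Set ProbabilityTheory
open scoped ENNReal NNReal

namespace Pool.Agent.KS6_54.LPG.H992R2

/-- The standard Gaussian on `ι → ℝ`. -/
noncomputable abbrev gam (ι : Type*) [Fintype ι] : Measure (ι → ℝ) :=
  Measure.pi fun _ : ι => gaussianReal 0 1

theorem mp_isometry {ι : Type*} [Fintype ι] (L : (ι → ℝ) →ₗ[ℝ] (ι → ℝ))
    (hL : ∀ x, ∑ i, (L x i) ^ 2 = ∑ i, (x i) ^ 2) :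
    MeasurePreserving L (gam ι) (gam ι) := by
  classical
  let e := (WithLp.linearEquiv 2 ℝ (ι → ℝ))
  let L1 : EuclideanSpace ℝ ι →ₗ[ℝ] EuclideanSpace ℝ ι := e.symm.toLinearMap ∘ₗ L ∘ₗ e.toLinearMap
  let L2 : EuclideanSpace ℝ ι →ₗᵢ[ℝ] EuclideanSpace ℝ ι :=
    { L1 with
      norm_map' := by
        intro x
        have h1 : ‖L1 x‖ ^ 2 = ‖x‖ ^ 2 := by
          rw [EuclideanSpace.norm_sq_eq, EuclideanSpace.norm_sq_eq]
          simp only [Real.norm_eq_abs, sq_abs]
          exact hL (e x)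
        exact (pow_left_inj₀ (norm_nonneg _) (norm_nonneg _) two_ne_zero).mp h1 }
  let L3 : EuclideanSpace ℝ ι ≃ₗᵢ[ℝ] EuclideanSpace ℝ ι := L2.toLinearIsometryEquiv rfl
  have hm1 : Measurable (WithLp.toLp 2 : (ι → ℝ) → EuclideanSpace ℝ ι) :=
    (PiLp.volume_preserving_toLp ι).measurable
  have hm2 : Measurable (WithLp.ofLp : EuclideanSpace ℝ ι → (ι → ℝ)) :=
    (PiLp.volume_preserving_ofLp ι).measurable
  have hfact : (L : (ι → ℝ) → (ι → ℝ)) = WithLp.ofLp ∘ L3 ∘ WithLp.toLp 2 := by
    funext x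
    rfl
  have hLm : Measurable (L : (ι → ℝ) → (ι → ℝ)) := L.continuous_of_finiteDimensional.measurable
  refine ⟨hLm, ?_⟩
  have h3 : Measurable L3 := L3.continuous.measurable
  rw [hfact, ← Measure.map_map (hm2) (h3.comp hm1), ← Measure.map_map h3 hm1]
  simp only [gam]
  rw [map_pi_eq_stdGaussian, stdGaussian_map, ← map_pi_eq_stdGaussian,
    Measure.map_map hm2 hm1]
  have : (WithLp.ofLp ∘ WithLp.toLp 2 : (ι → ℝ) → (ι → ℝ)) = id := rfl
  rw [this, Measure.map_id]

/-- The Gaussian measure on square arrays. -/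
noncomputable abbrev muM (m n : ℕ) : Measure (Fin m → Fin n → ℝ) :=
  Measure.pi fun _ : Fin m => Measure.pi fun _ : Fin n => gaussianReal 0 1

theorem mp_curry (m n : ℕ) :
    MeasurePreserving (MeasurableEquiv.curry (Fin m) (Fin n) ℝ).symm (muM m n)
      (gam (Fin m × Fin n)) := by
  refine ⟨(MeasurableEquiv.curry (Fin m) (Fin n) ℝ).symm.measurable, ?_⟩
  exact map_uncurry_pi_pi (gaussianReal 0 1)

/-- Left multiplication by an orthogonal matrix preserves the Gaussian measure on arrays. -/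
theorem mp_left_mul {n k : ℕ} (Q : Matrix (Fin n) (Fin n) ℝ) (hQ : Q.transpose * Q = 1) :
    MeasurePreserving (fun G : Fin n → Fin k → ℝ => fun i j => ∑ l, Q i l * G l j)
      (muM n k) (muM n k) := by
  let L : (Fin n × Fin k → ℝ) →ₗ[ℝ] (Fin n × Fin k → ℝ) :=
    { toFun := fun x p => ∑ l, Q p.1 l * x (l, p.2)
      map_add' := by
        intro x y
        funext p
        simp only [Pi.add_apply, mul_add, Finset.sum_add_distrib]
      map_smul' := by
        intro c x
        funext p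
        simp only [Pi.smul_apply, smul_eq_mul, RingHom.id_apply, Finset.mul_sum]
        refine Finset.sum_congr rfl fun l _ => by ring }
  have hL : ∀ x, ∑ p, (L x p) ^ 2 = ∑ p, (x p) ^ 2 := by
    intro x
    rw [Fintype.sum_prod_type_right, Fintype.sum_prod_type_right]
    refine Finset.sum_congr rfl fun j _ => ?_
    set y : Fin n → ℝ := fun l => x (l, j) with hy
    have h1 : ∀ i, L x (i, j) = Q.mulVec y i := fun i => rfl
    have h2 : ∑ i, (Q.mulVec y i) ^ 2 = dotProduct (Q.mulVec y) (Q.mulVec y) := by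
      simp only [dotProduct, sq]
    have h3 : ∑ i, (y i) ^ 2 = dotProduct y y := by
      simp only [dotProduct, sq]
    simp_rw [h1]
    rw [h2, Matrix.dotProduct_mulVec, ← Matrix.mulVec_transpose, Matrix.mulVec_mulVec, hQ,
      Matrix.one_mulVec, ← h3]
  have h1 := mp_isometry L hL
  have h2 := ((mp_curry n k).symm _).comp (h1.comp (mp_curry n k))
  exact h2

theorem mp_mulVec {n : ℕ} (Q : Matrix (Fin n) (Fin n) ℝ) (hQ : Q.transpose * Q = 1) :
    MeasurePreserving (fun x : Fin n → ℝ => Q.mulVec x) (gam (Fin n)) (gam (Fin n)) := by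
  refine mp_isometry (Matrix.mulVecLin Q) ?_
  intro y
  have h2 : ∑ i, (Matrix.mulVecLin Q y i) ^ 2 = dotProduct (Q.mulVec y) (Q.mulVec y) := by
    simp only [dotProduct, sq, Matrix.mulVecLin_apply]
  have h3 : ∑ i, (y i) ^ 2 = dotProduct y y := by
    simp only [dotProduct, sq]
  rw [h2, Matrix.dotProduct_mulVec, ← Matrix.mulVec_transpose, Matrix.mulVec_mulVec, hQ,
      Matrix.one_mulVec, ← h3]

/-- Householder matrix swapping two unit vectors. -/
noncomputable def hh {n : ℕ} (a b : Fin n → ℝ) : Matrix (Fin n) (Fin n) ℝ :=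
  1 - (2 / dotProduct (a - b) (a - b)) • Matrix.vecMulVec (a - b) (a - b)

theorem hh_mul_self {n : ℕ} (a b : Fin n → ℝ) : hh a b * hh a b = 1 := by
  set c := a - b with hc
  set s := dotProduct c c with hs
  have h1 : Matrix.vecMulVec c c * Matrix.vecMulVec c c = s • Matrix.vecMulVec c c := by
    rw [Matrix.vecMulVec_mul_vecMulVec, ← hs, Matrix.vecMulVec_smul]
  have h2 : hh a b = 1 - (2 / s) • Matrix.vecMulVec c c := rfl
  have h3 : ((2 / s) • Matrix.vecMulVec c c) * ((2 / s) • Matrix.vecMulVec c c) =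
      (2 / s * (2 / s * s)) • Matrix.vecMulVec c c := by
    rw [Matrix.smul_mul, Matrix.mul_smul, h1, smul_smul, smul_smul, mul_assoc]
  rw [h2, mul_sub, sub_mul, sub_mul, one_mul, mul_one, h3, one_mul]
  by_cases hs0 : s = 0
  · simp [hs0]
  · have : 2 / s * (2 / s * s) = 2 / s + 2 / s := by field_simp; ring
    rw [this, add_smul]
    abel

theorem hh_transpose {n : ℕ} (a b : Fin n → ℝ) : (hh a b).transpose = hh a b := by
  unfold hh
  rw [Matrix.transpose_sub, Matrix.transpose_one, Matrix.transpose_smul,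
    Matrix.transpose_vecMulVec]

theorem hh_mulVec {n : ℕ} (a b : Fin n → ℝ) (hab : dotProduct a a = dotProduct b b) :
    (hh a b).mulVec a = b := by
  have h1 : dotProduct (a - b) (a - b) = 2 * dotProduct (a - b) a := by
    simp only [sub_dotProduct, dotProduct_sub]
    rw [dotProduct_comm b a, hab]
    ring
  unfold hh
  rw [Matrix.sub_mulVec, Matrix.one_mulVec, Matrix.smul_mulVec, Matrix.vecMulVec_mulVec]
  by_cases h0 : dotProduct (a - b) (a - b) = 0
  · have : a - b = 0 := dotProduct_self_eq_zero.mp h0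
    rw [this]
    have hab' : a = b := sub_eq_zero.mp this
    simp [hab']
  · rw [h1] at h0 ⊢
    have h2 : dotProduct (a - b) a ≠ 0 := fun h => h0 (by rw [h]; ring)
    ext i
    simp only [Pi.sub_apply, Pi.smul_apply, smul_eq_mul, MulOpposite.smul_eq_mul_unop, MulOpposite.unop_op]
    field_simp
    ring

end Pool.Agent.KS6_54.LPG.H992R2
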