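import Pool.Agent.KS6_54.LPG.Slab

/-! Section lemma for `‖A‖ ‖A⁻¹ w‖`. -/

set_option autoImplicit false
open MeasureTheory Measure Set ProbabilityTheory
open scoped ENNReal NNReal

namespace Pool.Agent.KS6_54.LPG.H992R2

variable {n : ℕ}

/-- The operator attached to a square matrix. -/
noncomputable abbrev Ph (M : Matrix (Fin n) (Fin n) ℝ) :
    EuclideanSpace ℝ (Fin n) →L[ℝ] EuclideanSpace ℝ (Fin n) := Matrix.toEuclideanCLM (𝕜 := ℝ) M

/-- Euclidean norm of a vector. -/
noncomputable abbrev en (v : Fin n → ℝ) : ℝ := ‖(WithLp.toLp 2 v : EuclideanSpace ℝ (Fin n))‖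

lemma en_sq (v : Fin n → ℝ) : en v ^ 2 = dotProduct v v := by
  rw [en, EuclideanSpace.norm_sq_eq]
  simp [dotProduct, sq]

lemma Ph_toLp (M : Matrix (Fin n) (Fin n) ℝ) (v : Fin n → ℝ) :
    Ph M (WithLp.toLp 2 v) = WithLp.toLp 2 (M.mulVec v) := Matrix.toEuclideanCLM_toLp M v

lemma Ph_mul (M N : Matrix (Fin n) (Fin n) ℝ) : Ph (M * N) = Ph M * Ph N :=
  map_mul _ M N

lemma Ph_one : Ph (1 : Matrix (Fin n) (Fin n) ℝ) = 1 := map_one _

lemma en_mulVec_le (M : Matrix (Fin n) (Fin n) ℝ) (v : Fin n → ℝ) :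
    en (M.mulVec v) ≤ ‖Ph M‖ * en v := by
  rw [en, ← Ph_toLp]
  exact (Ph M).le_opNorm _

lemma opn_le_of {M : Matrix (Fin n) (Fin n) ℝ} {C : ℝ} (hC : 0 ≤ C)
    (h : ∀ v, en (M.mulVec v) ≤ C * en v) : ‖Ph M‖ ≤ C := by
  refine ContinuousLinearMap.opNorm_le_bound _ hC fun x => ?_
  have := h (WithLp.ofLp x)
  rw [en, ← Ph_toLp] at this
  exact this

lemma en_smul (c : ℝ) (v : Fin n → ℝ) : en (c • v) = |c| * en v := by
  rw [en, WithLp.toLp_smul, norm_smul, Real.norm_eq_abs]

lemma continuous_Ph : Continuous fun M : Matrix (Fin n) (Fin n) ℝ => Ph M := by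
  let L : Matrix (Fin n) (Fin n) ℝ →ₗ[ℝ]
      (EuclideanSpace ℝ (Fin n) →L[ℝ] EuclideanSpace ℝ (Fin n)) :=
    { toFun := fun M => Ph M
      map_add' := fun M N => map_add _ M N
      map_smul' := fun c M => by
        simp only [RingHom.id_apply]
        exact map_smul (Matrix.toEuclideanCLM (n := Fin n) (𝕜 := ℝ)) c M }
  exact L.continuous_of_finiteDimensional

lemma en_orth {Q : Matrix (Fin n) (Fin n) ℝ} (hQ : Q.transpose * Q = 1) (v : Fin n → ℝ) :
    en (Q.mulVec v) = en v := by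
  have h : en (Q.mulVec v) ^ 2 = en v ^ 2 := by
    rw [en_sq, en_sq, Matrix.dotProduct_mulVec, ← Matrix.mulVec_transpose, Matrix.mulVec_mulVec,
      hQ, Matrix.one_mulVec]
  exact (pow_left_inj₀ (norm_nonneg _) (norm_nonneg _) two_ne_zero).mp h

lemma opn_orth_mul {Q : Matrix (Fin n) (Fin n) ℝ} (hQ : Q.transpose * Q = 1)
    (M : Matrix (Fin n) (Fin n) ℝ) : ‖Ph (Q * M)‖ = ‖Ph M‖ := by
  apply le_antisymm
  · refine opn_le_of (norm_nonneg _) fun v => ?_
    rw [← Matrix.mulVec_mulVec, en_orth hQ]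
    exact en_mulVec_le M v
  · refine opn_le_of (norm_nonneg _) fun v => ?_
    rw [← en_orth hQ, Matrix.mulVec_mulVec]
    exact en_mulVec_le _ v

/-- Projection orthogonal to the unit vector `ν`. -/
noncomputable def prj (ν : Fin n → ℝ) : Matrix (Fin n) (Fin n) ℝ := 1 - Matrix.vecMulVec ν ν

lemma prj_mulVec (ν v : Fin n → ℝ) : (prj ν).mulVec v = v - dotProduct ν v • ν := by
  rw [prj, Matrix.sub_mulVec, Matrix.one_mulVec, Matrix.vecMulVec_mulVec]
  ext i
  simp [mul_comm]

lemma en_prj_le {ν : Fin n → ℝ} (hν : dotProduct ν ν = 1) (v : Fin n → ℝ) :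
    en ((prj ν).mulVec v) ≤ en v := by
  have h : en ((prj ν).mulVec v) ^ 2 ≤ en v ^ 2 := by
    rw [en_sq, en_sq, prj_mulVec]
    simp only [sub_dotProduct, dotProduct_sub, smul_dotProduct, dotProduct_smul, smul_eq_mul, hν]
    rw [dotProduct_comm v ν]
    nlinarith [sq_nonneg (dotProduct ν v)]
  exact le_of_sq_le_sq h (norm_nonneg _)

lemma opn_mul_prj_le {ν : Fin n → ℝ} (hν : dotProduct ν ν = 1) (M : Matrix (Fin n) (Fin n) ℝ) :
    ‖Ph (M * prj ν)‖ ≤ ‖Ph M‖ := by
  refine opn_le_of (norm_nonneg _) fun v => ?_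
  rw [← Matrix.mulVec_mulVec]
  refine (en_mulVec_le M _).trans ?_
  gcongr
  exact en_prj_le hν v

lemma opn_le_prj_add {ν : Fin n → ℝ} (hν : dotProduct ν ν = 1) (M : Matrix (Fin n) (Fin n) ℝ) :
    ‖Ph M‖ ≤ ‖Ph (M * prj ν)‖ + en (M.mulVec ν) := by
  refine opn_le_of (by positivity) fun v => ?_
  have h1 : M.mulVec v = (M * prj ν).mulVec v + dotProduct ν v • M.mulVec ν := by
    rw [← Matrix.mulVec_mulVec, prj_mulVec, Matrix.mulVec_sub, Matrix.mulVec_smul]
    abel
  have h2 : en (M.mulVec v) ≤ en ((M * prj ν).mulVec v) + en (dotProduct ν v • M.mulVec ν) := by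
    rw [h1]
    exact norm_add_le (WithLp.toLp 2 ((M * prj ν).mulVec v) : EuclideanSpace ℝ (Fin n))
      (WithLp.toLp 2 (dotProduct ν v • M.mulVec ν))
  have h3 : |dotProduct ν v| ≤ en v := by
    have hν1 : en ν = 1 := by
      have : en ν ^ 2 = 1 := by rw [en_sq, hν]
      exact (pow_eq_one_iff_of_nonneg (norm_nonneg _) two_ne_zero).mp this
    have := abs_real_inner_le_norm (WithLp.toLp 2 ν : EuclideanSpace ℝ (Fin n)) (WithLp.toLp 2 v)
    have h4 : inner ℝ (WithLp.toLp 2 ν : EuclideanSpace ℝ (Fin n)) (WithLp.toLp 2 v) =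
        dotProduct ν v := by
      simp only [PiLp.inner_apply, RCLike.inner_apply, conj_trivial, dotProduct]
      exact Finset.sum_congr rfl fun i _ => mul_comm _ _
    rw [h4] at this
    have h5 : ‖(WithLp.toLp 2 ν : EuclideanSpace ℝ (Fin n))‖ = 1 := hν1
    rw [h5, one_mul] at this
    exact this
  rw [en_smul] at h2
  have h6 := en_mulVec_le (M * prj ν) v
  have h7 : |dotProduct ν v| * en (M.mulVec ν) ≤ en v * en (M.mulVec ν) := by gcongr
  nlinarith

/-- the unit vector `e₀` -/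
def ez (N : ℕ) : Fin (N + 1) → ℝ := Pi.single 0 1

lemma en_ez (N : ℕ) : en (ez N) = 1 := by
  have : en (ez N) ^ 2 = 1 := by rw [en_sq, ez]; simp
  exact (pow_eq_one_iff_of_nonneg (norm_nonneg _) two_ne_zero).mp this

theorem section_bound {N : ℕ} (Abar : Matrix (Fin (N + 1)) (Fin (N + 1)) ℝ) {σ x : ℝ}
    (hσ : 0 < σ) (hx : 2 ≤ x) (B : Fin N → Fin (N + 1) → ℝ) :
    gam (Fin (N + 1)) {a | (Abar + σ • Matrix.of (Fin.cons a B)).det ≠ 0 ∧
      x ≤ ‖Ph (Abar + σ • Matrix.of (Fin.cons a B))‖ *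
        en ((Abar + σ • Matrix.of (Fin.cons a B))⁻¹.mulVec (ez N))} ≤
    ENNReal.ofReal (2 / (x * σ)) *
      ∫⁻ a, ENNReal.ofReal ‖Ph (Abar + σ • Matrix.of (Fin.cons a B))‖ ∂(gam (Fin (N + 1))) := by
  set A : (Fin (N + 1) → ℝ) → Matrix (Fin (N + 1)) (Fin (N + 1)) ℝ :=
    fun a => Abar + σ • Matrix.of (Fin.cons a B) with hA
  set S : Set (Fin (N + 1) → ℝ) := {a | (A a).det ≠ 0 ∧
      x ≤ ‖Ph (A a)‖ * en ((A a)⁻¹.mulVec (ez N))} with hS
  rcases S.eq_empty_or_nonempty with h0 | ⟨a1, ha1⟩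
  · change gam (Fin (N + 1)) S ≤ _
    rw [h0, measure_empty]
    exact zero_le
  have hA0 : ∀ a j, A a 0 j = Abar 0 j + σ * a j := by
    intro a j
    simp [hA, Matrix.add_apply]
  have hAs : ∀ a i j, A a (Fin.succ i) j = Abar (Fin.succ i) j + σ * B i j := by
    intro a i j
    simp [hA, Matrix.add_apply]
  -- the kernel direction of the last rows
  set b1 := (A a1)⁻¹.mulVec (ez N) with hb1
  have hAb1 : (A a1).mulVec b1 = ez N := by
    rw [hb1, Matrix.mulVec_mulVec, Matrix.mul_nonsing_inv _ (isUnit_iff_ne_zero.mpr ha1.1),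
      Matrix.one_mulVec]
  have hb10 : en b1 ≠ 0 := by
    intro h
    have : b1 = 0 := by
      have h2 := norm_eq_zero.mp h
      exact congrArg WithLp.ofLp h2
    rw [this, Matrix.mulVec_zero] at hAb1
    have h3 := congrFun hAb1 0
    simp [ez] at h3
  set ν := (en b1)⁻¹ • b1 with hν
  have hνν : dotProduct ν ν = 1 := by
    rw [hν, smul_dotProduct, dotProduct_smul, ← en_sq, smul_eq_mul, smul_eq_mul]
    field_simp
  have hrest : ∀ i, dotProduct (fun j => Abar (Fin.succ i) j + σ * B i j) ν = 0 := by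
    intro i
    have h1 := congrFun hAb1 (Fin.succ i)
    have h2 : dotProduct (fun j => Abar (Fin.succ i) j + σ * B i j) b1 = 0 := by
      have h3 : (A a1).mulVec b1 (Fin.succ i) =
          dotProduct (fun j => Abar (Fin.succ i) j + σ * B i j) b1 := by
        rw [Matrix.mulVec]
        congr 1
      rw [← h3, h1]
      simp [ez]
    rw [hν, dotProduct_smul, h2, smul_zero]
  set s : (Fin (N + 1) → ℝ) → ℝ := fun a => dotProduct (Abar 0) ν + σ * dotProduct ν a with hs
  have hAν : ∀ a, (A a).mulVec ν = s a • ez N := by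
    intro a
    funext i
    refine Fin.cases ?_ (fun i => ?_) i
    · rw [Matrix.mulVec]
      have : (fun j => A a 0 j) = Abar 0 + σ • a := by
        funext j
        rw [hA0]; rfl
      rw [this, add_dotProduct, smul_dotProduct, dotProduct_comm a ν]
      simp [hs, ez]
    · rw [Matrix.mulVec]
      have : (fun j => A a (Fin.succ i) j) = fun j => Abar (Fin.succ i) j + σ * B i j := by
        funext j
        rw [hAs]
      rw [this, hrest]
      simp [ez]
  set H : (Fin (N + 1) → ℝ) → ℝ := fun a => 2 * ‖Ph (A a * prj ν)‖ / x with hH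
  have hAc : Continuous A := by
    refine continuous_matrix fun i j => ?_
    refine Fin.cases ?_ (fun i => ?_) i
    · simp only [hA0]; fun_prop
    · simp only [hAs]; fun_prop
  have hHc : Continuous H := by
    have h1 : Continuous fun a => A a * prj ν := hAc.matrix_mul continuous_const
    have h2 : Continuous fun a => ‖Ph (A a * prj ν)‖ := (continuous_Ph.comp h1).norm
    simp only [hH]
    exact (continuous_const.mul h2).div_const x
  have hinv : ∀ (a : Fin (N + 1) → ℝ) (c : ℝ), H (a + c • ν) = H a := by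
    intro a c
    simp only [hH]
    have h1 : A (a + c • ν) = A a + (σ * c) • Matrix.vecMulVec (ez N) ν := by
      ext i j
      refine Fin.cases ?_ (fun i => ?_) i
      · rw [hA0, Matrix.add_apply, hA0, Matrix.smul_apply, Matrix.vecMulVec_apply]
        simp [ez]; ring
      · rw [hAs, Matrix.add_apply, hAs, Matrix.smul_apply, Matrix.vecMulVec_apply]
        simp [ez]
    have h2 : Matrix.vecMulVec (ez N) ν * prj ν = 0 := by
      rw [prj, Matrix.mul_sub, Matrix.mul_one, Matrix.vecMulVec_mul_vecMulVec, hνν, one_smul,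
        sub_self]
    rw [h1, Matrix.add_mul, Matrix.smul_mul, h2, smul_zero, add_zero]
  have hsub : S ⊆ {a | |dotProduct (Abar 0) ν + σ * dotProduct ν a| ≤ H a} := by
    intro a ha
    simp only [mem_ofPred_eq]
    change |s a| ≤ H a
    set b := (A a)⁻¹.mulVec (ez N) with hb
    have h1 : ν = s a • b := by
      have h2 : (A a)⁻¹.mulVec ((A a).mulVec ν) = ν := by
        rw [Matrix.mulVec_mulVec, Matrix.nonsing_inv_mul _ (isUnit_iff_ne_zero.mpr ha.1),
          Matrix.one_mulVec]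
      rw [hAν, Matrix.mulVec_smul] at h2
      exact h2.symm
    have hν1 : en ν = 1 := by
      have : en ν ^ 2 = 1 := by rw [en_sq, hνν]
      exact (pow_eq_one_iff_of_nonneg (norm_nonneg _) two_ne_zero).mp this
    have h3 : |s a| * en b = 1 := by
      rw [← en_smul, ← h1, hν1]
    have h4 : x * |s a| ≤ ‖Ph (A a)‖ := by
      calc x * |s a| ≤ (‖Ph (A a)‖ * en b) * |s a| := by gcongr; exact ha.2
        _ = ‖Ph (A a)‖ * (|s a| * en b) := by ring
        _ = ‖Ph (A a)‖ := by rw [h3, mul_one]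
    have h5 := opn_le_prj_add hνν (A a)
    rw [hAν, en_smul, en_ez, mul_one] at h5
    simp only [hH]
    rw [le_div_iff₀ (by linarith)]
    nlinarith [abs_nonneg (s a)]
  calc gam (Fin (N + 1)) S ≤ gam (Fin (N + 1))
        {a | |dotProduct (Abar 0) ν + σ * dotProduct ν a| ≤ H a} := measure_mono hsub
    _ ≤ ∫⁻ a, ENNReal.ofReal (H a / σ) ∂(gam (Fin (N + 1))) :=
        slab ν hνν _ σ hσ H hHc.measurable hinv
    _ ≤ ∫⁻ a, ENNReal.ofReal (2 / (x * σ)) * ENNReal.ofReal ‖Ph (A a)‖ ∂(gam (Fin (N + 1))) := by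
        refine lintegral_mono fun a => ?_
        rw [← ENNReal.ofReal_mul (by positivity)]
        apply ENNReal.ofReal_le_ofReal
        simp only [hH]
        have := opn_mul_prj_le hνν (A a)
        calc 2 * ‖Ph (A a * prj ν)‖ / x / σ ≤ 2 * ‖Ph (A a)‖ / x / σ := by gcongr
          _ = 2 / (x * σ) * ‖Ph (A a)‖ := by field_simp
    _ = _ := lintegral_const_mul' _ _ ENNReal.ofReal_ne_top

end Pool.Agent.KS6_54.LPG.H992R2
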