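import Pool.Agent.KS6_54.LPG.Rot

/-! The slab lemma for the standard Gaussian measure. -/

set_option autoImplicit false
open MeasureTheory Measure Set ProbabilityTheory
open scoped ENNReal NNReal

namespace Pool.Agent.KS6_54.LPG.H992R2

theorem gauss_interval (α σ κ : ℝ) (hσ : 0 < σ) :
    gaussianReal 0 1 {t | |α + σ * t| ≤ κ} ≤ ENNReal.ofReal (κ / σ) := by
  have hset : {t : ℝ | |α + σ * t| ≤ κ} = Icc ((-κ - α) / σ) ((κ - α) / σ) := by
    ext t
    simp only [mem_ofPred_eq, abs_le, mem_Icc, div_le_iff₀ hσ, le_div_iff₀ hσ]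
    constructor
    · rintro ⟨h1, h2⟩; constructor <;> linarith
    · rintro ⟨h1, h2⟩; constructor <;> linarith
  rw [hset, gaussianReal_of_var_ne_zero 0 one_ne_zero, withDensity_apply _ measurableSet_Icc]
  have hpdf : ∀ x, gaussianPDF 0 1 x ≤ ENNReal.ofReal (1 / 2) := by
    intro x
    rw [gaussianPDF_def]
    apply ENNReal.ofReal_le_ofReal
    rw [gaussianPDFReal_def]
    simp only [NNReal.coe_one, mul_one, sub_zero]
    have h1 : Real.exp (-x ^ 2 / 2) ≤ 1 := by
      rw [Real.exp_le_one_iff]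
      have := sq_nonneg x
      linarith
    have h2 : (2 : ℝ) ≤ Real.sqrt (2 * Real.pi) := by
      apply Real.le_sqrt_of_sq_le
      nlinarith [Real.pi_gt_three]
    have h3 : (Real.sqrt (2 * Real.pi))⁻¹ ≤ 1 / 2 := by
      rw [one_div]
      exact inv_anti₀ (by norm_num) h2
    calc (Real.sqrt (2 * Real.pi))⁻¹ * Real.exp (-x ^ 2 / 2) ≤ (1 / 2) * 1 := by gcongr
      _ = 1 / 2 := by ring
  calc ∫⁻ a in Icc ((-κ - α) / σ) ((κ - α) / σ), gaussianPDF 0 1 a
      ≤ ∫⁻ a in Icc ((-κ - α) / σ) ((κ - α) / σ), ENNReal.ofReal (1 / 2) :=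
        lintegral_mono hpdf
    _ = ENNReal.ofReal (1 / 2) * ENNReal.ofReal ((κ - α) / σ - (-κ - α) / σ) := by
        rw [setLIntegral_const, Real.volume_Icc]
    _ = ENNReal.ofReal (κ / σ) := by
        rw [← ENNReal.ofReal_mul (by norm_num)]
        congr 1
        field_simp
        ring

theorem slab {N : ℕ} (ν : Fin (N + 1) → ℝ) (hν : dotProduct ν ν = 1) (α σ : ℝ) (hσ : 0 < σ)
    (H : (Fin (N + 1) → ℝ) → ℝ) (hH : Measurable H)
    (hinv : ∀ (a : Fin (N + 1) → ℝ) (c : ℝ), H (a + c • ν) = H a) :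
    gam (Fin (N + 1)) {a | |α + σ * dotProduct ν a| ≤ H a} ≤
      ∫⁻ a, ENNReal.ofReal (H a / σ) ∂(gam (Fin (N + 1))) := by
  set e0 : Fin (N + 1) → ℝ := Pi.single 0 1 with he0
  have he00 : dotProduct e0 e0 = 1 := by simp [he0]
  set Q := hh e0 ν with hQ
  have hQt : Q.transpose = Q := hh_transpose _ _
  have hQQ : Q * Q = 1 := hh_mul_self _ _
  have hQe : Q.mulVec e0 = ν := hh_mulVec _ _ (by rw [he00, hν])
  have hQν : Q.mulVec ν = e0 := by rw [← hQe, Matrix.mulVec_mulVec, hQQ, Matrix.one_mulVec]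
  have hmp : MeasurePreserving (fun x : Fin (N + 1) → ℝ => Q.mulVec x) (gam _) (gam _) :=
    mp_mulVec Q (by rw [hQt, hQQ])
  set K : (Fin N → ℝ) → ℝ := fun r => H (Q.mulVec (Fin.cons 0 r)) with hK
  have hdecomp : ∀ r : Fin (N + 1) → ℝ, H (Q.mulVec r) = K (fun j => r j.succ) := by
    intro r
    have h1 : r = (Fin.cons 0 (fun j => r j.succ) : Fin (N + 1) → ℝ) + (r 0) • e0 := by
      funext i
      refine Fin.cases ?_ (fun j => ?_) i
      · simp [he0]
      · simp [he0]
    have h2 : Q.mulVec r = Q.mulVec (Fin.cons 0 (fun j => r j.succ)) + (r 0) • ν := by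
      conv_lhs => rw [h1]
      rw [Matrix.mulVec_add, Matrix.mulVec_smul, hQe]
    rw [h2, hinv]
  have hdot : ∀ r : Fin (N + 1) → ℝ, dotProduct ν (Q.mulVec r) = r 0 := by
    intro r
    rw [Matrix.dotProduct_mulVec, ← Matrix.mulVec_transpose, hQt, hQν, he0]
    simp
  have hcons : Measurable fun r : Fin N → ℝ => (Fin.cons 0 r : Fin (N + 1) → ℝ) := by
    rw [measurable_pi_iff]
    intro i
    refine Fin.cases ?_ (fun j => ?_) i
    · simp only [Fin.cons_zero]; exact measurable_const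
    · simp only [Fin.cons_succ]; exact measurable_pi_apply j
  have hKm : Measurable K := hH.comp (hmp.measurable.comp hcons)
  have hSm : MeasurableSet {a : Fin (N + 1) → ℝ | |α + σ * dotProduct ν a| ≤ H a} := by
    apply measurableSet_le _ hH
    have : Measurable fun a : Fin (N + 1) → ℝ => dotProduct ν a := by
      simp only [dotProduct]
      fun_prop
    fun_prop
  have hsplit := measurePreserving_piFinSuccAbove
    (fun _ : Fin (N + 1) => gaussianReal 0 1) 0
  have hS2m : MeasurableSet {z : ℝ × (Fin N → ℝ) | |α + σ * z.1| ≤ K z.2} := by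
    apply measurableSet_le _ (hKm.comp measurable_snd)
    fun_prop
  have hlhs : gam (Fin (N + 1)) {a | |α + σ * dotProduct ν a| ≤ H a} =
      ((gaussianReal 0 1).prod (gam (Fin N))) {z | |α + σ * z.1| ≤ K z.2} := by
    rw [← hmp.measure_preimage hSm.nullMeasurableSet, ← hsplit.measure_preimage
      hS2m.nullMeasurableSet]
    congr 1
    ext r
    simp only [mem_preimage, mem_ofPred_eq, hdot, hdecomp]
    rfl
  have hrhs : ∫⁻ a, ENNReal.ofReal (H a / σ) ∂(gam (Fin (N + 1))) =
      ∫⁻ r, ENNReal.ofReal (K r / σ) ∂(gam (Fin N)) := by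
    have hm1 : Measurable fun a => ENNReal.ofReal (H a / σ) := by fun_prop
    have hm2 : Measurable fun r => ENNReal.ofReal (K r / σ) := by fun_prop
    rw [← hmp.lintegral_comp hm1]
    have h2 := (measurePreserving_snd (μ := gaussianReal 0 1) (ν := gam (Fin N)))
    rw [← h2.lintegral_comp hm2]
    have hm3 : Measurable fun z : ℝ × (Fin N → ℝ) => ENNReal.ofReal (K z.2 / σ) :=
      hm2.comp measurable_snd
    rw [← hsplit.lintegral_comp hm3]
    refine lintegral_congr fun r => ?_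
    rw [hdecomp]
    rfl
  rw [hlhs, hrhs, Measure.prod_apply_symm hS2m]
  refine lintegral_mono fun r => ?_
  exact gauss_interval α σ (K r) hσ

end Pool.Agent.KS6_54.LPG.H992R2
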