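import Pool.Agent.KS6_54.LPG.Defs

/-!
# MP_98bed0_pr: delocalization in the l_p-Grothendieck problem.  Definitions and tasks.

`gam V` is the standard Gaussian measure on `V → ℝ`, `nrm` the Euclidean norm, `Lip L f` the
Lipschitz condition for the Euclidean norm (`Pool.Agent.KS6_54.LPG.H320R2.LD.Defs`).
-/

set_option autoImplicit false

open MeasureTheory ProbabilityTheory Filter Topology

namespace Pool.Agent.KS6_54.LPG.N573.LPG

open Pool.Agent.KS6_54.LPG.H320R2.LD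

noncomputable section

/-- the pairs `(i, j)` with `i ≤ j` -/
abbrev U (n : ℕ) : Type := {z : Fin n × Fin n // z.1 ≤ z.2}

/-- the unordered pair `{i, j}` -/
def pr {n : ℕ} (i j : Fin n) : U n := ⟨(min i j, max i j), min_le_max⟩

/-- the symmetric matrix with the independent entries `g` above the diagonal and `√2 g` on it;
if `g` is standard Gaussian this is `√n` times the GOE -/
def Wm {n : ℕ} (g : U n → ℝ) (i j : Fin n) : ℝ := (if i = j then Real.sqrt 2 else 1) * g (pr i j)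

/-- the quadratic form -/
def Hf {n : ℕ} (g : U n → ℝ) (y : Fin n → ℝ) : ℝ := ∑ i, ∑ j, Wm g i j * y i * y j

/-- the scalar product -/
def dt {n : ℕ} (v y : Fin n → ℝ) : ℝ := ∑ i, v i * y i

/-- the constraint set: `‖y‖_p^p ≤ n` and `y = 0` on `S` -/
def Kp (p : ℝ) {n : ℕ} (S : Finset (Fin n)) : Set (Fin n → ℝ) :=
  {y | ∑ i, |y i| ^ p ≤ n ∧ ∀ j ∈ S, y j = 0}

/-- the maximum of `⟨W y, y⟩ + 2 ⟨v, y⟩` over the constraint set -/
def M (p : ℝ) {n : ℕ} (S : Finset (Fin n)) (g : U n → ℝ) (v : Fin n → ℝ) : ℝ :=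
  sSup ((fun y => Hf g y + 2 * dt v y) '' Kp p S)

/-- the delocalization statement for the matrix `Wm g` and the constraint `‖y‖_p^p ≤ n` -/
def Core (p C K : ℝ) : Prop := Tendsto (fun n : ℕ => gam (U n) {g | ∃ y ∈ Kp p (∅ : Finset (Fin n)),
  (∀ y' ∈ Kp p (∅ : Finset (Fin n)), Hf g y' ≤ Hf g y) ∧ ∃ i, K * (Real.log n) ^ C < |y i|})
    atTop (𝓝 0)

/-! ### GOE -/

/-- `G` is an `n × n` random matrix from the Gaussian orthogonal ensemble: symmetric, the entries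
`G i j`, `i ≤ j`, are independent centred Gaussians of variance `1 / n` off the diagonal and
`2 / n` on the diagonal -/
structure IsGOE {Ω : Type} [MeasurableSpace Ω] (P : Measure Ω) {n : ℕ}
    (G : Ω → Matrix (Fin n) (Fin n) ℝ) : Prop where
  symm : ∀ ω i j, G ω i j = G ω j i
  law : ∀ i j : Fin n, i ≤ j → HasLaw (fun ω => G ω i j)
    (gaussianReal 0 (if i = j then 2 / (n : NNReal) else 1 / (n : NNReal))) P
  indep : iIndepFun (fun (z : {z : Fin n × Fin n // z.1 ≤ z.2}) ω => G ω z.1.1 z.1.2) P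

/-- `x` is an optimizer of the `ℓ_p`-Grothendieck problem for the matrix `G`: `‖x‖_p ≤ 1` and
`⟨G x, x⟩` is maximal under this condition -/
def IsOptimizer (p : ℝ) {n : ℕ} (G : Matrix (Fin n) (Fin n) ℝ) (x : Fin n → ℝ) : Prop :=
  (∑ i, |x i| ^ p) ^ (1 / p) ≤ 1 ∧ ∀ y : Fin n → ℝ, (∑ i, |y i| ^ p) ^ (1 / p) ≤ 1 →
    dotProduct (G.mulVec y) y ≤ dotProduct (G.mulVec x) x

/-! ### the tasks -/

/-- task RES: resampling the coordinates in the range of an injective map -/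
def T_RES : Prop := ∀ (V J : Type) [Fintype V] [Fintype J] [DecidableEq V] (σ : J → V),
  Function.Injective σ → ∀ Ψ : (V → ℝ) × (J → ℝ) → (V → ℝ),
  (∀ q z, (¬ ∃ j, σ j = z) → Ψ q z = q.1 z) → (∀ q j, Ψ q (σ j) = q.2 j) →
  MeasurePreserving Ψ ((gam V).prod (gam J)) (gam V)

/-- task LAW: the coordinates in the range of an injective map are standard Gaussian -/
def T_LAW : Prop := ∀ (V J : Type) [Fintype V] [Fintype J] (σ : J → V), Function.Injective σ →
  MeasurePreserving (fun (g : V → ℝ) (j : J) => g (σ j)) (gam V) (gam J)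

/-- task ADD: `√k u + w` has the law of `√(k+1) w` -/
def T_ADD : Prop := ∀ (J : Type) [Fintype J] (k : ℕ),
  Measure.map (fun q : (J → ℝ) × (J → ℝ) => fun j => Real.sqrt k * q.1 j + q.2 j)
    ((gam J).prod (gam J)) = Measure.map (fun w : J → ℝ => fun j => Real.sqrt (k + 1 : ℕ) * w j)
      (gam J)

/-- task NRM: the mean of the norm -/
def T_NRM : Prop := ∀ (J : Type) [Fintype J], Integrable (fun w : J → ℝ => nrm w) (gam J) ∧
  ∫ w, nrm w ∂(gam J) ≤ Real.sqrt (Fintype.card J)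

/-- task EUP: the mean of the norm of the random matrix -/
def T_EUP : Prop := ∃ C₁ : ℝ, 0 < C₁ ∧ ∀ n : ℕ, 1 ≤ n → ∃ N : (U n → ℝ) → ℝ,
  Integrable N (gam (U n)) ∧ ∫ g, N g ∂(gam (U n)) ≤ C₁ * Real.sqrt n ∧ (∀ g, 0 ≤ N g) ∧
    ∀ (g : U n → ℝ) (y : Fin n → ℝ), Hf g y ≤ N g * ∑ i, y i ^ 2

/-- task ELO: the maximum over the sign vectors is of order `n^(3/2)` -/
def T_ELO : Prop := ∃ c : ℝ, 0 < c ∧ ∃ n₀ : ℕ, ∀ n : ℕ, n₀ ≤ n → ∀ F : (U n → ℝ) → ℝ,
  Integrable F (gam (U n)) → (∀ (g : U n → ℝ) (y : Fin n → ℝ), (∀ i, |y i| = 1) → Hf g y ≤ F g) →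
    c * (n * Real.sqrt n) ≤ ∫ g, F g ∂(gam (U n))

/-- task GOE: passage to the normalisation of the problem -/
def T_GOE : Prop := ∀ p C K : ℝ, 2 < p → 0 < C → 0 < K → Core p C K →
  ∀ (Ω : ℕ → Type) [∀ n, MeasurableSpace (Ω n)] (P : ∀ n, Measure (Ω n))
    [∀ n, IsProbabilityMeasure (P n)] (G : ∀ n, Ω n → Matrix (Fin n) (Fin n) ℝ),
    (∀ n, IsGOE (P n) (G n)) →
    Tendsto (fun n : ℕ => P n {ω | ∃ x, IsOptimizer p (G n ω) x ∧
      ∃ i, K * (Real.log n) ^ C * (n : ℝ) ^ (-(1 / p)) < |x i|}) atTop (𝓝 0)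

end

end Pool.Agent.KS6_54.LPG.N573.LPG
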